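import Pool.Agent.GSQ.Coord

/-!
# GSQ: from a common slot to frames

`exists_norm`: the norm of `a + b √D` from `M(√D)` to `K(√D)`.
`adj`: if `c = c₁ N(e₁) = c₂ N(e₂) = N(g)` then `c' = c N(c)`, `n = N(c) ^ 2`, `g' = g N(g)` (changed by
an element of norm one, if `g'` belongs to `M`) and the vectors `v'` with `c' e' = N(e) N(c)`.
-/

set_option autoImplicit false

noncomputable section

namespace Pool.Agent.GSQ

open Matrix Pool.Agent.GSH

variable {K : Type} [Field K] [CharZero K] {M : Type} [Field M] [Algebra K M]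

/-- the norm of `a + b √D` is `h₀ + h₁ √D` -/
theorem exists_norm (hM : Module.finrank K M = 3) (D : K) (a b : M) :
    ∃ h₀ h₁ : K, ∀ (Ω : Type) [Field Ω] [Algebra K Ω] [IsAlgClosed Ω]
      (s : Fin 3 → (M →ₐ[K] Ω)), Function.Injective s → ∀ ε : Ω, ε ^ 2 = algebraMap K Ω D →
        ∏ i, (s i a + s i b * ε) = algebraMap K Ω h₀ + algebraMap K Ω h₁ * ε := by
  have hfin := fin_of_three hM
  classical
  set B := Module.finBasis K M with hB
  set P : Polynomial K := ((Algebra.leftMulMatrix B a).map Polynomial.C +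
    (Polynomial.X : Polynomial K) • (Algebra.leftMulMatrix B b).map Polynomial.C).det with hP
  have hPe : ∀ t : K, P.eval t = Algebra.norm K (a + t • b) := by
    intro t
    rw [hP, Algebra.norm_eq_matrix_det B, ← Polynomial.coe_evalRingHom, RingHom.map_det]
    congr 1
    ext i j
    simp [map_add, map_smul, Matrix.add_apply, Matrix.smul_apply]
    ring
  set q : Polynomial K := Polynomial.X ^ 2 - Polynomial.C D with hq
  have hqm : q.Monic := Polynomial.monic_X_pow_sub_C D two_ne_zero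
  have hdeg : (P %ₘ q).degree ≤ 1 := by
    have h1 := Polynomial.degree_modByMonic_lt P hqm
    rw [hq, Polynomial.degree_X_pow_sub_C (by norm_num)] at h1
    exact Order.le_of_lt_succ h1
  refine ⟨(P %ₘ q).coeff 0, (P %ₘ q).coeff 1, ?_⟩
  intro Ω _ _ _ s hs ε hε
  set R : Polynomial Ω := ∏ i, (Polynomial.C (s i a) + Polynomial.C (s i b) * Polynomial.X)
    with hR
  have h1 : P.map (algebraMap K Ω) = R := by
    apply Polynomial.eq_of_infinite_eval_eq
    have hinj : Function.Injective (algebraMap K Ω) := (algebraMap K Ω).injective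
    refine (Set.infinite_range_of_injective hinj).mono ?_
    rintro _ ⟨t, rfl⟩
    show Polynomial.eval _ _ = Polynomial.eval _ _
    rw [Polynomial.eval_map_algebraMap, Polynomial.aeval_algebraMap_apply, Polynomial.coe_aeval_eq_eval,
      hPe, nm_eq hM hs, hR, Polynomial.eval_prod]
    refine Finset.prod_congr rfl fun i _ => ?_
    simp only [Polynomial.eval_add, Polynomial.eval_mul, Polynomial.eval_C, Polynomial.eval_X,
      map_add]
    rw [Algebra.smul_def, map_mul, AlgHom.commutes]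
    ring
  have h2 : ∏ i, (s i a + s i b * ε) = R.eval ε := by
    rw [hR, Polynomial.eval_prod]
    simp only [Polynomial.eval_add, Polynomial.eval_mul, Polynomial.eval_C, Polynomial.eval_X]
  rw [h2, ← h1, Polynomial.eval_map_algebraMap]
  conv_lhs => rw [← Polynomial.modByMonic_add_div P q]
  rw [map_add, map_mul]
  have h3 : Polynomial.aeval ε q = 0 := by
    rw [hq, map_sub, map_pow, Polynomial.aeval_X, Polynomial.aeval_C, hε, sub_self]
  rw [h3, zero_mul, add_zero]
  conv_lhs => rw [Polynomial.eq_X_add_C_of_degree_le_one hdeg]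
  rw [map_add, map_mul, Polynomial.aeval_X, Polynomial.aeval_C, Polynomial.aeval_C]
  ring

section Sm

variable {H : Pen K} {Ω : Type} [Field Ω] [Algebra K Ω]

omit [CharZero K] in
theorem pol_sm (hH : IsHer H) (j : Fin 2) (α β : Ω) (u : Fin 6 → Ω) :
    bl (pol H j) (sm H.S α β u) (sm H.S α β u) =
      (α ^ 2 - algebraMap K Ω H.d * β ^ 2) * bl (pol H j) u u := by
  have h1 : H.Sᵀ * pol H j * H.S = (-H.d) • pol H j := by
    have h2 : H.Sᵀ * pol H j = -(pol H j * H.S) := eq_neg_of_add_eq_zero_left (hH.her j)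
    rw [h2, Matrix.neg_mul, Matrix.mul_assoc, hH.sq, Matrix.mul_smul, Matrix.mul_one, neg_smul]
  rw [bl_sm, hH.her, h1, bl_zero_mat, bl_smul_mat, map_neg]
  ring

theorem Q_sm' (hH : IsHer H) (j : Fin 2) (α β : Ω) (u : Fin 6 → Ω) :
    bl (H.Q j) (sm H.S α β u) (sm H.S α β u) =
      (α ^ 2 - algebraMap K Ω H.d * β ^ 2) * bl (H.Q j) u u := by
  have hz : NeZero (2 : Ω) := neZero_two K Ω
  apply mul_left_cancel₀ (two_ne_zero (α := Ω))
  rw [← bl_pol, pol_sm hH, bl_pol]
  ring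

omit [CharZero K] in
theorem pol_S_mulVec (hH : IsHer H) (j : Fin 2) (u : Fin 6 → Ω) :
    mK (pol H j) *ᵥ (mK H.S *ᵥ u) = -(mK H.Sᵀ *ᵥ (mK (pol H j) *ᵥ u)) := by
  have h2 : pol H j * H.S = -(H.Sᵀ * pol H j) := eq_neg_of_add_eq_zero_right (hH.her j)
  rw [mK_mul, mK_mul, h2]
  have h3 : (mK (-(H.Sᵀ * pol H j)) : Matrix (Fin 6) (Fin 6) Ω) = -mK (H.Sᵀ * pol H j) := by
    ext a b
    simp only [mK, Matrix.map_apply, Matrix.neg_apply, map_neg]
  rw [h3, neg_mulVec]

end Sm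

/-- the eigenvector `α v + β S v` -/
def Eig.adj {H : Pen K} (hH : IsHer H) (E : Eig H M) (α β : M)
    (h : α ^ 2 - algebraMap K M H.d * β ^ 2 ≠ 0) : Eig H M where
  m := E.m
  v := sm H.S α β E.v
  gen := E.gen
  eig := by
    unfold sm
    rw [mulVec_add, mulVec_smul, mulVec_smul, mulVec_add, mulVec_smul, mulVec_smul,
      pol_S_mulVec hH, pol_S_mulVec hH, E.eig, mulVec_smul]
    funext i
    simp only [Pi.add_apply, Pi.smul_apply, Pi.neg_apply, smul_eq_mul]
    ring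
  ne := by
    rw [Q_sm' hH]
    exact mul_ne_zero h E.ne

theorem fr_of {H : Pen K} (hH : IsHer H) (E : Eig H M) {c' α β : M} {κ : K}
    (h : α ^ 2 - algebraMap K M H.d * β ^ 2 ≠ 0)
    (hκ : algebraMap K M κ = c' * ((α ^ 2 - algebraMap K M H.d * β ^ 2) * E.e)) :
    Nonempty (Fr H M c') := by
  refine ⟨{ E.adj hH α β h with κ := κ, hκ := ?_ }⟩
  have h1 : (E.adj hH α β h).cv = (α ^ 2 - algebraMap K M H.d * β ^ 2) * E.cv :=
    Q_sm' hH 0 _ _ _
  have h2 : (E.adj hH α β h).pd = E.pd := rfl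
  change algebraMap K M κ = c' * ((E.adj hH α β h).pd * (E.adj hH α β h).cv)
  rw [h1, h2, hκ, Eig.e]
  ring

/-- the frame belonging to `c' = c N(c)`, `c = e N(e) N(a + b √d)` -/
theorem exists_fr {H : Pen K} (hH : IsHer H) (E : Eig H M) {c a b : M}
    (hc : c ≠ 0) (h : c = E.c * (a ^ 2 - algebraMap K M H.d * b ^ 2)) :
    Nonempty (Fr H M (c * algebraMap K M (Algebra.norm K c))) := by
  have hM0 : a ^ 2 - algebraMap K M H.d * b ^ 2 ≠ 0 := fun h0 => hc (by rw [h, h0, mul_zero])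
  have hc0 : E.c ≠ 0 := fun h0 => hc (by rw [h, h0, zero_mul])
  have he0 : E.e ≠ 0 := fun h0 => hc0 (by rw [Eig.c, h0, zero_mul])
  set M0 := a ^ 2 - algebraMap K M H.d * b ^ 2 with hM
  have hN : (a / (E.e * M0)) ^ 2 - algebraMap K M H.d * (-b / (E.e * M0)) ^ 2 =
      1 / (E.e ^ 2 * M0) := by
    have h1 : (a / (E.e * M0)) ^ 2 - algebraMap K M H.d * (-b / (E.e * M0)) ^ 2 =
        M0 / (E.e * M0) ^ 2 := by
      rw [div_pow, div_pow, neg_pow_two, ← mul_div_assoc, ← sub_div]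
    rw [h1]
    field_simp
  refine fr_of hH E (α := a / (E.e * M0)) (β := -b / (E.e * M0))
    (κ := Algebra.norm K E.e * Algebra.norm K c) ?_ ?_
  · rw [hN]
    exact one_div_ne_zero (mul_ne_zero (pow_ne_zero 2 he0) hM0)
  · rw [hN, map_mul]
    have h3 : c = E.e * algebraMap K M (Algebra.norm K E.e) * M0 := h
    have h5 : c * algebraMap K M (Algebra.norm K c) * (1 / (E.e ^ 2 * M0) * E.e) =
        c * algebraMap K M (Algebra.norm K c) / (E.e * M0) := by
      field_simp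
    rw [h5, eq_div_iff (mul_ne_zero he0 hM0)]
    linear_combination -(algebraMap K M (Algebra.norm K c)) * h3

/-- From a common slot to frames. -/
theorem adj {H₁ H₂ : Pen K} (hH₁ : IsHer H₁) (hH₂ : IsHer H₂) (hd₁ : H₁.d ≠ 0) (hd₂ : H₂.d ≠ 0)
    (hM : Module.finrank K M = 3) (E₁ : Eig H₁ M) (E₂ : Eig H₂ M) {c a₁ b₁ a₂ b₂ x y : M}
    (hc : c ≠ 0) (h₁ : c = E₁.c * (a₁ ^ 2 - algebraMap K M H₁.d * b₁ ^ 2))
    (h₂ : c = E₂.c * (a₂ ^ 2 - algebraMap K M H₂.d * b₂ ^ 2))
    (h₃ : c = x ^ 2 - algebraMap K M (H₁.d * H₂.d) * y ^ 2) :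
    ∃ (c' g₀ g₁ : M) (n : K) (_ : Fr H₁ M c') (_ : Fr H₂ M c'), c' ≠ 0 ∧ g₁ ≠ 0 ∧ n ≠ 0 ∧
      Algebra.norm K c' = n ^ 2 ∧ c' = g₀ ^ 2 - algebraMap K M (H₁.d * H₂.d) * g₁ ^ 2 := by
  have hfin := fin_of_three hM
  obtain ⟨F₁⟩ := exists_fr hH₁ E₁ hc h₁
  obtain ⟨F₂⟩ := exists_fr hH₂ E₂ hc h₂
  have hNc : Algebra.norm K c ≠ 0 := Algebra.norm_ne_zero_iff.2 hc
  have hNc' : algebraMap K M (Algebra.norm K c) ≠ 0 := (map_ne_zero _).2 hNc
  have hc' : c * algebraMap K M (Algebra.norm K c) ≠ 0 := mul_ne_zero hc hNc'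
  have hnorm : Algebra.norm K (c * algebraMap K M (Algebra.norm K c)) =
      (Algebra.norm K c ^ 2) ^ 2 := by
    rw [map_mul, Algebra.norm_algebraMap, hM]
    ring
  -- the norm of `x + y √D`
  set D := H₁.d * H₂.d with hD
  obtain ⟨k₀, k₁, hk⟩ := exists_norm hM D x y
  have hN : Algebra.norm K c = k₀ ^ 2 - D * k₁ ^ 2 := by
    obtain ⟨s, hs⟩ := exists_s (K := K) (M := M) (Ω := AlgebraicClosure K) hM
    obtain ⟨ε, hε⟩ : ∃ ε : AlgebraicClosure K, ε ^ 2 = algebraMap K _ D :=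
      IsAlgClosed.exists_pow_nat_eq _ (by norm_num)
    have e1 := hk (AlgebraicClosure K) s hs ε hε
    have e2 := hk (AlgebraicClosure K) s hs (-ε) (by rw [neg_pow_two, hε])
    apply (algebraMap K (AlgebraicClosure K)).injective
    rw [nm_eq hM hs]
    have e3 : ∏ i, s i c = (∏ i, (s i x + s i y * ε)) * ∏ i, (s i x + s i y * -ε) := by
      rw [← Finset.prod_mul_distrib]
      refine Finset.prod_congr rfl fun i _ => ?_
      rw [h₃, map_sub, map_mul, map_pow, map_pow, AlgHom.commutes, ← hε]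
      ring
    rw [e3, e1, e2, map_sub, map_mul, map_pow, map_pow, ← hε]
    ring
  have hg : c * algebraMap K M (Algebra.norm K c) =
      (x * algebraMap K M k₀ + algebraMap K M D * y * algebraMap K M k₁) ^ 2 -
        algebraMap K M D * (x * algebraMap K M k₁ + y * algebraMap K M k₀) ^ 2 := by
    rw [hN, map_sub, map_mul, map_pow, map_pow]
    linear_combination (algebraMap K M k₀ ^ 2 - algebraMap K M D * algebraMap K M k₁ ^ 2) * h₃
  by_cases h0 : x * algebraMap K M k₁ + y * algebraMap K M k₀ = 0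
  swap
  · exact ⟨_, _, _, _, F₁, F₂, hc', h0, pow_ne_zero 2 hNc, hnorm, hg⟩
  -- `g₁ = 0`: multiply by an element of norm one
  obtain ⟨t, ht0, ht⟩ : ∃ t : M, t ≠ 0 ∧ 1 - t ^ 2 * algebraMap K M D ≠ 0 := by
    have : CharZero M := charZero_of_injective_algebraMap (algebraMap K M).injective
    by_cases h1 : 1 - algebraMap K M D = 0
    · refine ⟨2, two_ne_zero, ?_⟩
      have h2 : algebraMap K M D = 1 := by linear_combination -h1
      rw [h2]
      norm_num
    · exact ⟨1, one_ne_zero, by rwa [one_pow, one_mul]⟩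
  rw [h0, zero_pow two_ne_zero, mul_zero, sub_zero] at hg
  set G := x * algebraMap K M k₀ + algebraMap K M D * y * algebraMap K M k₁ with hG
  have hG0 : G ≠ 0 := by
    rintro h1
    apply hc'
    rw [hg, h1, zero_pow two_ne_zero]
  have : CharZero M := charZero_of_injective_algebraMap (algebraMap K M).injective
  refine ⟨_, G * (1 + t ^ 2 * algebraMap K M D) / (1 - t ^ 2 * algebraMap K M D),
    2 * t * G / (1 - t ^ 2 * algebraMap K M D), _, F₁, F₂, hc', ?_, pow_ne_zero 2 hNc, hnorm, ?_⟩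
  · exact div_ne_zero (mul_ne_zero (mul_ne_zero two_ne_zero ht0) hG0) ht
  · rw [hg]
    field_simp
    ring

end Pool.Agent.GSQ
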