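import Mathlib.Algebra.Quaternion
import Mathlib.Tactic.FieldSimp
import Mathlib.Tactic.LinearCombination

/-!
# GSQ: the common slot lemma

`slot`: if the quaternion algebras `(d₁, c₁)` and `(d₂, c₂)` over a field `K` (in which `2 ≠ 0`) are
isomorphic then there is `c ≠ 0` with `c = c₁ (a₁² - d₁ b₁²) = c₂ (a₂² - d₂ b₂²) = x² - d₁ d₂ y²`.

Proof: a nonzero pure quaternion `z` which anticommutes with `i₁` and with `i₂` has
`z² = c₁ (a₁² - d₁ b₁²) = c₂ (a₂² - d₂ b₂²)`. If `z² = 0` then `d₁` and `d₂` are squares.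
-/

set_option autoImplicit false

namespace Pool.Agent.GSQ

variable {K : Type*} [Field K]

/-- `x ↦ x² - s² y²` represents everything -/
theorem slot_sq (h2 : (2 : K) ≠ 0) {d s : K} (hs : s ≠ 0) (hd : d = s ^ 2) (t : K) :
    ∃ x y : K, t = x ^ 2 - d * y ^ 2 := by
  refine ⟨(t + 1) / 2, (t - 1) / (2 * s), ?_⟩
  rw [hd]
  field_simp
  ring

/-- an isotropic norm form: `d` is a square -/
theorem slot_isq {d a b : K} (hd : d ≠ 0) (hab : a ≠ 0 ∨ b ≠ 0) (h : a ^ 2 - d * b ^ 2 = 0) :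
    ∃ s, s ≠ 0 ∧ d = s ^ 2 := by
  have hb : b ≠ 0 := by
    intro hb
    rw [hb] at h hab
    have ha : a ^ 2 = 0 := by linear_combination h
    have ha' : a = 0 := pow_eq_zero_iff two_ne_zero |>.1 ha
    rcases hab with h1 | h1
    · exact h1 ha'
    · exact h1 rfl
  have h1 : d = (a / b) ^ 2 := by
    field_simp
    linear_combination -h
  refine ⟨a / b, ?_, h1⟩
  intro h3
  apply hd
  rw [h1, h3]
  ring

/-- **Common slot lemma.** -/
theorem slot (h2 : (2 : K) ≠ 0) {d₁ d₂ c₁ c₂ : K} (hd₁ : d₁ ≠ 0) (hd₂ : d₂ ≠ 0) (hc₁ : c₁ ≠ 0)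
    (hc₂ : c₂ ≠ 0)
    (h : Nonempty (QuaternionAlgebra K d₁ 0 c₁ ≃ₐ[K] QuaternionAlgebra K d₂ 0 c₂)) :
    ∃ c a₁ b₁ a₂ b₂ x y : K, c ≠ 0 ∧ c = c₁ * (a₁ ^ 2 - d₁ * b₁ ^ 2) ∧
      c = c₂ * (a₂ ^ 2 - d₂ * b₂ ^ 2) ∧ c = x ^ 2 - d₁ * d₂ * y ^ 2 := by
  obtain ⟨φ⟩ := h
  -- the two generators of the second algebra
  set i₂ : QuaternionAlgebra K d₂ 0 c₂ := ⟨0, 1, 0, 0⟩ with hi₂
  set j₂ : QuaternionAlgebra K d₂ 0 c₂ := ⟨0, 0, 1, 0⟩ with hj₂
  have e1 : i₂ * i₂ = algebraMap K _ d₂ := by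
    ext <;> simp [hi₂, QuaternionAlgebra.algebraMap_eq]
  have e2 : j₂ * j₂ = algebraMap K _ c₂ := by
    ext <;> simp [hj₂, QuaternionAlgebra.algebraMap_eq]
  have e3 : i₂ * j₂ + j₂ * i₂ = 0 := by
    ext <;> simp [hi₂, hj₂]
  obtain ⟨p, hp⟩ : ∃ p, p = φ.symm i₂ := ⟨_, rfl⟩
  obtain ⟨q, hq⟩ : ∃ q, q = φ.symm j₂ := ⟨_, rfl⟩
  have f1 : p * p = algebraMap K _ d₂ := by
    rw [hp, ← map_mul, e1, AlgEquiv.commutes]
  have f2 : q * q = algebraMap K _ c₂ := by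
    rw [hq, ← map_mul, e2, AlgEquiv.commutes]
  have f3 : p * q + q * p = 0 := by
    rw [hp, hq, ← map_mul, ← map_mul, ← map_add, e3, map_zero]
  obtain ⟨p0, p1, p2, p3⟩ := p
  have g0 := congrArg QuaternionAlgebra.re f1
  have g1 := congrArg QuaternionAlgebra.imI f1
  have g2 := congrArg QuaternionAlgebra.imJ f1
  have g3 := congrArg QuaternionAlgebra.imK f1
  simp only [QuaternionAlgebra.algebraMap_eq, QuaternionAlgebra.mk_mul_mk] at g0 g1 g2 g3
  have hp0 : p0 = 0 := by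
    by_contra hp0
    have k1 : p1 = 0 := by
      have : 2 * p0 * p1 = 0 := by linear_combination g1
      simpa [h2, hp0] using this
    have k2 : p2 = 0 := by
      have : 2 * p0 * p2 = 0 := by linear_combination g2
      simpa [h2, hp0] using this
    have k3 : p3 = 0 := by
      have : 2 * p0 * p3 = 0 := by linear_combination g3
      simpa [h2, hp0] using this
    have k4 : (⟨p0, p1, p2, p3⟩ : QuaternionAlgebra K d₁ 0 c₁) = algebraMap K _ p0 := by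
      rw [k1, k2, k3, QuaternionAlgebra.algebraMap_eq]
    rw [k4, Algebra.commutes p0 q, ← two_mul, ← mul_assoc] at f3
    have k5 : (2 : QuaternionAlgebra K d₁ 0 c₁) * q * algebraMap K _ p0 * q = 0 := by
      rw [f3, zero_mul]
    have k6 : algebraMap K (QuaternionAlgebra K d₁ 0 c₁) (2 * p0 * c₂) = 0 := by
      rw [map_mul, map_mul, ← f2, ← k5, map_ofNat, mul_assoc _ q, ← Algebra.commutes p0 q]
      simp only [mul_assoc]
    have k7 := congrArg QuaternionAlgebra.re k6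
    rw [QuaternionAlgebra.algebraMap_eq] at k7
    have k8 : 2 * p0 * c₂ = 0 := k7
    simp [h2, hp0, hc₂] at k8
  subst hp0
  -- `d₁ p₁² + c₁ p₂² - c₁ d₁ p₃² = d₂`
  have g4 : d₁ * p1 ^ 2 + c₁ * p2 ^ 2 - c₁ * d₁ * p3 ^ 2 = d₂ := by linear_combination g0
  -- `z` anticommutes with `i₁` and with `p`
  obtain ⟨a, b, hab, hz, hxy⟩ : ∃ a b : K, (a ≠ 0 ∨ b ≠ 0) ∧ a * p2 = d₁ * b * p3 ∧
      (c₁ * (a ^ 2 - d₁ * b ^ 2) ≠ 0 →
        ∃ x y : K, c₁ * (a ^ 2 - d₁ * b ^ 2) = x ^ 2 - d₁ * d₂ * y ^ 2) := by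
    by_cases hp23 : p2 = 0 ∧ p3 = 0
    · obtain ⟨h5, h6⟩ := hp23
      refine ⟨1, 0, Or.inl one_ne_zero, by rw [h5, h6]; ring, fun _ => ?_⟩
      subst h5 h6
      have h7 : p1 ≠ 0 := by
        rintro rfl
        apply hd₂
        rw [← g4]
        ring
      exact slot_sq h2 (mul_ne_zero hd₁ h7) (by rw [← g4]; ring) _
    · refine ⟨d₁ * p3, p2, ?_, by ring, fun _ => ⟨d₁ * p1, 1, ?_⟩⟩
      · by_contra hcon
        push Not at hcon
        apply hp23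
        refine ⟨hcon.2, ?_⟩
        simpa [hd₁] using hcon.1
      · rw [← g4]
        ring
  set z : QuaternionAlgebra K d₁ 0 c₁ := ⟨0, 0, a, b⟩ with hzd
  have hz0 : z ≠ 0 := by
    intro h5
    have h6 := congrArg QuaternionAlgebra.imJ h5
    have h7 := congrArg QuaternionAlgebra.imK h5
    rcases hab with h8 | h8
    · exact h8 h6
    · exact h8 h7
  have hzz : z * z = algebraMap K _ (c₁ * (a ^ 2 - d₁ * b ^ 2)) := by
    rw [hzd, QuaternionAlgebra.algebraMap_eq, QuaternionAlgebra.mk_mul_mk]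
    ext <;> simp only [] <;> ring
  have hzp : z * (⟨0, p1, p2, p3⟩ : QuaternionAlgebra K d₁ 0 c₁) +
      (⟨0, p1, p2, p3⟩ : QuaternionAlgebra K d₁ 0 c₁) * z = 0 := by
    rw [hzd, QuaternionAlgebra.mk_mul_mk, QuaternionAlgebra.mk_mul_mk,
      QuaternionAlgebra.mk_add_mk]
    ext
    · simp only [QuaternionAlgebra.re_zero]
      linear_combination 2 * c₁ * hz
    · simp only [QuaternionAlgebra.imI_zero]
      ring
    · simp only [QuaternionAlgebra.imJ_zero]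
      ring
    · simp only [QuaternionAlgebra.imK_zero]
      ring
  -- the image of `z`
  have hw0 : φ z ≠ 0 := by
    intro h5
    exact hz0 (by rw [← φ.symm_apply_apply z, h5, map_zero])
  have hww : φ z * φ z = algebraMap K _ (c₁ * (a ^ 2 - d₁ * b ^ 2)) := by
    rw [← map_mul, hzz, AlgEquiv.commutes]
  have hwi : φ z * i₂ + i₂ * φ z = 0 := by
    have h5 : φ (⟨0, p1, p2, p3⟩ : QuaternionAlgebra K d₁ 0 c₁) = i₂ := by
      rw [hp, AlgEquiv.apply_symm_apply]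
    rw [← h5, ← map_mul, ← map_mul, ← map_add, hzp, map_zero]
  obtain ⟨w, hw⟩ : ∃ w, w = φ z := ⟨_, rfl⟩
  rw [← hw] at hw0 hww hwi
  obtain ⟨w0, w1, w2, w3⟩ := w
  rw [hi₂, QuaternionAlgebra.mk_mul_mk, QuaternionAlgebra.mk_mul_mk,
    QuaternionAlgebra.mk_add_mk] at hwi
  have r0 := congrArg QuaternionAlgebra.re hwi
  have r1 := congrArg QuaternionAlgebra.imI hwi
  simp only [QuaternionAlgebra.re_zero, QuaternionAlgebra.imI_zero] at r0 r1
  have hw1 : w1 = 0 := by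
    have h5 : 2 * d₂ * w1 = 0 := by linear_combination r0
    simpa [h2, hd₂] using h5
  have hw00 : w0 = 0 := by
    have h5 : 2 * w0 = 0 := by linear_combination r1
    simpa [h2] using h5
  subst hw1 hw00
  rw [QuaternionAlgebra.mk_mul_mk, QuaternionAlgebra.algebraMap_eq] at hww
  have hc : c₁ * (a ^ 2 - d₁ * b ^ 2) = c₂ * (w2 ^ 2 - d₂ * w3 ^ 2) := by
    have h5 := congrArg QuaternionAlgebra.re hww
    simp only [] at h5
    linear_combination -h5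
  by_cases hcz : c₁ * (a ^ 2 - d₁ * b ^ 2) = 0
  · -- both `d₁` and `d₂` are squares
    obtain ⟨s, hs, hds⟩ := slot_isq hd₁ hab ((mul_eq_zero.1 hcz).resolve_left hc₁)
    have hw23 : w2 ≠ 0 ∨ w3 ≠ 0 := by
      by_contra hcon
      push Not at hcon
      apply hw0
      rw [hcon.1, hcon.2]
      rfl
    obtain ⟨s', hs', hds'⟩ := slot_isq hd₂ hw23
      ((mul_eq_zero.1 (hc ▸ hcz)).resolve_left hc₂)
    obtain ⟨x₁, y₁, h5⟩ := slot_sq h2 hs hds (1 / c₁)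
    obtain ⟨x₂, y₂, h6⟩ := slot_sq h2 hs' hds' (1 / c₂)
    refine ⟨1, x₁, y₁, x₂, y₂, 1, 0, one_ne_zero, ?_, ?_, by ring⟩
    · rw [← h5, mul_one_div_cancel hc₁]
    · rw [← h6, mul_one_div_cancel hc₂]
  · obtain ⟨x, y, hx⟩ := hxy hcz
    exact ⟨_, a, b, w2, w3, x, y, hcz, rfl, hc, hx⟩

end Pool.Agent.GSQ
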