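import Pool.Agent.GSQ.JmapC
import Pool.Agent.GSQ.Adj
import Pool.Agent.GSQ.Slot

/-!
# GSQ: pencils with the same invariants have isomorphic cones

`main`: if `SameTwist H₁ H₂` then there are frames of `H₁` and `H₂` with the same constants and a
linear isomorphism `J` over `K` which maps the normal cone of the first frame to the normal cone of
the second one.
-/

set_option autoImplicit false

noncomputable section

namespace Pool.Agent.GSQ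

namespace JM

open Matrix Pool.Agent.GSH

variable {K : Type} [Field K] [CharZero K] {M : Type} [Field M] [Algebra K M]

theorem exists_con {H₁ H₂ : Pen K} {c g₀ g₁ : M} {n : K} (hH₁ : IsHer H₁) (hH₂ : IsHer H₂)
    (hd₁ : H₁.d ≠ 0) (hd₂ : H₂.d ≠ 0) (hM : Module.finrank K M = 3) (hc0 : c ≠ 0)
    (hc : c = g₀ ^ 2 - algebraMap K M (H₁.d * H₂.d) * g₁ ^ 2) (hg₁ : g₁ ≠ 0) (hn : n ≠ 0)
    (hN : Algebra.norm K c = n ^ 2) : ∃ ν₀ ν₁ : K, Con H₁ H₂ M c g₀ g₁ n ν₀ ν₁ := by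
  obtain ⟨h₀, h₁, hh⟩ := exists_norm hM (H₁.d * H₂.d) g₀ g₁
  have hD : H₁.d * H₂.d ≠ 0 := mul_ne_zero hd₁ hd₂
  have h3 : h₀ ^ 2 - H₁.d * H₂.d * h₁ ^ 2 = n ^ 2 := by
    obtain ⟨s, hs⟩ := exists_s (Ω := AlgebraicClosure K) hM
    obtain ⟨ε, hε⟩ := IsAlgClosed.exists_pow_nat_eq
      (algebraMap K (AlgebraicClosure K) (H₁.d * H₂.d)) zero_lt_two
    have hε' : (-ε) ^ 2 = algebraMap K (AlgebraicClosure K) (H₁.d * H₂.d) := by rw [neg_sq, hε]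
    have e1 := hh (AlgebraicClosure K) s hs ε hε
    have e2 := hh (AlgebraicClosure K) s hs (-ε) hε'
    have e3 : (∏ i, (s i g₀ + s i g₁ * ε)) * (∏ i, (s i g₀ + s i g₁ * -ε)) =
        algebraMap K (AlgebraicClosure K) (n ^ 2) := by
      rw [← hN, nm_eq hM hs, ← Finset.prod_mul_distrib]
      refine Finset.prod_congr rfl fun i _ => ?_
      conv_rhs => rw [hc]
      rw [map_sub, map_mul, map_pow, map_pow, AlgHom.commutes, ← hε]
      ring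
    rw [e1, e2] at e3
    apply (algebraMap K (AlgebraicClosure K)).injective
    rw [← e3, map_sub, map_mul, ← hε, map_pow, map_pow]
    ring
  obtain ⟨ν₀, ν₁, h4, h5, h6⟩ := exists_nu two_ne_zero hn hD h3
  refine ⟨ν₀, ν₁, hH₁, hH₂, hd₁, hd₂, hM, hc0, hc, hg₁, hn, hN, h6, ?_⟩
  intro Ω _ _ _ s hs ε hε
  have e1 := hh Ω s hs ε hε
  have e2 : ∏ i, gv s g₀ g₁ ε i = algebraMap K Ω h₀ + algebraMap K Ω h₁ * ε := e1
  rw [e2]
  unfold nv
  have e3 := congrArg (algebraMap K Ω) h4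
  have e4 := congrArg (algebraMap K Ω) h5
  rw [map_mul, map_neg, map_add, map_mul, map_mul, map_mul, ← hε] at e3
  rw [map_mul, map_add, map_mul, map_mul] at e4
  linear_combination e3 - ε * e4

section

variable {H₁ H₂ : Pen K} {c g₀ g₁ : M} {n ν₀ ν₁ : K}
  (F₁ : Fr H₁ M c) (F₂ : Fr H₂ M c)

omit [CharZero K] in
theorem zi_zero {Ω : Type} [Field Ω] [Algebra K Ω] (F : Fr H₁ M c) (s : Fin 3 → (M →ₐ[K] Ω))
    (δ : Ω) : F.zi s δ 0 = 0 := by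
  funext i
  have h := zi_smul F.toEig s δ 0 0 i
  rw [zero_smul, zero_mul] at h
  exact h

theorem Con.det (hC : Con H₁ H₂ M c g₀ g₁ n ν₀ ν₁) : IsUnit (Jm F₁ F₂ g₀ g₁ ν₀ ν₁).det := by
  rw [isUnit_iff_ne_zero]
  intro h
  rw [← Matrix.exists_mulVec_eq_zero_iff] at h
  obtain ⟨v, hv, hJ⟩ := h
  apply hv
  obtain ⟨s, hs⟩ := exists_s (Ω := AlgebraicClosure K) hC.hM
  obtain ⟨δ₁, h₁⟩ := IsAlgClosed.exists_pow_nat_eq
    (algebraMap K (AlgebraicClosure K) H₁.d) zero_lt_two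
  obtain ⟨δ₂, h₂⟩ := IsAlgClosed.exists_pow_nat_eq
    (algebraMap K (AlgebraicClosure K) H₂.d) zero_lt_two
  have h₂' : (-δ₂) ^ 2 = algebraMap K (AlgebraicClosure K) H₂.d := by rw [neg_sq, h₂]
  obtain ⟨p1, p2, p3, p4, p5, p6, p7, p8, p9⟩ := hC.prop hs h₁ h₂
  obtain ⟨e1, e3⟩ := hC.sl F₁ F₂ hs h₁ h₂ (vK v)
  obtain ⟨e2, e4⟩ := hC.sl F₁ F₂ hs h₁ h₂' (vK v)
  rw [mul_neg, neg_neg] at e2 e4
  have h0 : (mK (Jm F₁ F₂ g₀ g₁ ν₀ ν₁) *ᵥ vK v : I8 → AlgebraicClosure K) = 0 := by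
    rw [mK_vK, hJ]
    funext i
    exact map_zero _
  have hx : ∀ δ : AlgebraicClosure K, xv (0 : I8 → AlgebraicClosure K) δ = 0 := by
    intro δ
    simp [xv]
  have hp : pU (0 : I8 → AlgebraicClosure K) = 0 := rfl
  rw [h0, hx] at e1 e2
  rw [h0, hp, zi_zero] at e3 e4
  obtain ⟨f1, f2, f3, f4⟩ := slot_inj (c := fun i => s i c) p1 p2 p3 p4 p5 p6 p7 p8 p9 e1.symm
    e2.symm (fun i => (congrFun e3 i).symm) (fun i => (congrFun e4 i).symm)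
  have hz2 : (2 : AlgebraicClosure K) ≠ 0 := two_ne_zero
  have hδ : δ₁ ≠ 0 := by
    intro h3
    rw [h3, zero_pow two_ne_zero] at h₁
    exact hC.hd₁ ((map_eq_zero _).1 h₁.symm)
  have hu : pU (vK v : I8 → AlgebraicClosure K) = 0 := by
    have h3 : ∀ i, F₁.ai s (pU (vK v)) i = 0 ∧ F₁.bi s (pU (vK v)) i = 0 := by
      intro i
      have h4 := f3 i
      have h5 := f4 i
      unfold Eig.zi at h4 h5
      constructor
      · apply mul_left_cancel₀ hz2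
        linear_combination h4 + h5
      · apply mul_left_cancel₀ (mul_ne_zero hz2 hδ)
        linear_combination h4 - h5
    rw [coord hC.hH₁ hC.hd₁ hC.hM F₁.toEig hs (pU (vK v))]
    refine Finset.sum_eq_zero fun i _ => ?_
    rw [(h3 i).1, (h3 i).2, zero_smul, zero_smul, add_zero]
  unfold xv at f1 f2
  have hl0 : (vK v : I8 → AlgebraicClosure K) (Sum.inl 0) = 0 := by
    apply mul_left_cancel₀ hz2
    linear_combination f1 + f2
  have hl1 : (vK v : I8 → AlgebraicClosure K) (Sum.inl 1) = 0 := by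
    apply mul_left_cancel₀ (mul_ne_zero hz2 hδ)
    linear_combination f1 - f2
  funext i
  apply (algebraMap K (AlgebraicClosure K)).injective
  rw [Pi.zero_apply, map_zero]
  rcases i with i | i
  · fin_cases i
    · exact hl0
    · exact hl1
  · exact congrFun hu i

omit [CharZero K] in
theorem bl_ext {Ω Ω' : Type} [Field Ω] [Algebra K Ω] [Field Ω'] [Algebra K Ω'] [Algebra Ω Ω']
    [IsScalarTower K Ω Ω'] (A : Matrix (Fin 6) (Fin 6) K) (x y : Fin 6 → Ω) :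
    bl A (fun l => algebraMap Ω Ω' (x l)) (fun l => algebraMap Ω Ω' (y l)) =
      algebraMap Ω Ω' (bl A x y) := by
  simp only [bl, dotProduct, mulVec, mK, Matrix.map_apply, map_sum, map_mul,
    ← IsScalarTower.algebraMap_apply]

omit [CharZero K] in
theorem mulVec_ext {Ω Ω' : Type} [Field Ω] [Algebra K Ω] [Field Ω'] [Algebra K Ω'] [Algebra Ω Ω']
    [IsScalarTower K Ω Ω'] (A : Matrix I8 I8 K) (x : I8 → Ω) :
    (mK A *ᵥ fun l => algebraMap Ω Ω' (x l)) = fun l => algebraMap Ω Ω' ((mK A *ᵥ x) l) := by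
  funext l
  simp only [dotProduct, mulVec, mK, Matrix.map_apply, map_sum, map_mul,
    ← IsScalarTower.algebraMap_apply]

/-- `J` maps the cone to the cone -/
theorem Con.map_W (hC : Con H₁ H₂ M c g₀ g₁ n ν₀ ν₁) {Ω : Type} [Field Ω] [Algebra K Ω]
    {w : I8 → Ω} (hw : w ∈ (F₁.pen n).W Ω) (hU : pU w ≠ 0) :
    mK (Jm F₁ F₂ g₀ g₁ ν₀ ν₁) *ᵥ w ∈ (F₂.pen n).W Ω := by
  obtain ⟨s, hs⟩ := exists_s (Ω := AlgebraicClosure Ω) hC.hM
  rw [Fr.mem_W hC.hH₁ hC.hd₁ hC.hM F₁ hC.hn hs] at hw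
  rw [Fr.mem_W hC.hH₂ hC.hd₂ hC.hM F₂ hC.hn hs]
  obtain ⟨hQ, hP⟩ := hw
  set w' : I8 → AlgebraicClosure Ω := fun l => algebraMap Ω (AlgebraicClosure Ω) (w l) with hw'
  have hJ : mK (Jm F₁ F₂ g₀ g₁ ν₀ ν₁) *ᵥ w' = fun l => algebraMap Ω (AlgebraicClosure Ω)
      ((mK (Jm F₁ F₂ g₀ g₁ ν₀ ν₁) *ᵥ w) l) := mulVec_ext _ _
  have hU' : pU w' ≠ 0 := by
    intro h
    apply hU
    funext l
    apply (algebraMap Ω (AlgebraicClosure Ω)).injective
    exact (congrFun h l).trans (map_zero _).symm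
  have hQ' : ∀ j, bl (H₁.Q j) (pU w') (pU w') = 0 := by
    intro j
    have h : bl (H₁.Q j) (pU w') (pU w') =
        algebraMap Ω (AlgebraicClosure Ω) (bl (H₁.Q j) (pU w) (pU w)) := bl_ext _ _ _
    rw [h, hQ, map_zero]
  obtain ⟨c1, c2⟩ := hC.core F₁ F₂ hs hQ' hP hU'
  rw [hJ] at c1 c2
  refine ⟨fun j => ?_, c2⟩
  apply (algebraMap Ω (AlgebraicClosure Ω)).injective
  rw [map_zero, ← c1 j]
  exact (bl_ext _ _ _).symm

end

end JM

open Matrix Pool.Agent.GSH JM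

/-- **Pencils with the same invariants have isomorphic cones.** -/
theorem main {K : Type} [Field K] [CharZero K] {H₁ H₂ : Pen K} (hH₁ : IsHer H₁)
    (hH₂ : IsHer H₂) (hd₁ : H₁.d ≠ 0) (hd₂ : H₂.d ≠ 0) (h : SameTwist H₁ H₂) :
    ∃ (M : Type) (_ : Field M) (_ : Algebra K M) (c : M) (n : K) (F₁ : Fr H₁ M c)
      (F₂ : Fr H₂ M c) (J : Matrix I8 I8 K), Module.finrank K M = 3 ∧ c ≠ 0 ∧ n ≠ 0 ∧
      Algebra.norm K c = n ^ 2 ∧ IsUnit J.det ∧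
      ∀ (Ω : Type) [Field Ω] [Algebra K Ω], ∀ w ∈ (F₁.pen n).W Ω, pU w ≠ 0 →
        mK J *ᵥ w ∈ (F₂.pen n).W Ω := by
  obtain ⟨M, _, _, hM, E₁, E₂, hiso⟩ := h
  have hfin := fin_of_three hM
  have hcz : CharZero M := charZero_of_injective_algebraMap (algebraMap K M).injective
  have hE : ∀ {H : Pen K} (E : Eig H M), E.c ≠ 0 := by
    intro H E
    have h1 : E.e ≠ 0 := mul_ne_zero (pd_ne hM E) E.ne
    refine mul_ne_zero h1 ?_
    rw [Ne, map_eq_zero, Algebra.norm_eq_zero_iff]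
    exact h1
  obtain ⟨c, a₁, b₁, a₂, b₂, x, y, hc0, s1, s2, s3⟩ := slot two_ne_zero
    ((map_ne_zero _).2 hd₁) ((map_ne_zero _).2 hd₂) (hE E₁) (hE E₂) hiso
  rw [← map_mul] at s3
  obtain ⟨c', g₀, g₁, n, F₁, F₂, t1, t2, t3, t4, t5⟩ :=
    adj hH₁ hH₂ hd₁ hd₂ hM E₁ E₂ hc0 s1 s2 s3
  obtain ⟨ν₀, ν₁, hC⟩ := exists_con hH₁ hH₂ hd₁ hd₂ hM t1 t5 t2 t3 t4
  exact ⟨M, inferInstance, inferInstance, c', n, F₁, F₂, Jm F₁ F₂ g₀ g₁ ν₀ ν₁, hM, t1, t3, t4,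
    hC.det F₁ F₂, fun Ω _ _ w hw hU => hC.map_W F₁ F₂ hw hU⟩

end Pool.Agent.GSQ
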