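import Pool.Agent.GSQ.Cone
import Pool.Agent.GSX.HermW

/-!
# GSQ: from the cone of a pencil of hermitian forms on `L ^ 3` to the normal cone

For `δ` with `δ ^ 2 = d`: `cx δ u` is the vector `x + δ y` of `u = (x, y)`, `ln H j δ u` the vector
`B j ū`. With `l i = B 0 v̄ i` for the eigenvectors `v i` the equation `(B 0 ū) × (B 1 ū) = ξ̄ u` of
the cone becomes `z̄ (i + 1) z̄ (i + 2) (m (i + 2) - m (i + 1)) det (l 0, l 1, l 2) = ξ̄ z i c i`.
-/

set_option autoImplicit false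

noncomputable section

open Matrix Pool.Agent.GSH Pool.Agent.GSX Pool.Agent.GSX.Herm

namespace Pool.Agent.GSQ.XS

variable {K : Type} [Field K]

/-! ### Coordinates in `L ^ 3` -/

section Cx

variable {E : Type} [Field E] [Algebra K E]

/-- the vector `x + δ y` -/
def cx (δ : E) (u : Fin 6 → E) : Fin 3 → E := ![u 0 + δ * u 3, u 1 + δ * u 4, u 2 + δ * u 5]

/-- the vector `B j ū` -/
def ln (H : Herm K) (j : Fin 2) (δ : E) (u : Fin 6 → E) : Fin 3 → E :=
  fun i => lv (H.E j i) u + δ * lv (H.F j i) u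

theorem cx_add (δ : E) (u v : Fin 6 → E) : cx δ (u + v) = cx δ u + cx δ v := by
  funext i
  fin_cases i <;> simp [cx] <;> ring

theorem cx_smul (δ c : E) (u : Fin 6 → E) : cx δ (c • u) = c • cx δ u := by
  funext i
  fin_cases i <;> simp [cx] <;> ring

theorem cx_S (H : Herm K) {δ : E} (hδ : δ ^ 2 = algebraMap K E H.d) (u : Fin 6 → E) :
    cx δ (mK H.S *ᵥ u) = δ • cx δ u := by
  rw [H.S_mulVec, ← hδ]
  funext i
  fin_cases i <;> simp [cx] <;> ring

theorem lv_add (a : Fin 6 → K) (u v : Fin 6 → E) : lv a (u + v) = lv a u + lv a v := by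
  unfold lv
  rw [dotProduct_add]

theorem lv_smul (a : Fin 6 → K) (c : E) (u : Fin 6 → E) : lv a (c • u) = c * lv a u := by
  unfold lv
  rw [dotProduct_smul, smul_eq_mul]

theorem lv_S (H : Herm K) (a : Fin 6 → K) (u : Fin 6 → E) :
    lv a (mK H.S *ᵥ u) = lv (a ᵥ* H.S) u := vK_dot_mK a H.S u

theorem lv_smul_left (c : K) (a : Fin 6 → K) (u : Fin 6 → E) :
    lv (c • a) u = algebraMap K E c * lv a u := by
  simp only [lv, dotProduct, vK, Pi.smul_apply, smul_eq_mul, map_mul, Finset.mul_sum]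
  exact Finset.sum_congr rfl fun i _ => by ring

variable (H : Herm K) (j : Fin 2)

theorem ln_add (δ : E) (u v : Fin 6 → E) : ln H j δ (u + v) = ln H j δ u + ln H j δ v := by
  funext i
  simp only [ln, lv_add, Pi.add_apply]
  ring

theorem ln_smul (δ c : E) (u : Fin 6 → E) : ln H j δ (c • u) = c • ln H j δ u := by
  funext i
  simp only [ln, lv_smul, Pi.smul_apply, smul_eq_mul]
  ring

theorem ln_S {δ : E} (hδ : δ ^ 2 = algebraMap K E H.d) (u : Fin 6 → E) :
    ln H j δ (mK H.S *ᵥ u) = -δ • ln H j δ u := by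
  funext i
  simp only [ln, lv_S, E_S, F_S, lv_smul_left, map_neg, map_one, ← hδ, Pi.smul_apply, smul_eq_mul]
  ring

/-- the hermitian symmetry -/
theorem cx_ln {δ : E} (hδ : δ ^ 2 = algebraMap K E H.d) (u v : Fin 6 → E) :
    cx δ u ⬝ᵥ ln H j δ v = cx (-δ) v ⬝ᵥ ln H j (-δ) u := by
  simp only [ln, lv, dotProduct, vK, Fin.sum_univ_six, Fin.sum_univ_three, cx, Herm.E, Herm.F]
  simp
  rw [← hδ]
  ring

theorem cx_ln_self {δ : E} (hδ : δ ^ 2 = algebraMap K E H.d) (u : Fin 6 → E) :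
    cx δ u ⬝ᵥ ln H j δ u = bl (H.pen.Q j) u u := by
  rw [H.bl_Q, ← hδ]
  have h := H.im_zero j u
  simp only [ln, dotProduct, Fin.sum_univ_three, cx]
  simp
  linear_combination δ * h

/-- The real and imaginary part of the cross product. -/
theorem cross_eq [CharZero K] {δ : E} (hδ : δ ^ 2 = algebraMap K E H.d) (u : Fin 6 → E)
    (k : Fin 3) : bl (H.crR k) u u + δ * bl (H.crI k) u u =
      ln H 0 δ u (k + 1) * ln H 1 δ u (k + 2) - ln H 0 δ u (k + 2) * ln H 1 δ u (k + 1) := by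
  rw [H.bl_crR, H.bl_crI, ← hδ]
  simp only [ln]
  ring

/-- the equation of the cone -/
theorem cone_eq [CharZero K] {δ : E} (hδ : δ ^ 2 = algebraMap K E H.d) {w : I8 → E}
    (hw : w ∈ H.pen.W E) (k : Fin 3) :
    ln H 0 δ (pU w) (k + 1) * ln H 1 δ (pU w) (k + 2) -
      ln H 0 δ (pU w) (k + 2) * ln H 1 δ (pU w) (k + 1) =
      (pL w 0 - pL w 1 * δ) * cx δ (pU w) k := by
  rw [← cross_eq H hδ]
  have h := hw.2
  have hS : (mK H.pen.S *ᵥ pU w : Fin 6 → E) = _ := H.S_mulVec (pU w)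
  have h0 : ∀ i, bl (H.pen.P i) (pU w) (pU w) = pL w 0 * pU w i +
      -pL w 1 * (mK H.pen.S *ᵥ pU w) i := by
    intro i
    rw [h i]
    simp only [sm, Pi.add_apply, Pi.smul_apply, smul_eq_mul]
  rw [hS] at h0
  fin_cases k
  · have h1 := h0 0
    have h2 := h0 3
    change bl (H.crR 0) (pU w) (pU w) = pL w 0 * pU w 0 +
      -pL w 1 * (algebraMap K E H.d * pU w 3) at h1
    change bl (H.crI 0) (pU w) (pU w) = pL w 0 * pU w 3 + -pL w 1 * pU w 0 at h2
    change bl (H.crR 0) (pU w) (pU w) + δ * bl (H.crI 0) (pU w) (pU w) =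
      (pL w 0 - pL w 1 * δ) * (pU w 0 + δ * pU w 3)
    rw [h1, h2, ← hδ]
    ring
  · have h1 := h0 1
    have h2 := h0 4
    change bl (H.crR 1) (pU w) (pU w) = pL w 0 * pU w 1 +
      -pL w 1 * (algebraMap K E H.d * pU w 4) at h1
    change bl (H.crI 1) (pU w) (pU w) = pL w 0 * pU w 4 + -pL w 1 * pU w 1 at h2
    change bl (H.crR 1) (pU w) (pU w) + δ * bl (H.crI 1) (pU w) (pU w) =
      (pL w 0 - pL w 1 * δ) * (pU w 1 + δ * pU w 4)
    rw [h1, h2, ← hδ]
    ring
  · have h1 := h0 2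
    have h2 := h0 5
    change bl (H.crR 2) (pU w) (pU w) = pL w 0 * pU w 2 +
      -pL w 1 * (algebraMap K E H.d * pU w 5) at h1
    change bl (H.crI 2) (pU w) (pU w) = pL w 0 * pU w 5 + -pL w 1 * pU w 2 at h2
    change bl (H.crR 2) (pU w) (pU w) + δ * bl (H.crI 2) (pU w) (pU w) =
      (pL w 0 - pL w 1 * δ) * (pU w 2 + δ * pU w 5)
    rw [h1, h2, ← hδ]
    ring

end Cx

/-! ### Linear algebra in `E ^ 3` -/

section Three

variable {E : Type} [Field E]

theorem cross_id (L : Fin 3 → Fin 3 → E) (t m : Fin 3 → E) (i : Fin 3) :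
    ∑ k, ((∑ a, t a * L a (k + 1)) * (∑ a, t a * (m a * L a (k + 2))) -
      (∑ a, t a * L a (k + 2)) * (∑ a, t a * (m a * L a (k + 1)))) * L i k =
      t (i + 1) * t (i + 2) * (m (i + 2) - m (i + 1)) * (Matrix.of L).det := by
  have e1 : (0 : Fin 3) + 1 = 1 := rfl
  have e2 : (0 : Fin 3) + 2 = 2 := rfl
  have e3 : (1 : Fin 3) + 1 = 2 := rfl
  have e4 : (1 : Fin 3) + 2 = 0 := rfl
  have e5 : (2 : Fin 3) + 1 = 0 := rfl
  have e6 : (2 : Fin 3) + 2 = 1 := rfl
  rw [Matrix.det_fin_three]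
  fin_cases i
  · simp only [Fin.sum_univ_three, Matrix.of_apply, Fin.zero_eta, e1, e2, e3, e4, e5, e6]
    ring
  · simp only [Fin.sum_univ_three, Matrix.of_apply, Fin.mk_one, e1, e2, e3, e4, e5, e6]
    ring
  · simp only [Fin.sum_univ_three, Matrix.of_apply, Fin.reduceFinMk, e1, e2, e3, e4, e5, e6]
    ring

theorem det_ne {L V : Fin 3 → Fin 3 → E} {c : Fin 3 → E} (hc : ∀ i, c i ≠ 0)
    (h : ∀ i j, V i ⬝ᵥ L j = if i = j then c i else 0) : (Matrix.of L).det ≠ 0 := by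
  have h1 : Matrix.of V * (Matrix.of L)ᵀ = Matrix.diagonal c := by
    ext i j
    rw [Matrix.mul_apply, Matrix.diagonal_apply, ← h i j]
    rfl
  have h2 := congrArg Matrix.det h1
  rw [Matrix.det_mul, Matrix.det_transpose, Matrix.det_diagonal] at h2
  intro h3
  rw [h3, mul_zero] at h2
  exact Finset.prod_ne_zero_iff.2 (fun i _ => hc i) h2.symm

end Three

/-! ### The eigenvalues -/

section Val

variable {M : Type} [Field M] [Algebra K M] {E : Type} [Field E] [Algebra K E] {H : Pen K}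

theorem s_inj (F : Eig H M) {s : Fin 3 → (M →ₐ[K] E)} (hs : Function.Injective s) :
    Function.Injective fun i => s i F.m := by
  intro i j hij
  apply hs
  have h1 : ∀ x : M, x ∈ IntermediateField.adjoin K {F.m} → s i x = s j x := by
    intro x hx
    induction hx using IntermediateField.adjoin_induction with
    | mem x hx =>
      rw [Set.mem_singleton_iff] at hx
      rw [hx]
      exact hij
    | algebraMap x => rw [AlgHom.commutes, AlgHom.commutes]
    | add x y _ _ h1 h2 => rw [map_add, map_add, h1, h2]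
    | inv x _ h1 => rw [map_inv₀, map_inv₀, h1]
    | mul x y _ _ h1 h2 => rw [map_mul, map_mul, h1, h2]
  refine AlgHom.ext fun x => h1 x ?_
  rw [F.gen]
  exact IntermediateField.mem_top

open Polynomial in
theorem s_pd (hM : Module.finrank K M = 3) (F : Eig H M) {s : Fin 3 → (M →ₐ[K] E)}
    (hs : Function.Injective s) (i : Fin 3) :
    s i F.pd = (s i F.m - s (i + 1) F.m) * (s i F.m - s (i + 2) F.m) := by
  have : FiniteDimensional K M := FiniteDimensional.of_finrank_pos (by rw [hM]; norm_num)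
  have hint : IsIntegral K F.m := IsIntegral.of_finite K F.m
  have hinj := s_inj F hs
  have hdeg : (minpoly K F.m).natDegree = 3 := by
    rw [← IntermediateField.adjoin.finrank hint, F.gen, IntermediateField.finrank_top', hM]
  have hmon : (∏ i : Fin 3, (X - C (s i F.m))).Monic :=
    monic_prod_of_monic _ _ fun i _ => monic_X_sub_C _
  have hdvd : ∏ i : Fin 3, (X - C (s i F.m)) ∣ (minpoly K F.m).map (algebraMap K E) := by
    refine Finset.prod_dvd_of_coprime (fun i _ j _ hij => ?_) fun i _ => ?_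
    · exact pairwise_coprime_X_sub_C hinj hij
    · rw [dvd_iff_isRoot, IsRoot, eval_map_algebraMap, aeval_algHom_apply, minpoly.aeval, map_zero]
  have hq : (minpoly K F.m).map (algebraMap K E) = ∏ i : Fin 3, (X - C (s i F.m)) := by
    refine eq_of_monic_of_dvd_of_natDegree_le hmon ((minpoly.monic hint).map _) hdvd ?_
    rw [natDegree_map, hdeg, natDegree_prod_of_monic _ _ fun i _ => monic_X_sub_C _]
    simp
  have h1 : s i F.pd = eval (s i F.m) (derivative (∏ i : Fin 3, (X - C (s i F.m)))) := by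
    rw [← hq, derivative_map, eval_map_algebraMap, aeval_algHom_apply]
    rfl
  rw [h1, Fin.prod_univ_three]
  have e1 : (0 : Fin 3) + 1 = 1 := rfl
  have e2 : (0 : Fin 3) + 2 = 2 := rfl
  have e3 : (1 : Fin 3) + 1 = 2 := rfl
  have e4 : (1 : Fin 3) + 2 = 0 := rfl
  have e5 : (2 : Fin 3) + 1 = 0 := rfl
  have e6 : (2 : Fin 3) + 2 = 1 := rfl
  fin_cases i
  · simp only [Fin.zero_eta, e1, e2, derivative_mul, derivative_sub, derivative_X, derivative_C,
      eval_add, eval_mul, eval_sub, eval_X, eval_C, eval_one, eval_zero]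
    ring
  · simp only [Fin.mk_one, e3, e4, derivative_mul, derivative_sub, derivative_X, derivative_C,
      eval_add, eval_mul, eval_sub, eval_X, eval_C, eval_one, eval_zero]
    ring
  · simp only [Fin.reduceFinMk, e5, e6, derivative_mul, derivative_sub, derivative_X, derivative_C,
      eval_add, eval_mul, eval_sub, eval_X, eval_C, eval_one, eval_zero]
    ring

end Val

/-! ### The eigenvectors -/

end Pool.Agent.GSQ.XS

namespace Pool.Agent.GSQ

variable {K : Type} [Field K]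

theorem isHer_herm (H : GSX.Herm K) : IsHer H.pen where
  sq := H.isPen.sq
  her := by
    intro j
    have h1 : pol H.pen j = (2 : K) • H.pen.Q j := by
      unfold pol
      rw [H.isPen.symQ, two_smul]
    rw [h1, Matrix.mul_smul, Matrix.smul_mul, ← smul_add, H.isPen.herQ, smul_zero]

end Pool.Agent.GSQ

namespace Pool.Agent.GSQ.XS

variable {K : Type} [Field K]

section Vec

variable [CharZero K] {M : Type} [Field M] [Algebra K M] {E : Type} [Field E] [Algebra K E]
  {H : Herm K}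

theorem eig_Q (F : Eig H.pen M) : mK (H.pen.Q 1) *ᵥ F.v = F.m • (mK (H.pen.Q 0) *ᵥ F.v) := by
  have h1 : ∀ j, (mK (pol H.pen j) *ᵥ F.v : Fin 6 → M) = (2 : M) • (mK (H.pen.Q j) *ᵥ F.v) := by
    intro j
    unfold pol
    rw [H.isPen.symQ]
    funext i
    simp only [mulVec, dotProduct, mK, Matrix.map_apply, Matrix.add_apply, map_add, Pi.smul_apply,
      smul_eq_mul, Finset.mul_sum]
    exact Finset.sum_congr rfl fun k _ => by ring
  have h2 := F.eig
  rw [h1, h1, smul_comm] at h2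
  have : CharZero M := charZero_of_injective_algebraMap (algebraMap K M).injective
  exact smul_right_injective _ (two_ne_zero : (2 : M) ≠ 0) h2

theorem eig_E (F : Eig H.pen M) (i : Fin 3) : lv (H.E 1 i) F.v = F.m * lv (H.E 0 i) F.v := by
  have h := eig_Q F
  fin_cases i
  · exact congrFun h 0
  · exact congrFun h 1
  · exact congrFun h 2

theorem eig_F (hd : H.d ≠ 0) (F : Eig H.pen M) (i : Fin 3) :
    lv (H.F 1 i) F.v = F.m * lv (H.F 0 i) F.v := by
  have h := eig_Q F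
  have hd' : algebraMap K M H.d ≠ 0 := by
    rw [Ne, map_eq_zero]
    exact hd
  have h1 : ∀ i, lv (H.d • H.F 1 i) F.v = F.m * lv (H.d • H.F 0 i) F.v →
      lv (H.F 1 i) F.v = F.m * lv (H.F 0 i) F.v := by
    intro i hi
    rw [lv_smul_left, lv_smul_left] at hi
    apply mul_left_cancel₀ hd'
    rw [hi]
    ring
  apply h1
  fin_cases i
  · exact congrFun h 3
  · exact congrFun h 4
  · exact congrFun h 5

omit [CharZero K] in
theorem map_lv (f : M →ₐ[K] E) (a : Fin 6 → K) (v : Fin 6 → M) :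
    f (lv a v) = lv a fun l => f (v l) := by
  simp only [lv, dotProduct, vK, map_sum, map_mul, AlgHom.commutes]

theorem ln_eig (hd : H.d ≠ 0) (F : Eig H.pen M) (s : Fin 3 → (M →ₐ[K] E)) (δ : E) (i : Fin 3) :
    ln H 1 δ (F.vi s i) = s i F.m • ln H 0 δ (F.vi s i) := by
  funext k
  have h1 := congrArg (s i) (eig_E F k)
  have h2 := congrArg (s i) (eig_F hd F k)
  rw [map_mul, map_lv, map_lv] at h1 h2
  simp only [ln, Pi.smul_apply, smul_eq_mul]
  change lv (H.E 1 k) (fun l => s i (F.v l)) + δ * lv (H.F 1 k) (fun l => s i (F.v l)) =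
    s i F.m * (lv (H.E 0 k) (fun l => s i (F.v l)) + δ * lv (H.F 0 k) (fun l => s i (F.v l)))
  rw [h1, h2]
  ring

omit [CharZero K] in
theorem ci_eq (F : Eig H.pen M) (s : Fin 3 → (M →ₐ[K] E)) (i : Fin 3) :
    F.ci s i = bl (H.pen.Q 0) (F.vi s i) (F.vi s i) := by
  simp only [Eig.ci, Eig.cv, Eig.vi, bl, mulVec, dotProduct, mK, Matrix.map_apply, map_sum, map_mul,
    AlgHom.commutes]

omit [CharZero K] in
theorem ci_ne (F : Eig H.pen M) (s : Fin 3 → (M →ₐ[K] E)) (i : Fin 3) : F.ci s i ≠ 0 := by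
  rw [Eig.ci, Ne, map_eq_zero]
  exact F.ne

theorem orth (hd : H.d ≠ 0) (F : Eig H.pen M) {s : Fin 3 → (M →ₐ[K] E)}
    (hs : Function.Injective s) {δ : E} (hδ : δ ^ 2 = algebraMap K E H.d) (i j : Fin 3) :
    cx δ (F.vi s i) ⬝ᵥ ln H 0 δ (F.vi s j) = if i = j then F.ci s i else 0 := by
  split_ifs with hij
  · subst hij
    rw [cx_ln_self H 0 hδ, ci_eq]
  · have h1 : s j F.m * (cx δ (F.vi s i) ⬝ᵥ ln H 0 δ (F.vi s j)) =
        cx δ (F.vi s i) ⬝ᵥ ln H 1 δ (F.vi s j) := by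
      rw [ln_eig hd, dotProduct_smul, smul_eq_mul]
    have hδ' : (-δ) ^ 2 = algebraMap K E H.d := by rw [← hδ]; ring
    have h2 : cx δ (F.vi s i) ⬝ᵥ ln H 1 δ (F.vi s j) =
        s i F.m * (cx δ (F.vi s i) ⬝ᵥ ln H 0 δ (F.vi s j)) := by
      rw [cx_ln H 1 hδ, ln_eig hd, dotProduct_smul, smul_eq_mul, cx_ln H 0 hδ]
    have h3 : (s i F.m - s j F.m) * (cx δ (F.vi s i) ⬝ᵥ ln H 0 δ (F.vi s j)) = 0 := by
      linear_combination -h1 - h2
    refine (mul_eq_zero.1 h3).resolve_left fun h4 => hij ?_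
    exact s_inj F hs (sub_eq_zero.1 h4)

/-- the expansion of `x + δ y` -/
theorem cx_eq (hd : H.d ≠ 0) (hM : Module.finrank K M = 3) (F : Eig H.pen M)
    {s : Fin 3 → (M →ₐ[K] E)} (hs : Function.Injective s) {δ : E}
    (hδ : δ ^ 2 = algebraMap K E H.d) (u : Fin 6 → E) :
    cx δ u = ∑ a, F.zi s δ u a • cx δ (F.vi s a) := by
  have hS : ∀ u : Fin 6 → E, cx δ (mK H.pen.S *ᵥ u) = δ • cx δ u := cx_S H hδ
  conv_lhs => rw [coord (isHer_herm H) hd hM F hs u]
  simp only [Fin.sum_univ_three, cx_add, cx_smul, hS, Eig.zi]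
  module

/-- the expansion of `B j ū` -/
theorem ln_eq (hd : H.d ≠ 0) (hM : Module.finrank K M = 3) (F : Eig H.pen M)
    {s : Fin 3 → (M →ₐ[K] E)} (hs : Function.Injective s) {δ : E}
    (hδ : δ ^ 2 = algebraMap K E H.d) (j : Fin 2) (u : Fin 6 → E) :
    ln H j δ u = ∑ a, F.zi s (-δ) u a • ln H j δ (F.vi s a) := by
  have hS : ∀ u : Fin 6 → E, ln H j δ (mK H.pen.S *ᵥ u) = -δ • ln H j δ u := ln_S H j hδ
  conv_lhs => rw [coord (isHer_herm H) hd hM F hs u]
  simp only [Fin.sum_univ_three, ln_add, ln_smul, hS, Eig.zi]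
  module

/-- the equation of the cone in coordinates -/
theorem star_eq (hd : H.d ≠ 0) (hM : Module.finrank K M = 3) (F : Eig H.pen M)
    {s : Fin 3 → (M →ₐ[K] E)} (hs : Function.Injective s) {δ : E}
    (hδ : δ ^ 2 = algebraMap K E H.d) {w : I8 → E} (hw : w ∈ H.pen.W E) (i : Fin 3) :
    F.zi s (-δ) (pU w) (i + 1) * F.zi s (-δ) (pU w) (i + 2) *
      (s (i + 2) F.m - s (i + 1) F.m) * (Matrix.of fun k => ln H 0 δ (F.vi s k)).det =
      (pL w 0 - pL w 1 * δ) * (F.zi s δ (pU w) i * F.ci s i) := by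
  rw [← cross_id (fun k => ln H 0 δ (F.vi s k)) (fun a => F.zi s (-δ) (pU w) a)
    (fun a => s a F.m) i]
  have h0 : ∀ k, ln H 0 δ (pU w) k = ∑ a, F.zi s (-δ) (pU w) a * ln H 0 δ (F.vi s a) k := by
    intro k
    rw [ln_eq hd hM F hs hδ, Finset.sum_apply]
    rfl
  have h1 : ∀ k, ln H 1 δ (pU w) k =
      ∑ a, F.zi s (-δ) (pU w) a * (s a F.m * ln H 0 δ (F.vi s a) k) := by
    intro k
    rw [ln_eq hd hM F hs hδ, Finset.sum_apply]
    refine Finset.sum_congr rfl fun a _ => ?_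
    rw [ln_eig hd]
    rfl
  have h2 : cx δ (pU w) ⬝ᵥ ln H 0 δ (F.vi s i) = F.zi s δ (pU w) i * F.ci s i := by
    rw [cx_eq hd hM F hs hδ, sum_dotProduct, Finset.sum_eq_single i]
    · rw [smul_dotProduct, smul_eq_mul, orth hd F hs hδ, if_pos rfl]
    · intro a _ ha
      rw [smul_dotProduct, orth hd F hs hδ, if_neg ha, smul_zero]
    · intro hi
      exact absurd (Finset.mem_univ i) hi
  rw [← h2, dotProduct, Finset.mul_sum]
  refine Finset.sum_congr rfl fun k _ => ?_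
  rw [← h0, ← h0, ← h1, ← h1, cone_eq H hδ hw]
  ring

theorem det_ne' (hd : H.d ≠ 0) (F : Eig H.pen M) {s : Fin 3 → (M →ₐ[K] E)}
    (hs : Function.Injective s) {δ : E} (hδ : δ ^ 2 = algebraMap K E H.d) :
    (Matrix.of fun k => ln H 0 δ (F.vi s k)).det ≠ 0 :=
  det_ne (V := fun k => cx δ (F.vi s k)) (fun i => ci_ne F s i) (orth hd F hs hδ)

end Vec

/-! ### Extension of the field -/

section Ext

variable {Ω : Type} [Field Ω] [Algebra K Ω] {E : Type} [Field E] [Algebra K E] [Algebra Ω E]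
  [IsScalarTower K Ω E]

theorem bl_map (M : Matrix (Fin 6) (Fin 6) K) (u v : Fin 6 → Ω) :
    algebraMap Ω E (bl M u v) = bl M (fun i => algebraMap Ω E (u i))
      fun i => algebraMap Ω E (v i) := by
  simp only [bl, mulVec, dotProduct, mK, Matrix.map_apply, map_sum, map_mul,
    ← IsScalarTower.algebraMap_apply]

theorem mK_map (S : Matrix (Fin 6) (Fin 6) K) (u : Fin 6 → Ω) (i : Fin 6) :
    algebraMap Ω E ((mK S *ᵥ u) i) = (mK S *ᵥ fun i => algebraMap Ω E (u i)) i := by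
  simp only [mulVec, dotProduct, mK, Matrix.map_apply, map_sum, map_mul,
    ← IsScalarTower.algebraMap_apply]

theorem W_map (P : Pen K) (w : I8 → Ω) :
    (fun i => algebraMap Ω E (w i)) ∈ P.W E ↔ w ∈ P.W Ω := by
  have hinj := (algebraMap Ω E).injective
  have h1 : ∀ j, bl (P.Q j) (pU fun i => algebraMap Ω E (w i)) (pU fun i => algebraMap Ω E (w i)) =
      algebraMap Ω E (bl (P.Q j) (pU w) (pU w)) := fun j => (bl_map _ _ _).symm
  have h2 : ∀ i, bl (P.P i) (pU fun i => algebraMap Ω E (w i)) (pU fun i => algebraMap Ω E (w i)) =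
      algebraMap Ω E (bl (P.P i) (pU w) (pU w)) := fun j => (bl_map _ _ _).symm
  have h3 : ∀ i, sm P.S (pL (fun i => algebraMap Ω E (w i)) 0)
      (-pL (fun i => algebraMap Ω E (w i)) 1) (pU fun i => algebraMap Ω E (w i)) i =
      algebraMap Ω E (sm P.S (pL w 0) (-pL w 1) (pU w) i) := by
    intro i
    simp only [sm, Pi.add_apply, Pi.smul_apply, smul_eq_mul, map_add, map_mul, map_neg, mK_map]
    rfl
  constructor
  · rintro ⟨hQ, hP⟩
    refine ⟨fun j => hinj ?_, fun i => hinj ?_⟩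
    · rw [← h1, hQ, map_zero]
    · rw [← h2, hP, h3]
  · rintro ⟨hQ, hP⟩
    refine ⟨fun j => ?_, fun i => ?_⟩
    · rw [h1, hQ, map_zero]
    · rw [h2, hP, h3]

/-- In `W` the component in `L` is defined over the field of the component in `U`. -/
theorem W_descend {P : Pen K} (hS : P.S * P.S = P.d • 1) (hd : NSq Ω P.d) {u : Fin 6 → Ω}
    (hu : u ≠ 0) {ξ : Fin 2 → E}
    (h : (Sum.elim ξ (fun i => algebraMap Ω E (u i)) : I8 → E) ∈ P.W E) :
    ∃ η : Fin 2 → Ω, (∀ i, ξ i = algebraMap Ω E (η i)) ∧ (Sum.elim η u : I8 → Ω) ∈ P.W Ω := by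
  obtain ⟨i, k, hD⟩ := exists_minor hS hd hu
  set v := mK P.S *ᵥ u with hv
  have h1 : ∀ i, ξ 0 * algebraMap Ω E (u i) - ξ 1 * algebraMap Ω E (v i) =
      algebraMap Ω E (bl (P.P i) u u) := by
    intro i
    rw [bl_map]
    have h2 := h.2 i
    have h3 : bl (P.P i) (fun i => algebraMap Ω E (u i)) (fun i => algebraMap Ω E (u i)) =
        sm P.S (ξ 0) (-ξ 1) (fun i => algebraMap Ω E (u i)) i := h2
    rw [h3, hv, mK_map]
    simp only [sm, Pi.add_apply, Pi.smul_apply, smul_eq_mul]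
    ring
  have hD' : algebraMap Ω E (u i * v k - u k * v i) ≠ 0 := by
    rw [Ne, map_eq_zero]
    exact hD
  have h4 : ∀ j, ξ j = algebraMap Ω E ((![(bl (P.P i) u u * v k - bl (P.P k) u u * v i) /
      (u i * v k - u k * v i), (bl (P.P i) u u * u k - bl (P.P k) u u * u i) /
      (u i * v k - u k * v i)] : Fin 2 → Ω) j) := by
    intro j
    fin_cases j
    · show ξ 0 = algebraMap Ω E ((bl (P.P i) u u * v k - bl (P.P k) u u * v i) /
        (u i * v k - u k * v i))
      rw [map_div₀, eq_div_iff hD']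
      simp only [map_sub, map_mul, ← h1]
      ring
    · show ξ 1 = algebraMap Ω E ((bl (P.P i) u u * u k - bl (P.P k) u u * u i) /
        (u i * v k - u k * v i))
      rw [map_div₀, eq_div_iff hD']
      simp only [map_sub, map_mul, ← h1]
      ring
  refine ⟨_, h4, ?_⟩
  rw [← W_map (E := E)]
  convert h using 1
  funext j
  rcases j with j | j
  · exact (h4 j).symm
  · rfl

end Ext

/-! ### The map from the cone to the normal cone -/

section Lift

variable [CharZero K] {M : Type} [Field M] [Algebra K M] {Ω : Type} [Field Ω] [Algebra K Ω]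

theorem lift_alg {E : Type} [Field E] [Algebra K E] [IsAlgClosed E] {H : Herm K}
    (hM : Module.finrank K M = 3) {c : M} (F : Fr H.pen M c)
    (hc : c ≠ 0) {n : K} (hn : n ≠ 0) (hd : H.d ≠ 0) {w : I8 → E}
    (hw : w ∈ H.pen.W E) {δ : E} (hδ : δ ^ 2 = algebraMap K E H.d)
    (hξ : pL w 0 + pL w 1 * δ ≠ 0) :
    ∃ ξ : Fin 2 → E, ξ ≠ 0 ∧ (Sum.elim ξ (pU w) : I8 → E) ∈ (F.pen n).W E := by
  obtain ⟨s, hs⟩ := exists_s (M := M) (Ω := E) hM
  have hinj := s_inj F.toEig hs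
  have hδ' : (-δ) ^ 2 = algebraMap K E H.d := by rw [← hδ]; ring
  have hδ0 : δ ≠ 0 := by
    rintro rfl
    apply hd
    apply (algebraMap K E).injective
    rw [← hδ, map_zero]
    ring
  have : CharZero E := charZero_of_injective_algebraMap (algebraMap K E).injective
  set Δp := (Matrix.of fun k => ln H 0 δ (F.vi s k)).det with hΔp
  set Δm := (Matrix.of fun k => ln H 0 (-δ) (F.vi s k)).det with hΔm
  have hp : Δp ≠ 0 := det_ne' hd F.toEig hs hδ
  have hm : Δm ≠ 0 := det_ne' hd F.toEig hs hδ'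
  set D := (s 0 F.m - s 1 F.m) * (s 1 F.m - s 2 F.m) * (s 2 F.m - s 0 F.m) with hDd
  have hD : D ≠ 0 := by
    refine mul_ne_zero (mul_ne_zero ?_ ?_) ?_
    · exact sub_ne_zero.2 fun h => absurd (hinj h) (by decide)
    · exact sub_ne_zero.2 fun h => absurd (hinj h) (by decide)
    · exact sub_ne_zero.2 fun h => absurd (hinj h) (by decide)
  set n' := algebraMap K E n with hn'
  have hn0 : n' ≠ 0 := by
    rw [hn', Ne, map_eq_zero]
    exact hn
  set κ' := algebraMap K E F.κ with hκ'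
  -- `c i e i = κ`
  have hce : ∀ i, s i c * (s i F.pd * F.ci s i) = κ' := by
    intro i
    have h1 := congrArg (s i) F.hκ
    rw [AlgHom.commutes, map_mul, map_mul] at h1
    exact h1.symm
  have hsc : ∀ i, s i c ≠ 0 := by
    intro i
    rw [Ne, map_eq_zero]
    exact hc
  have hDi : ∀ i, (s (i + 2) F.m - s (i + 1) F.m) * s i F.pd = D := by
    intro i
    rw [s_pd hM F.toEig hs, hDd]
    have e1 : (0 : Fin 3) + 1 = 1 := rfl
    have e2 : (0 : Fin 3) + 2 = 2 := rfl
    have e3 : (1 : Fin 3) + 1 = 2 := rfl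
    have e4 : (1 : Fin 3) + 2 = 0 := rfl
    have e5 : (2 : Fin 3) + 1 = 0 := rfl
    have e6 : (2 : Fin 3) + 2 = 1 := rfl
    fin_cases i
    · simp only [Fin.zero_eta, e1, e2]
      ring
    · simp only [Fin.mk_one, e3, e4]
      ring
    · simp only [Fin.reduceFinMk, e5, e6]
      ring
  have hκ0 : κ' ≠ 0 := by
    rw [← hce 0]
    refine mul_ne_zero (hsc 0) (mul_ne_zero ?_ (ci_ne F.toEig s 0))
    intro h
    have h1 := hDi 0
    rw [h, mul_zero] at h1
    exact hD h1.symm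
  -- the equations
  have key : ∀ ε Δ a : E, (∀ i, F.zi s ε (pU w) (i + 1) * F.zi s ε (pU w) (i + 2) *
      (s (i + 2) F.m - s (i + 1) F.m) * Δ = a * (F.zi s (-ε) (pU w) i * F.ci s i)) → Δ ≠ 0 →
      ∀ i, a * κ' / (n' * D * Δ) * F.zi s (-ε) (pU w) i = s i c / n' *
        (F.zi s ε (pU w) (i + 1) * F.zi s ε (pU w) (i + 2)) := by
    intro ε Δ a h hΔ i
    have h1 := h i
    have h2 := ci_ne F.toEig s i
    have h3 := hsc i
    have h4 := hDi i
    have h5 := hce i
    rw [div_mul_eq_mul_div, div_mul_eq_mul_div, div_eq_div_iff (mul_ne_zero (mul_ne_zero hn0 hD) hΔ)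
      hn0, ← h5]
    linear_combination (-(s i c * s i F.pd * n')) * h1 + (s i c * n' *
      (F.zi s ε (pU w) (i + 1) * F.zi s ε (pU w) (i + 2)) * Δ) * h4
  have sp := star_eq hd hM F.toEig hs hδ hw
  have sn := star_eq hd hM F.toEig hs hδ' hw
  rw [← hΔp] at sp
  rw [← hΔm, neg_neg] at sn
  have kp := key (-δ) Δp (pL w 0 - pL w 1 * δ) (by rw [neg_neg]; exact sp) hp
  have km := key δ Δm (pL w 0 - pL w 1 * -δ) sn hm
  rw [neg_neg] at kp
  set Xp := (pL w 0 - pL w 1 * -δ) * κ' / (n' * D * Δm) with hXp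
  set Xm := (pL w 0 - pL w 1 * δ) * κ' / (n' * D * Δp) with hXm
  have hX : Xp ≠ 0 := by
    rw [hXp]
    refine div_ne_zero (mul_ne_zero ?_ hκ0) (mul_ne_zero (mul_ne_zero hn0 hD) hm)
    rwa [mul_neg, sub_neg_eq_add]
  have e1 : (Xp + Xm) / 2 + (Xp - Xm) / (2 * δ) * δ = Xp := by
    field_simp
    ring
  have e2 : (Xp + Xm) / 2 + (Xp - Xm) / (2 * δ) * -δ = Xm := by
    field_simp
    ring
  refine ⟨![(Xp + Xm) / 2, (Xp - Xm) / (2 * δ)], fun h => hX ?_, ?_⟩
  · have h0 : (Xp + Xm) / 2 = 0 := congrFun h 0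
    have h1 : (Xp - Xm) / (2 * δ) = 0 := congrFun h 1
    rw [← e1, h0, h1]
    ring
  · rw [F.mem_W (isHer_herm H) hd hM hn hs]
    refine ⟨hw.1, fun ε hε i => ?_⟩
    simp only [Algebra.algebraMap_self, RingHom.id_apply]
    change ((Xp + Xm) / 2 + (Xp - Xm) / (2 * δ) * ε) * F.zi s (-ε) (pU w) i = s i c / n' *
      (F.zi s ε (pU w) (i + 1) * F.zi s ε (pU w) (i + 2))
    have hε' : ε ^ 2 = algebraMap K E H.d := hε
    have h1 : (ε - δ) * (ε + δ) = 0 := by linear_combination hε' - hδ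
    rcases mul_eq_zero.1 h1 with h2 | h2
    · rw [sub_eq_zero.1 h2, e1]
      exact km i
    · rw [eq_neg_of_add_eq_zero_left h2, e2, neg_neg]
      exact kp i

end Lift

end Pool.Agent.GSQ.XS

namespace Pool.Agent.GSQ

open Pool.Agent.GSQ.XS

variable {K : Type} [Field K] [CharZero K] {M : Type} [Field M] [Algebra K M]
  {Ω : Type} [Field Ω] [Algebra K Ω]

theorem lift_herm (H : GSX.Herm K) (hM : Module.finrank K M = 3) {c : M} (F : Fr H.pen M c)
    (hc : c ≠ 0) {n : K} (hn : n ≠ 0) (hN : Algebra.norm K c = n ^ 2) (hd : NSq Ω H.d)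
    {w : I8 → Ω} (hw : w ∈ H.pen.W Ω) (hL : pL w ≠ 0) (hU : pU w ≠ 0) :
    ∃ ξ : Fin 2 → Ω, ξ ≠ 0 ∧ Sum.elim ξ (pU w) ∈ (F.pen n).W Ω := by
  have hd0 : H.d ≠ 0 := by
    intro h
    apply hd.ne
    rw [h, map_zero]
  obtain ⟨δ, hδ⟩ := IsAlgClosed.exists_pow_nat_eq (algebraMap K (AlgebraicClosure Ω) H.d)
    (n := 2) (by norm_num)
  have hw' : (fun i => algebraMap Ω (AlgebraicClosure Ω) (w i)) ∈
      H.pen.W (AlgebraicClosure Ω) := (W_map H.pen w).2 hw
  have hab : pL w 0 ≠ 0 ∨ pL w 1 ≠ 0 := by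
    by_contra hcon
    push Not at hcon
    apply hL
    funext i
    fin_cases i
    · exact hcon.1
    · exact hcon.2
  have hξ : algebraMap Ω (AlgebraicClosure Ω) (pL w 0) +
      algebraMap Ω (AlgebraicClosure Ω) (pL w 1) * δ ≠ 0 := by
    intro h
    apply hd.norm hab
    apply (algebraMap Ω (AlgebraicClosure Ω)).injective
    rw [map_sub, map_mul, map_pow, map_pow, ← IsScalarTower.algebraMap_apply, ← hδ, map_zero]
    linear_combination (algebraMap Ω (AlgebraicClosure Ω) (pL w 0) -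
      algebraMap Ω (AlgebraicClosure Ω) (pL w 1) * δ) * h
  obtain ⟨ξ, hξ0, hξW⟩ := lift_alg hM F hc hn hd0 hw' hδ hξ
  have hS : (F.pen n).S * (F.pen n).S = (F.pen n).d • 1 := H.isPen.sq
  have hd' : NSq Ω (F.pen n).d := hd
  obtain ⟨η, hη, hηW⟩ := W_descend hS hd' hU hξW
  refine ⟨η, fun h => hξ0 (funext fun i => ?_), hηW⟩
  rw [hη, h, Pi.zero_apply, map_zero, Pi.zero_apply]

end Pool.Agent.GSQ
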