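import Pool.Agent.GSQ.Coord

/-!
# GSQ: the normal cone of a frame

`F` is a frame with the constants `c` in `M` and `n` in `K`, `n ^ 2 = N(c)`. `F.pen n` is the pencil
with the same hermitian forms and the quadratic map `P u = conj((c / n) z^#)` in the coordinates `z`
in `M L` of `u`, where `z^#` has the components `z_j z_k`.
-/

set_option autoImplicit false

noncomputable section

namespace Pool.Agent.GSQ

open Matrix Pool.Agent.GSH

variable {K : Type} [Field K] [CharZero K] {M : Type} [Field M] [Algebra K M] {H : Pen K} {c : M}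

/-- the adjoint of the cubic algebra `M`, polarised: `a^# = ad a a` -/
def ad (a b : M) : M := a * b -
  (algebraMap K M (Algebra.trace K M a) * b + algebraMap K M (Algebra.trace K M b) * a) / 2 +
  algebraMap K M (Algebra.trace K M a * Algebra.trace K M b - Algebra.trace K M (a * b)) / 2

/-- the bilinear map `P` -/
def Fr.Pb (F : Fr H M c) (n : K) (u u' : Fin 6 → K) : Fin 6 → K :=
  F.vec (c / algebraMap K M n * (ad (K := K) (F.aK u) (F.aK u') +
      algebraMap K M H.d * ad (K := K) (F.bK u) (F.bK u')))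
    (-(c / algebraMap K M n) * (ad (K := K) (F.aK u) (F.bK u') + ad (K := K) (F.bK u) (F.aK u')))

/-- the pencil of a frame -/
def Fr.pen (F : Fr H M c) (n : K) : Pen K where
  d := H.d
  S := H.S
  Q := fun j => (1 / 2 : K) • pol H j
  P := fun l => Matrix.of fun i j => F.Pb n (Pi.single i 1) (Pi.single j 1) l

/-! ### The adjoint -/

section ad

omit [CharZero K]

theorem ad_comm (a b : M) : ad (K := K) a b = ad (K := K) b a := by
  unfold ad
  rw [mul_comm a b, mul_comm (Algebra.trace K M a) (Algebra.trace K M b)]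
  ring

theorem ad_add (a b b' : M) : ad (K := K) a (b + b') = ad (K := K) a b + ad (K := K) a b' := by
  unfold ad
  simp only [mul_add, map_add, map_sub]
  ring

theorem ad_mul (k : K) (a b : M) :
    ad (K := K) a (algebraMap K M k * b) = algebraMap K M k * ad (K := K) a b := by
  unfold ad
  have h1 : Algebra.trace K M (algebraMap K M k * b) = k * Algebra.trace K M b := by
    rw [← Algebra.smul_def, map_smul, smul_eq_mul]
  have h2 : Algebra.trace K M (a * (algebraMap K M k * b)) = k * Algebra.trace K M (a * b) := by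
    rw [mul_left_comm, ← Algebra.smul_def, map_smul, smul_eq_mul]
  rw [h1, h2]
  simp only [map_mul, map_sub]
  ring

theorem ad_add' (a a' b : M) : ad (K := K) (a + a') b = ad (K := K) a b + ad (K := K) a' b := by
  rw [ad_comm, ad_add, ad_comm b, ad_comm b]

theorem ad_mul' (k : K) (a b : M) :
    ad (K := K) (algebraMap K M k * a) b = algebraMap K M k * ad (K := K) a b := by
  rw [ad_comm, ad_mul, ad_comm b]

end ad

/-! ### Linearity -/

section lin

variable (E : Eig H M)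

omit [CharZero K] in
theorem vec_add (a b a' b' : M) : E.vec (a + a') (b + b') = E.vec a b + E.vec a' b' := by
  funext l
  simp only [Eig.vec, Pi.add_apply, ← map_add]
  congr 1
  ring

omit [CharZero K] in
theorem vec_mul (k : K) (a b : M) :
    E.vec (algebraMap K M k * a) (algebraMap K M k * b) = k • E.vec a b := by
  funext l
  simp only [Eig.vec, Pi.smul_apply]
  rw [← map_smul, Algebra.smul_def]
  congr 1
  ring

omit [CharZero K] in
theorem vec_S (hH : IsHer H) (a b : M) :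
    H.S *ᵥ E.vec a b = E.vec (algebraMap K M H.d * b) a := by
  funext l
  have h1 : ∀ l, (mK H.S *ᵥ (mK H.S *ᵥ E.v)) l = algebraMap K M H.d * E.v l := by
    intro l
    rw [mK_sq hH.sq]
    rfl
  simp only [Eig.vec, mulVec, dotProduct]
  have h2 : ∀ j, H.S l j * Algebra.trace K M (a * E.v j + b * ∑ k, mK H.S j k * E.v k) =
      Algebra.trace K M (algebraMap K M (H.S l j) * (a * E.v j +
        b * (mK H.S *ᵥ E.v) j)) := by
    intro j
    rw [← Algebra.smul_def, map_smul, smul_eq_mul]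
    rfl
  rw [Finset.sum_congr rfl fun j _ => h2 j, ← map_sum]
  congr 1
  have h3 : algebraMap K M H.d * b * E.v l = b * (mK H.S *ᵥ (mK H.S *ᵥ E.v)) l := by
    rw [h1]
    ring
  rw [h3, mulVec, dotProduct, Finset.mul_sum, Finset.mul_sum, ← Finset.sum_add_distrib]
  refine Finset.sum_congr rfl fun j _ => ?_
  simp only [mK, Matrix.map_apply]
  ring

omit [CharZero K] in
theorem vK_add {n : Type} (x y : n → K) : (vK (x + y) : n → M) = vK x + vK y := by
  funext i
  simp only [vK, Pi.add_apply, map_add]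

omit [CharZero K] in
theorem vK_smul {n : Type} (k : K) (x : n → K) :
    (vK (k • x) : n → M) = algebraMap K M k • vK x := by
  funext i
  simp only [vK, Pi.smul_apply, smul_eq_mul, map_mul]

omit [CharZero K] in
theorem aK_add (u u' : Fin 6 → K) : E.aK (u + u') = E.aK u + E.aK u' := by
  unfold Eig.aK
  rw [vK_add, bl_add_right]
  ring

omit [CharZero K] in
theorem aK_smul (k : K) (u : Fin 6 → K) : E.aK (k • u) = algebraMap K M k * E.aK u := by
  unfold Eig.aK
  rw [vK_smul, bl_smul_right]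
  ring

omit [CharZero K] in
theorem bK_add (u u' : Fin 6 → K) : E.bK (u + u') = E.bK u + E.bK u' := by
  unfold Eig.bK
  rw [mulVec_add, aK_add]
  ring

omit [CharZero K] in
theorem bK_smul (k : K) (u : Fin 6 → K) : E.bK (k • u) = algebraMap K M k * E.bK u := by
  unfold Eig.bK
  rw [mulVec_smul, aK_smul]
  ring

omit [CharZero K] in
theorem aK_S (hd : H.d ≠ 0) (u : Fin 6 → K) :
    E.aK (H.S *ᵥ u) = algebraMap K M H.d * E.bK u := by
  unfold Eig.bK
  have h1 : algebraMap K M H.d ≠ 0 := by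
    rwa [Ne, map_eq_zero]
  field_simp

omit [CharZero K] in
theorem bK_S (hH : IsHer H) (hd : H.d ≠ 0) (u : Fin 6 → K) : E.bK (H.S *ᵥ u) = E.aK u := by
  unfold Eig.bK
  have h1 : algebraMap K M H.d ≠ 0 := by
    rwa [Ne, map_eq_zero]
  rw [mulVec_mulVec, hH.sq, smul_mulVec, one_mulVec, aK_smul]
  field_simp

end lin

section Pb

variable (F : Fr H M c) (n : K)

omit [CharZero K] in
theorem Pb_comm (u u' : Fin 6 → K) : F.Pb n u u' = F.Pb n u' u := by
  unfold Fr.Pb
  rw [ad_comm (F.aK u') (F.aK u), ad_comm (F.bK u') (F.bK u), ad_comm (F.aK u') (F.bK u),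
    ad_comm (F.bK u') (F.aK u)]
  congr 2
  ring

omit [CharZero K] in
theorem Pb_add (u u' u'' : Fin 6 → K) : F.Pb n u (u' + u'') = F.Pb n u u' + F.Pb n u u'' := by
  unfold Fr.Pb
  rw [aK_add, bK_add, ad_add, ad_add, ad_add, ad_add, ← vec_add]
  congr 1 <;> ring

omit [CharZero K] in
theorem Pb_smul (k : K) (u u' : Fin 6 → K) : F.Pb n u (k • u') = k • F.Pb n u u' := by
  unfold Fr.Pb
  rw [aK_smul, bK_smul, ad_mul, ad_mul, ad_mul, ad_mul, ← vec_mul]
  congr 1 <;> ring

omit [CharZero K] in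
theorem Pb_sum {ι : Type} (s : Finset ι) (x : ι → K) (y : ι → Fin 6 → K) (u : Fin 6 → K) :
    F.Pb n u (∑ i ∈ s, x i • y i) = ∑ i ∈ s, x i • F.Pb n u (y i) := by
  classical
  induction s using Finset.induction_on with
  | empty =>
    rw [Finset.sum_empty, Finset.sum_empty]
    have h1 := Pb_smul F n 0 u 0
    rwa [zero_smul, zero_smul] at h1
  | insert a s ha ih =>
    rw [Finset.sum_insert ha, Finset.sum_insert ha, Pb_add, Pb_smul, ih]

omit [CharZero K] in
theorem Pb_S (hH : IsHer H) (hd : H.d ≠ 0) (u u' : Fin 6 → K) :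
    F.Pb n u (H.S *ᵥ u') = (-1 : K) • (H.S *ᵥ F.Pb n u u') := by
  unfold Fr.Pb
  rw [vec_S _ hH, aK_S _ hd, bK_S _ hH hd, ad_mul, ad_mul, ← vec_mul]
  congr 1
  · rw [map_neg, map_one]
    ring
  · rw [map_neg, map_one]
    ring

end Pb

theorem Fr.isPen (hH : IsHer H) (hd : H.d ≠ 0) (hM : Module.finrank K M = 3) (F : Fr H M c)
    (n : K) : (F.pen n).IsPen := by
  have hcol : ∀ j : Fin 6, H.S *ᵥ (Pi.single j 1) = ∑ k, H.S k j • (Pi.single k (1 : K)) := by
    intro j
    funext l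
    rw [Matrix.mulVec_single_one, Finset.sum_apply, Finset.sum_eq_single l]
    · rw [Pi.smul_apply, Pi.single_eq_same, smul_eq_mul, mul_one]
      rfl
    · intro k _ hk
      rw [Pi.smul_apply, Pi.single_eq_of_ne (Ne.symm hk), smul_zero]
    · intro h
      exact absurd (Finset.mem_univ _) h
  have hP : ∀ (i j : Fin 6) (l : Fin 6), ∑ k, F.Pb n (Pi.single i 1) (Pi.single k 1) l * H.S k j =
      -∑ k, H.S l k * F.Pb n (Pi.single i 1) (Pi.single j 1) k := by
    intro i j l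
    have h1 := congrFun (Pb_S F n hH hd (Pi.single i 1) (Pi.single j 1)) l
    rw [hcol, Pb_sum, Finset.sum_apply] at h1
    simp only [Pi.smul_apply, smul_eq_mul] at h1
    rw [Finset.sum_congr rfl fun k _ => mul_comm _ (H.S k j), h1, mulVec, dotProduct]
    ring
  refine ⟨hH.sq, fun j => ?_, fun j => ?_, fun l => ?_, fun l => ?_⟩
  · change ((1 / 2 : K) • pol H j)ᵀ = (1 / 2 : K) • pol H j
    rw [Matrix.transpose_smul]
    congr 1
    unfold pol
    rw [Matrix.transpose_add, Matrix.transpose_transpose, add_comm]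
  · change H.Sᵀ * ((1 / 2 : K) • pol H j) + ((1 / 2 : K) • pol H j) * H.S = 0
    rw [Matrix.mul_smul, Matrix.smul_mul, ← smul_add, hH.her, smul_zero]
  · ext i j
    change F.Pb n (Pi.single j 1) (Pi.single i 1) l = F.Pb n (Pi.single i 1) (Pi.single j 1) l
    rw [Pb_comm]
  · ext i j
    rw [Matrix.add_apply, Matrix.mul_apply, Matrix.mul_apply, Matrix.sum_apply]
    change ∑ k, H.S k i * F.Pb n (Pi.single k 1) (Pi.single j 1) l +
      ∑ k, F.Pb n (Pi.single i 1) (Pi.single k 1) l * H.S k j =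
      ∑ k, (-2 * H.S l k) * F.Pb n (Pi.single i 1) (Pi.single j 1) k
    rw [hP]
    have h1 : ∑ k, H.S k i * F.Pb n (Pi.single k 1) (Pi.single j 1) l =
        ∑ k, F.Pb n (Pi.single j 1) (Pi.single k 1) l * H.S k i := by
      refine Finset.sum_congr rfl fun k _ => ?_
      rw [Pb_comm, mul_comm]
    rw [h1, hP, Pb_comm F n (Pi.single j 1) (Pi.single i 1), ← Finset.sum_neg_distrib,
      ← Finset.sum_add_distrib]
    refine Finset.sum_congr rfl fun k _ => ?_
    ring

variable {Ω : Type} [Field Ω] [Algebra K Ω]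

theorem Fr.pen_Q (F : Fr H M c) (n : K) (j : Fin 2) (u : Fin 6 → Ω) :
    bl ((F.pen n).Q j) u u = bl (H.Q j) u u := by
  change bl ((1 / 2 : K) • pol H j) u u = _
  have h1 : bl (H.Q j)ᵀ u u = bl (H.Q j) u u := by
    unfold bl
    have h7 : (mK (H.Q j)ᵀ : Matrix (Fin 6) (Fin 6) Ω) = (mK (H.Q j))ᵀ := rfl
    rw [h7, mulVec_transpose, dotProduct_comm, dotProduct_mulVec]
  have h2 : (algebraMap K Ω) 2 ≠ 0 := by
    rw [Ne, map_eq_zero]
    exact two_ne_zero
  rw [bl_smul_mat]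
  unfold pol
  rw [bl_add_mat, h1, map_div₀, map_one]
  have h3 : algebraMap K Ω 2 = 2 := map_ofNat _ 2
  rw [h3] at h2 ⊢
  field_simp
  ring

section cone

variable {Ω' : Type} [Field Ω'] [Algebra K Ω'] {s : Fin 3 → (M →ₐ[K] Ω')}

theorem s_ad [IsAlgClosed Ω'] (hM : Module.finrank K M = 3) (hs : Function.Injective s)
    (x y : M) (i : Fin 3) : s i (ad (K := K) x y) =
      (s (i + 1) x * s (i + 2) y + s (i + 2) x * s (i + 1) y) / 2 := by
  have : CharZero Ω' := charZero_of_injective_algebraMap (algebraMap K Ω').injective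
  unfold ad
  simp only [map_add, map_sub, map_mul, map_div₀, map_ofNat, AlgHom.commutes, tr_eq hM hs,
    Fin.sum_univ_three]
  fin_cases i
  · change s 0 x * s 0 y - _ / 2 + _ / 2 = (s 1 x * s 2 y + s 2 x * s 1 y) / 2
    simp only [Fin.zero_eta, Fin.isValue]
    ring
  · change s 1 x * s 1 y - _ / 2 + _ / 2 = (s 2 x * s 0 y + s 0 x * s 2 y) / 2
    simp only [Fin.mk_one, Fin.isValue]
    ring
  · change s 2 x * s 2 y - _ / 2 + _ / 2 = (s 0 x * s 1 y + s 1 x * s 0 y) / 2
    simp only [Fin.reduceFinMk, Fin.isValue]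
    ring

variable (E : Eig H M)

omit [CharZero K] in
theorem ai_add (u u' : Fin 6 → Ω') (i : Fin 3) :
    E.ai s (u + u') i = E.ai s u i + E.ai s u' i := by
  unfold Eig.ai
  rw [bl_add_right, add_div]

omit [CharZero K] in
theorem ai_smul (k : Ω') (u : Fin 6 → Ω') (i : Fin 3) :
    E.ai s (k • u) i = k * E.ai s u i := by
  unfold Eig.ai
  rw [bl_smul_right, mul_div_assoc]

omit [CharZero K] in
theorem bi_add (u u' : Fin 6 → Ω') (i : Fin 3) :
    E.bi s (u + u') i = E.bi s u i + E.bi s u' i := by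
  unfold Eig.bi
  rw [mulVec_add, ai_add, add_div]

omit [CharZero K] in
theorem bi_smul (k : Ω') (u : Fin 6 → Ω') (i : Fin 3) :
    E.bi s (k • u) i = k * E.bi s u i := by
  unfold Eig.bi
  rw [mulVec_smul, ai_smul, mul_div_assoc]

omit [CharZero K] in
theorem ai_fsum (t : Finset (Fin 6)) (x : Fin 6 → Ω') (y : Fin 6 → Fin 6 → Ω') (i : Fin 3) :
    E.ai s (∑ j ∈ t, x j • y j) i = ∑ j ∈ t, x j * E.ai s (y j) i := by
  induction t using Finset.induction_on with
  | empty =>
    rw [Finset.sum_empty, Finset.sum_empty]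
    have h1 := ai_smul (s := s) E 0 0 i
    rwa [zero_smul, zero_mul] at h1
  | insert a t ha ih => rw [Finset.sum_insert ha, Finset.sum_insert ha, ai_add, ai_smul, ih]

omit [CharZero K] in
theorem bi_fsum (t : Finset (Fin 6)) (x : Fin 6 → Ω') (y : Fin 6 → Fin 6 → Ω') (i : Fin 3) :
    E.bi s (∑ j ∈ t, x j • y j) i = ∑ j ∈ t, x j * E.bi s (y j) i := by
  induction t using Finset.induction_on with
  | empty =>
    rw [Finset.sum_empty, Finset.sum_empty]
    have h1 := bi_smul (s := s) E 0 0 i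
    rwa [zero_smul, zero_mul] at h1
  | insert a t ha ih => rw [Finset.sum_insert ha, Finset.sum_insert ha, bi_add, bi_smul, ih]

omit [CharZero K] in
theorem sum_single (u : Fin 6 → Ω') :
    u = ∑ j, u j • (vK (Pi.single j (1 : K)) : Fin 6 → Ω') := by
  funext l
  rw [Finset.sum_apply, Finset.sum_eq_single l]
  · simp only [Pi.smul_apply, vK, Pi.single_eq_same, map_one, smul_eq_mul, mul_one]
  · intro k _ hk
    simp only [Pi.smul_apply, vK, Pi.single_eq_of_ne (Ne.symm hk), map_zero, smul_zero]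
  · intro h
    exact absurd (Finset.mem_univ _) h

omit [CharZero K] in
theorem ai_sum (u : Fin 6 → Ω') (i : Fin 3) :
    E.ai s u i = ∑ j, u j * E.ai s (vK (Pi.single j (1 : K))) i := by
  conv_lhs => rw [sum_single (K := K) u]
  exact ai_fsum E _ _ _ i

omit [CharZero K] in
theorem bi_sum (u : Fin 6 → Ω') (i : Fin 3) :
    E.bi s u i = ∑ j, u j * E.bi s (vK (Pi.single j (1 : K))) i := by
  conv_lhs => rw [sum_single (K := K) u]
  exact bi_fsum E _ _ _ i

omit [CharZero K] in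
theorem ai_S (hd : H.d ≠ 0) (u : Fin 6 → Ω') (i : Fin 3) :
    E.ai s (mK H.S *ᵥ u) i = algebraMap K Ω' H.d * E.bi s u i := by
  unfold Eig.bi
  have h1 : algebraMap K Ω' H.d ≠ 0 := by
    rwa [Ne, map_eq_zero]
  field_simp

omit [CharZero K] in
theorem bi_S (hH : IsHer H) (hd : H.d ≠ 0) (u : Fin 6 → Ω') (i : Fin 3) :
    E.bi s (mK H.S *ᵥ u) i = E.ai s u i := by
  unfold Eig.bi
  have h1 : algebraMap K Ω' H.d ≠ 0 := by
    rwa [Ne, map_eq_zero]
  rw [mK_sq hH.sq, ai_smul]
  field_simp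

omit [CharZero K] [Algebra K Ω'] in
/-- the double sum -/
theorem dsum (x y u : Fin 6 → Ω') :
    ∑ j, ∑ k, u j * u k * (x j * y k) = (∑ j, u j * x j) * ∑ k, u k * y k := by
  rw [Finset.sum_mul_sum]
  exact Finset.sum_congr rfl fun j _ => Finset.sum_congr rfl fun k _ => by ring

omit [CharZero K] [Algebra K Ω'] in
theorem dsumA (h2 : (2 : Ω') ≠ 0) (x₁ x₂ y₁ y₂ u : Fin 6 → Ω') (γ d : Ω') :
    ∑ j, ∑ k, u j * u k * (γ * ((x₁ j * x₂ k + x₂ j * x₁ k) / 2 +
      d * ((y₁ j * y₂ k + y₂ j * y₁ k) / 2))) =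
    γ * ((∑ j, u j * x₁ j) * (∑ j, u j * x₂ j) + d * ((∑ j, u j * y₁ j) * ∑ j, u j * y₂ j)) := by
  have h1 : γ * ((∑ j, u j * x₁ j) * (∑ j, u j * x₂ j) +
      d * ((∑ j, u j * y₁ j) * ∑ j, u j * y₂ j)) =
      γ / 2 * ((∑ j, u j * x₁ j) * ∑ j, u j * x₂ j) + γ / 2 * ((∑ j, u j * x₂ j) *
        ∑ j, u j * x₁ j) + (γ * d / 2 * ((∑ j, u j * y₁ j) * ∑ j, u j * y₂ j) +
        γ * d / 2 * ((∑ j, u j * y₂ j) * ∑ j, u j * y₁ j)) := by
    field_simp
    ring
  rw [h1, ← dsum x₁ x₂ u, ← dsum x₂ x₁ u, ← dsum y₁ y₂ u, ← dsum y₂ y₁ u]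
  simp only [Finset.mul_sum, ← Finset.sum_add_distrib]
  exact Finset.sum_congr rfl fun j _ => Finset.sum_congr rfl fun k _ => by ring

omit [CharZero K] [Algebra K Ω'] in
theorem dsumB (h2 : (2 : Ω') ≠ 0) (x₁ x₂ y₁ y₂ u : Fin 6 → Ω') (γ : Ω') :
    ∑ j, ∑ k, u j * u k * (γ * ((x₁ j * y₂ k + x₂ j * y₁ k) / 2 +
      (y₁ j * x₂ k + y₂ j * x₁ k) / 2)) =
    γ * ((∑ j, u j * x₁ j) * (∑ j, u j * y₂ j) + (∑ j, u j * y₁ j) * ∑ j, u j * x₂ j) := by
  have h1 : γ * ((∑ j, u j * x₁ j) * (∑ j, u j * y₂ j) +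
      (∑ j, u j * y₁ j) * ∑ j, u j * x₂ j) =
      γ / 2 * ((∑ j, u j * x₁ j) * ∑ j, u j * y₂ j) + γ / 2 * ((∑ j, u j * x₂ j) *
        ∑ j, u j * y₁ j) + (γ / 2 * ((∑ j, u j * y₁ j) * ∑ j, u j * x₂ j) +
        γ / 2 * ((∑ j, u j * y₂ j) * ∑ j, u j * x₁ j)) := by
    field_simp
    ring
  rw [h1, ← dsum x₁ y₂ u, ← dsum x₂ y₁ u, ← dsum y₁ x₂ u, ← dsum y₂ x₁ u]
  simp only [Finset.mul_sum, ← Finset.sum_add_distrib]
  exact Finset.sum_congr rfl fun j _ => Finset.sum_congr rfl fun k _ => by ring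

variable (F : Fr H M c) (n : K)

/-- the components of the quadratic map -/
theorem bl_P [IsAlgClosed Ω'] (hH : IsHer H) (hd : H.d ≠ 0) (hM : Module.finrank K M = 3)
    (hs : Function.Injective s) (u : Fin 6 → Ω') (l : Fin 6) : bl ((F.pen n).P l) u u =
      (∑ i, ((s i c / algebraMap K Ω' n * (F.ai s u (i + 1) * F.ai s u (i + 2) +
        algebraMap K Ω' H.d * (F.bi s u (i + 1) * F.bi s u (i + 2)))) • F.vi s i +
        (-(s i c / algebraMap K Ω' n) * (F.ai s u (i + 1) * F.bi s u (i + 2) +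
        F.bi s u (i + 1) * F.ai s u (i + 2))) • (mK H.S *ᵥ F.vi s i)) : Fin 6 → Ω') l := by
  have : CharZero Ω' := charZero_of_injective_algebraMap (algebraMap K Ω').injective
  have h2 : (2 : Ω') ≠ 0 := two_ne_zero
  set e : Fin 6 → Fin 6 → K := fun j => Pi.single j 1 with he
  have hP : ∀ j k, algebraMap K Ω' (F.Pb n (e j) (e k) l) = ∑ i,
      ((s i c / algebraMap K Ω' n * ((F.ai s (vK (e j)) (i + 1) * F.ai s (vK (e k)) (i + 2) +
        F.ai s (vK (e j)) (i + 2) * F.ai s (vK (e k)) (i + 1)) / 2 + algebraMap K Ω' H.d *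
        ((F.bi s (vK (e j)) (i + 1) * F.bi s (vK (e k)) (i + 2) +
        F.bi s (vK (e j)) (i + 2) * F.bi s (vK (e k)) (i + 1)) / 2))) * F.vi s i l +
      (-(s i c / algebraMap K Ω' n) * ((F.ai s (vK (e j)) (i + 1) * F.bi s (vK (e k)) (i + 2) +
        F.ai s (vK (e j)) (i + 2) * F.bi s (vK (e k)) (i + 1)) / 2 +
        (F.bi s (vK (e j)) (i + 1) * F.ai s (vK (e k)) (i + 2) +
        F.bi s (vK (e j)) (i + 2) * F.ai s (vK (e k)) (i + 1)) / 2)) *
        (mK H.S *ᵥ F.vi s i) l) := by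
    intro j k
    have h3 := congrFun (vec_eq (Ω := Ω') (s := s) hH hd hM F.toEig hs
      (c / algebraMap K M n * (ad (K := K) (F.aK (e j)) (F.aK (e k)) +
      algebraMap K M H.d * ad (K := K) (F.bK (e j)) (F.bK (e k))))
      (-(c / algebraMap K M n) * (ad (K := K) (F.aK (e j)) (F.bK (e k)) +
        ad (K := K) (F.bK (e j)) (F.aK (e k))))) l
    have h4 : (vK (F.Pb n (e j) (e k)) : Fin 6 → Ω') l = algebraMap K Ω' (F.Pb n (e j) (e k) l) :=
      rfl
    rw [← h4]
    unfold Fr.Pb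
    rw [h3, Finset.sum_apply]
    refine Finset.sum_congr rfl fun i _ => ?_
    simp only [Pi.add_apply, Pi.smul_apply, smul_eq_mul, map_mul, map_add, map_neg, map_div₀,
      AlgHom.commutes, s_ad hM hs, s_aK, s_bK]
  have h5 : bl ((F.pen n).P l) u u = ∑ j, ∑ k, u j * u k *
      algebraMap K Ω' (F.Pb n (e j) (e k) l) := by
    unfold bl
    simp only [dotProduct, mulVec, Finset.mul_sum]
    refine Finset.sum_congr rfl fun j _ => Finset.sum_congr rfl fun k _ => ?_
    change u j * (algebraMap K Ω' (F.Pb n (e j) (e k) l) * u k) = _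
    ring
  rw [h5, Finset.sum_apply]
  simp only [hP, Finset.mul_sum]
  rw [Finset.sum_congr rfl fun j _ => Finset.sum_comm, Finset.sum_comm]
  refine Finset.sum_congr rfl fun i _ => ?_
  have h6 := dsumA h2 (fun j => F.ai s (vK (e j)) (i + 1)) (fun j => F.ai s (vK (e j)) (i + 2))
    (fun j => F.bi s (vK (e j)) (i + 1)) (fun j => F.bi s (vK (e j)) (i + 2)) u
    (s i c / algebraMap K Ω' n) (algebraMap K Ω' H.d)
  have h7 := dsumB h2 (fun j => F.ai s (vK (e j)) (i + 1)) (fun j => F.ai s (vK (e j)) (i + 2))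
    (fun j => F.bi s (vK (e j)) (i + 1)) (fun j => F.bi s (vK (e j)) (i + 2)) u
    (-(s i c / algebraMap K Ω' n))
  simp only [he, ← ai_sum, ← bi_sum] at h6 h7
  rw [Pi.add_apply, Pi.smul_apply, Pi.smul_apply, smul_eq_mul, smul_eq_mul, ← h6, ← h7]
  simp only [Finset.sum_mul, ← Finset.sum_add_distrib]
  exact Finset.sum_congr rfl fun j _ => Finset.sum_congr rfl fun k _ => by ring

end cone

/-- the cone `W` in coordinates -/
theorem Fr.mem_W (hH : IsHer H) (hd : H.d ≠ 0) (hM : Module.finrank K M = 3) (F : Fr H M c)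
    {n : K} (hn : n ≠ 0) {Ω' : Type} [Field Ω'] [Algebra K Ω'] [Algebra Ω Ω']
    [IsScalarTower K Ω Ω'] [IsAlgClosed Ω'] {s : Fin 3 → (M →ₐ[K] Ω')}
    (hs : Function.Injective s) (w : I8 → Ω) :
    w ∈ (F.pen n).W Ω ↔ (∀ j, bl (H.Q j) (pU w) (pU w) = 0) ∧
      ∀ δ : Ω', δ ^ 2 = algebraMap K Ω' H.d → ∀ i : Fin 3,
        (algebraMap Ω Ω' (pL w 0) + algebraMap Ω Ω' (pL w 1) * δ) *
          F.zi s (-δ) (fun l => algebraMap Ω Ω' (pU w l)) i =
        s i c / algebraMap K Ω' n *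
          (F.zi s δ (fun l => algebraMap Ω Ω' (pU w l)) (i + 1) *
            F.zi s δ (fun l => algebraMap Ω Ω' (pU w l)) (i + 2)) := by
  have hch : CharZero Ω' := charZero_of_injective_algebraMap (algebraMap K Ω').injective
  have h2 : (2 : Ω') ≠ 0 := two_ne_zero
  have hinj := (algebraMap Ω Ω').injective
  set U : Fin 6 → Ω' := fun l => algebraMap Ω Ω' (pU w l) with hU
  set ξ₀ := algebraMap Ω Ω' (pL w 0) with hξ₀
  set ξ₁ := algebraMap Ω Ω' (pL w 1) with hξ₁
  set A : Fin 3 → Ω' := fun i => s i c / algebraMap K Ω' n * (F.ai s U (i + 1) * F.ai s U (i + 2) +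
        algebraMap K Ω' H.d * (F.bi s U (i + 1) * F.bi s U (i + 2))) with hA
  set B : Fin 3 → Ω' := fun i => -(s i c / algebraMap K Ω' n) *
        (F.ai s U (i + 1) * F.bi s U (i + 2) + F.bi s U (i + 1) * F.ai s U (i + 2)) with hB
  have hS : ∀ i, algebraMap Ω Ω' ((mK H.S *ᵥ pU w) i) = (mK H.S *ᵥ U) i := by
    intro i
    simp only [mulVec, dotProduct, mK, Matrix.map_apply, map_sum, map_mul,
      ← IsScalarTower.algebraMap_apply K Ω Ω', hU]
  have hmap : ∀ Q : Matrix (Fin 6) (Fin 6) K,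
      algebraMap Ω Ω' (bl Q (pU w) (pU w)) = bl Q U U := by
    intro Q
    simp only [bl, mulVec, dotProduct, mK, Matrix.map_apply, map_sum, map_mul,
      ← IsScalarTower.algebraMap_apply K Ω Ω', hU]
  have hsm : ∀ l, algebraMap Ω Ω' (sm H.S (pL w 0) (-pL w 1) (pU w) l) =
      (ξ₀ • U + (-ξ₁) • (mK H.S *ᵥ U)) l := by
    intro l
    simp only [sm, Pi.add_apply, Pi.smul_apply, smul_eq_mul, map_add, map_mul, map_neg, hS]
    rfl
  have hblP : ∀ l, algebraMap Ω Ω' (bl ((F.pen n).P l) (pU w) (pU w)) =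
      (∑ i, (A i • F.vi s i + B i • (mK H.S *ᵥ F.vi s i)) : Fin 6 → Ω') l := by
    intro l
    rw [hmap, bl_P F n hH hd hM hs]
  -- the coordinates of the right side
  have hax : ∀ i, F.ai s (ξ₀ • U + (-ξ₁) • (mK H.S *ᵥ U)) i =
      ξ₀ * F.ai s U i - ξ₁ * (algebraMap K Ω' H.d * F.bi s U i) := by
    intro i
    rw [ai_add, ai_smul, ai_smul, ai_S _ hd]
    ring
  have hbx : ∀ i, F.bi s (ξ₀ • U + (-ξ₁) • (mK H.S *ᵥ U)) i =
      ξ₀ * F.bi s U i - ξ₁ * F.ai s U i := by
    intro i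
    rw [bi_add, bi_smul, bi_smul, bi_S _ hH hd]
    ring
  refine and_congr (forall_congr' fun j => by rw [Fr.pen_Q]) ?_
  constructor
  · intro h δ hδ i
    have hv : (∑ i, (A i • F.vi s i + B i • (mK H.S *ᵥ F.vi s i)) : Fin 6 → Ω') =
        ξ₀ • U + (-ξ₁) • (mK H.S *ᵥ U) := by
      funext l
      rw [← hblP, ← hsm, h l]
      rfl
    have ha := congrArg (fun x => F.ai s x i) hv
    have hb := congrArg (fun x => F.bi s x i) hv
    simp only [ai_comb hH hd hM F.toEig hs, bi_comb hH hd hM F.toEig hs, hax, hbx] at ha hb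
    simp only [hA, hB] at ha hb
    unfold Eig.zi
    linear_combination -ha + δ * hb + (-ξ₁ * F.bi s U i - s i c / algebraMap K Ω' n *
      (F.bi s U (i + 1) * F.bi s U (i + 2))) * hδ
  · intro h l
    obtain ⟨δ, hδ⟩ := IsAlgClosed.exists_pow_nat_eq (algebraMap K Ω' H.d) (n := 2) (by norm_num)
    have hδ0 : δ ≠ 0 := by
      rintro rfl
      apply hd
      rw [zero_pow two_ne_zero] at hδ
      exact (map_eq_zero _).1 hδ.symm
    have hA' : ∀ i, A i = ξ₀ * F.ai s U i - ξ₁ * (algebraMap K Ω' H.d * F.bi s U i) := by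
      intro i
      have e1 := h δ hδ i
      have e2 := h (-δ) (by rw [neg_sq, hδ]) i
      unfold Eig.zi at e1 e2
      apply mul_left_cancel₀ h2
      simp only [hA]
      linear_combination -e1 - e2 - 2 * (ξ₁ * F.bi s U i + s i c / algebraMap K Ω' n *
        (F.bi s U (i + 1) * F.bi s U (i + 2))) * hδ
    have hB' : ∀ i, B i = ξ₀ * F.bi s U i - ξ₁ * F.ai s U i := by
      intro i
      have e1 := h δ hδ i
      have e2 := h (-δ) (by rw [neg_sq, hδ]) i
      unfold Eig.zi at e1 e2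
      apply mul_left_cancel₀ (mul_ne_zero h2 hδ0)
      simp only [hB]
      linear_combination e1 - e2
    apply hinj
    change algebraMap Ω Ω' (bl ((F.pen n).P l) (pU w) (pU w)) =
      algebraMap Ω Ω' (sm H.S (pL w 0) (-pL w 1) (pU w) l)
    rw [hblP, hsm, coord hH hd hM F.toEig hs (ξ₀ • U + (-ξ₁) • (mK H.S *ᵥ U))]
    simp only [hax, hbx, hA', hB']

end Pool.Agent.GSQ
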