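import Mathlib

set_option autoImplicit false

/-!
# GSQ: frames of eigenvectors over a field

`E` a field, `S` a `6 × 6` matrix with `S ^ 2 = d ≠ 0`, `Q 0`, `Q 1` symmetric with
`Sᵀ Q j + Q j S = 0`; `v 0, v 1, v 2` vectors with `Q 1 v i = m i Q 0 v i`, the `m i` different, and
`c i = v iᵀ Q 0 v i ≠ 0`. Then `v i`, `S v i` are a basis of `E ^ 6`, orthogonal for `Q 0` and `Q 1`.

`ca`, `cb`: the coordinates. `coord`: the expansion of a vector. `Q_coord`: the value of `Q j`.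
-/

noncomputable section

namespace Pool.Agent.GSQ

open Matrix

/-- The frame of eigenvectors of a pencil. -/
structure Frame (E : Type) [Field E] where
  /-- `L = E(√d)` -/
  d : E
  /-- multiplication by `√d` -/
  S : Matrix (Fin 6) (Fin 6) E
  /-- the first form -/
  Q0 : Matrix (Fin 6) (Fin 6) E
  /-- the second form -/
  Q1 : Matrix (Fin 6) (Fin 6) E
  /-- the eigenvalues -/
  m : Fin 3 → E
  /-- the eigenvectors -/
  v : Fin 3 → Fin 6 → E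
  hd : d ≠ 0
  sq : S * S = d • 1
  sym0 : Q0ᵀ = Q0
  sym1 : Q1ᵀ = Q1
  her0 : Sᵀ * Q0 + Q0 * S = 0
  her1 : Sᵀ * Q1 + Q1 * S = 0
  inj : Function.Injective m
  eig : ∀ i, Q1 *ᵥ v i = m i • (Q0 *ᵥ v i)
  ne : ∀ i, v i ⬝ᵥ (Q0 *ᵥ v i) ≠ 0

variable {E : Type} [Field E] (f : Frame E)

namespace Frame

/-- `c i = Q 0 (v i)` -/
def c (i : Fin 3) : E := f.v i ⬝ᵥ (f.Q0 *ᵥ f.v i)

/-- the coordinates at `v i` -/
def ca (u : Fin 6 → E) (i : Fin 3) : E := f.v i ⬝ᵥ (f.Q0 *ᵥ u) / f.c i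

/-- the coordinates at `S v i` -/
def cb (u : Fin 6 → E) (i : Fin 3) : E :=
  -((f.S *ᵥ f.v i) ⬝ᵥ (f.Q0 *ᵥ u)) / (f.d * f.c i)

theorem c_ne (i : Fin 3) : f.c i ≠ 0 := f.ne i

theorem sym_dot {Q : Matrix (Fin 6) (Fin 6) E} (h : Qᵀ = Q) (x y : Fin 6 → E) :
    x ⬝ᵥ (Q *ᵥ y) = y ⬝ᵥ (Q *ᵥ x) := by
  rw [dotProduct_mulVec, ← mulVec_transpose, h, dotProduct_comm]

theorem her_dot {Q : Matrix (Fin 6) (Fin 6) E} (h : f.Sᵀ * Q + Q * f.S = 0) (x y : Fin 6 → E) :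
    (f.S *ᵥ x) ⬝ᵥ (Q *ᵥ y) = -(x ⬝ᵥ (Q *ᵥ (f.S *ᵥ y))) := by
  have h1 : f.Sᵀ * Q = -(Q * f.S) := eq_neg_of_add_eq_zero_left h
  have h2 : (f.S *ᵥ x) ⬝ᵥ (Q *ᵥ y) = x ⬝ᵥ ((f.Sᵀ * Q) *ᵥ y) := by
    rw [← mulVec_mulVec, dotProduct_mulVec x, ← mulVec_transpose, transpose_transpose]
  rw [h2, h1, neg_mulVec, dotProduct_neg, mulVec_mulVec]

theorem S_S (x : Fin 6 → E) : f.S *ᵥ (f.S *ᵥ x) = f.d • x := by
  rw [mulVec_mulVec, f.sq, smul_mulVec, one_mulVec]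

/-- `S v i` is an eigenvector -/
theorem eigS (i : Fin 3) : f.Q1 *ᵥ (f.S *ᵥ f.v i) = f.m i • (f.Q0 *ᵥ (f.S *ᵥ f.v i)) := by
  have h0 : f.Q0 * f.S = -(f.Sᵀ * f.Q0) := eq_neg_of_add_eq_zero_right f.her0
  have h1 : f.Q1 * f.S = -(f.Sᵀ * f.Q1) := eq_neg_of_add_eq_zero_right f.her1
  rw [mulVec_mulVec, mulVec_mulVec, h0, h1, neg_mulVec, neg_mulVec, ← mulVec_mulVec,
    ← mulVec_mulVec, f.eig, mulVec_smul, smul_neg]

/-- two eigenvectors with different eigenvalues are orthogonal -/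
theorem ortho {x y : Fin 6 → E} {a b : E} (hx : f.Q1 *ᵥ x = a • (f.Q0 *ᵥ x))
    (hy : f.Q1 *ᵥ y = b • (f.Q0 *ᵥ y)) (hab : a ≠ b) : x ⬝ᵥ (f.Q0 *ᵥ y) = 0 := by
  have h1 := sym_dot f.sym1 x y
  rw [hx, hy, dotProduct_smul, dotProduct_smul, sym_dot f.sym0 y x, smul_eq_mul,
    smul_eq_mul] at h1
  have h2 : (b - a) * (x ⬝ᵥ (f.Q0 *ᵥ y)) = 0 := by linear_combination h1
  exact (mul_eq_zero.1 h2).resolve_left (sub_ne_zero.2 (Ne.symm hab))

theorem ortho_vv {i j : Fin 3} (h : i ≠ j) : f.v i ⬝ᵥ (f.Q0 *ᵥ f.v j) = 0 :=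
  f.ortho (f.eig i) (f.eig j) fun e => h (f.inj e)

theorem ortho_vS [NeZero (2 : E)] (i j : Fin 3) : f.v i ⬝ᵥ (f.Q0 *ᵥ (f.S *ᵥ f.v j)) = 0 := by
  by_cases h : i = j
  · subst h
    have h1 := f.her_dot f.her0 (f.v i) (f.v i)
    rw [sym_dot f.sym0] at h1
    have h2 : (2 : E) * (f.v i ⬝ᵥ (f.Q0 *ᵥ (f.S *ᵥ f.v i))) = 0 := by linear_combination h1
    exact (mul_eq_zero.1 h2).resolve_left two_ne_zero
  · exact f.ortho (f.eig i) (f.eigS j) fun e => h (f.inj e)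

theorem dot_SS (i j : Fin 3) : (f.S *ᵥ f.v i) ⬝ᵥ (f.Q0 *ᵥ (f.S *ᵥ f.v j)) =
    -(f.d * (f.v i ⬝ᵥ (f.Q0 *ᵥ f.v j))) := by
  rw [f.her_dot f.her0, f.S_S, mulVec_smul, dotProduct_smul, smul_eq_mul]

/-- the eigenvectors are independent -/
theorem indep [NeZero (2 : E)] {a b : Fin 3 → E}
    (h : ∑ i, (a i • f.v i + b i • (f.S *ᵥ f.v i)) = 0) : a = 0 ∧ b = 0 := by
  have key : ∀ y : Fin 6 → E, ∑ i, (a i * (y ⬝ᵥ (f.Q0 *ᵥ f.v i)) +
      b i * (y ⬝ᵥ (f.Q0 *ᵥ (f.S *ᵥ f.v i)))) = 0 := by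
    intro y
    have h1 := congrArg (fun x => y ⬝ᵥ (f.Q0 *ᵥ x)) h
    simp only [mulVec_sum, dotProduct_sum, mulVec_add, mulVec_smul, dotProduct_add,
      dotProduct_smul, smul_eq_mul, mulVec_zero, dotProduct_zero] at h1
    exact h1
  constructor
  · funext j
    have h1 := key (f.v j)
    rw [Finset.sum_eq_single j] at h1
    · rw [f.ortho_vS, mul_zero, add_zero] at h1
      exact (mul_eq_zero.1 h1).resolve_right (f.ne j)
    · intro i _ hij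
      rw [f.ortho_vv (Ne.symm hij), f.ortho_vS, mul_zero, mul_zero, add_zero]
    · intro hj
      exact absurd (Finset.mem_univ j) hj
  · funext j
    have h1 := key (f.S *ᵥ f.v j)
    have h2 : ∀ i, (f.S *ᵥ f.v j) ⬝ᵥ (f.Q0 *ᵥ f.v i) = 0 := by
      intro i
      rw [sym_dot f.sym0, f.ortho_vS]
    simp only [h2, mul_zero, zero_add, f.dot_SS] at h1
    rw [Finset.sum_eq_single j] at h1
    · have h3 := (mul_eq_zero.1 h1).resolve_right
        (neg_ne_zero.2 (mul_ne_zero f.hd (f.ne j)))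
      exact h3
    · intro i _ hij
      rw [f.ortho_vv (Ne.symm hij)]
      ring
    · intro hj
      exact absurd (Finset.mem_univ j) hj

/-- the vectors `v i`, `S v i` -/
def vec : Fin 3 ⊕ Fin 3 → Fin 6 → E := Sum.elim f.v fun i => f.S *ᵥ f.v i

theorem linearIndependent [NeZero (2 : E)] : LinearIndependent E f.vec := by
  rw [Fintype.linearIndependent_iff]
  intro g hg
  rw [Fintype.sum_sum_type] at hg
  have h1 := f.indep (a := fun i => g (Sum.inl i)) (b := fun i => g (Sum.inr i)) (by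
    rw [Finset.sum_add_distrib]
    exact hg)
  rintro (i | i)
  · exact congrFun h1.1 i
  · exact congrFun h1.2 i

/-- the basis `v i`, `S v i` -/
def basis [NeZero (2 : E)] : Module.Basis (Fin 3 ⊕ Fin 3) E (Fin 6 → E) :=
  basisOfLinearIndependentOfCardEqFinrank f.linearIndependent (by simp)

/-- **The expansion.** -/
theorem coord [NeZero (2 : E)] (u : Fin 6 → E) :
    u = ∑ i, (f.ca u i • f.v i + f.cb u i • (f.S *ᵥ f.v i)) := by
  obtain ⟨a, b, hab⟩ : ∃ a b : Fin 3 → E, u = ∑ i, (a i • f.v i + b i • (f.S *ᵥ f.v i)) := by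
    refine ⟨fun i => f.basis.repr u (Sum.inl i), fun i => f.basis.repr u (Sum.inr i), ?_⟩
    have h1 := f.basis.sum_repr u
    rw [Fintype.sum_sum_type] at h1
    rw [Finset.sum_add_distrib]
    conv_lhs => rw [← h1]
    simp only [basis, coe_basisOfLinearIndependentOfCardEqFinrank, vec, Sum.elim_inl,
      Sum.elim_inr]
  have key : ∀ y : Fin 6 → E, y ⬝ᵥ (f.Q0 *ᵥ u) = ∑ i, (a i * (y ⬝ᵥ (f.Q0 *ᵥ f.v i)) +
      b i * (y ⬝ᵥ (f.Q0 *ᵥ (f.S *ᵥ f.v i)))) := by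
    intro y
    have h1 := congrArg (fun x => y ⬝ᵥ (f.Q0 *ᵥ x)) hab
    simp only [mulVec_sum, dotProduct_sum, mulVec_add, mulVec_smul, dotProduct_add,
      dotProduct_smul, smul_eq_mul] at h1
    exact h1
  have ha : ∀ j, f.ca u j = a j := by
    intro j
    rw [ca, key, Finset.sum_eq_single j]
    · rw [f.ortho_vS, mul_zero, add_zero]
      exact mul_div_cancel_right₀ _ (f.c_ne j)
    · intro i _ hij
      rw [f.ortho_vv (Ne.symm hij), f.ortho_vS, mul_zero, mul_zero, add_zero]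
    · intro hj
      exact absurd (Finset.mem_univ j) hj
  have hb : ∀ j, f.cb u j = b j := by
    intro j
    have h2 : ∀ i, (f.S *ᵥ f.v j) ⬝ᵥ (f.Q0 *ᵥ f.v i) = 0 := by
      intro i
      rw [sym_dot f.sym0, f.ortho_vS]
    rw [cb, key]
    simp only [h2, mul_zero, zero_add, f.dot_SS]
    rw [Finset.sum_eq_single j]
    · have h3 := f.hd
      have h4 := f.c_ne j
      rw [c] at h4 ⊢
      field_simp
    · intro i _ hij
      rw [f.ortho_vv (Ne.symm hij)]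
      ring
    · intro hj
      exact absurd (Finset.mem_univ j) hj
  rw [hab]
  refine Finset.sum_congr rfl fun i _ => ?_
  rw [← hab, ha, hb]

/-- the coordinates of a combination -/
theorem ca_comb [NeZero (2 : E)] (a b : Fin 3 → E) (j : Fin 3) :
    f.ca (∑ i, (a i • f.v i + b i • (f.S *ᵥ f.v i))) j = a j := by
  rw [ca]
  simp only [mulVec_sum, dotProduct_sum, mulVec_add, mulVec_smul, dotProduct_add,
      dotProduct_smul, smul_eq_mul]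
  rw [Finset.sum_eq_single j]
  · rw [f.ortho_vS, mul_zero, add_zero]
    exact mul_div_cancel_right₀ _ (f.c_ne j)
  · intro i _ hij
    rw [f.ortho_vv (Ne.symm hij), f.ortho_vS, mul_zero, mul_zero, add_zero]
  · intro hj
    exact absurd (Finset.mem_univ j) hj

theorem cb_comb [NeZero (2 : E)] (a b : Fin 3 → E) (j : Fin 3) :
    f.cb (∑ i, (a i • f.v i + b i • (f.S *ᵥ f.v i))) j = b j := by
  have h2 : ∀ i, (f.S *ᵥ f.v j) ⬝ᵥ (f.Q0 *ᵥ f.v i) = 0 := by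
    intro i
    rw [sym_dot f.sym0, f.ortho_vS]
  rw [cb]
  simp only [mulVec_sum, dotProduct_sum, mulVec_add, mulVec_smul, dotProduct_add,
      dotProduct_smul, smul_eq_mul, h2, mul_zero, zero_add, f.dot_SS]
  rw [Finset.sum_eq_single j]
  · have h3 := f.hd
    have h4 := f.c_ne j
    rw [c] at h4 ⊢
    field_simp
  · intro i _ hij
    rw [f.ortho_vv (Ne.symm hij)]
    ring
  · intro hj
    exact absurd (Finset.mem_univ j) hj

/-- the bilinear forms in coordinates -/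
theorem Q0_coord [NeZero (2 : E)] (u w : Fin 6 → E) : u ⬝ᵥ (f.Q0 *ᵥ w) =
    ∑ i, f.c i * (f.ca u i * f.ca w i - f.d * (f.cb u i * f.cb w i)) := by
  conv_lhs => rw [f.coord u]
  rw [sum_dotProduct]
  refine Finset.sum_congr rfl fun i _ => ?_
  rw [add_dotProduct, smul_dotProduct, smul_dotProduct, smul_eq_mul, smul_eq_mul]
  have h1 : f.v i ⬝ᵥ (f.Q0 *ᵥ w) = f.c i * f.ca w i := by
    rw [ca, mul_div_cancel₀ _ (f.c_ne i)]
  have h2 : (f.S *ᵥ f.v i) ⬝ᵥ (f.Q0 *ᵥ w) = -(f.d * f.c i * f.cb w i) := by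
    rw [cb, mul_div_cancel₀ _ (mul_ne_zero f.hd (f.c_ne i)), neg_neg]
  rw [h1, h2]
  ring

theorem Q1_coord [NeZero (2 : E)] (u w : Fin 6 → E) : u ⬝ᵥ (f.Q1 *ᵥ w) =
    ∑ i, f.m i * f.c i * (f.ca u i * f.ca w i - f.d * (f.cb u i * f.cb w i)) := by
  have h0 : ∀ i, f.v i ⬝ᵥ (f.Q1 *ᵥ w) = f.m i * (f.v i ⬝ᵥ (f.Q0 *ᵥ w)) := by
    intro i
    rw [sym_dot f.sym1, f.eig, dotProduct_smul, smul_eq_mul, sym_dot f.sym0]
  have h3 : ∀ i, (f.S *ᵥ f.v i) ⬝ᵥ (f.Q1 *ᵥ w) =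
      f.m i * ((f.S *ᵥ f.v i) ⬝ᵥ (f.Q0 *ᵥ w)) := by
    intro i
    rw [sym_dot f.sym1, f.eigS, dotProduct_smul, smul_eq_mul, sym_dot f.sym0]
  conv_lhs => rw [f.coord u]
  rw [sum_dotProduct]
  refine Finset.sum_congr rfl fun i _ => ?_
  rw [add_dotProduct, smul_dotProduct, smul_dotProduct, smul_eq_mul, smul_eq_mul, h0, h3]
  have h1 : f.v i ⬝ᵥ (f.Q0 *ᵥ w) = f.c i * f.ca w i := by
    rw [ca, mul_div_cancel₀ _ (f.c_ne i)]
  have h2 : (f.S *ᵥ f.v i) ⬝ᵥ (f.Q0 *ᵥ w) = -(f.d * f.c i * f.cb w i) := by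
    rw [cb, mul_div_cancel₀ _ (mul_ne_zero f.hd (f.c_ne i)), neg_neg]
  rw [h1, h2]
  ring

/-- the coordinates of `S u` -/
theorem ca_S (u : Fin 6 → E) (i : Fin 3) : f.ca (f.S *ᵥ u) i = f.d * f.cb u i := by
  have h1 := f.her_dot f.her0 (f.v i) u
  rw [ca, cb, h1, neg_neg]
  have h3 := f.hd
  have h4 := f.c_ne i
  field_simp

theorem cb_S (u : Fin 6 → E) (i : Fin 3) : f.cb (f.S *ᵥ u) i = f.ca u i := by
  have h1 := f.her_dot f.her0 (f.v i) (f.S *ᵥ u)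
  rw [ca, cb, h1, neg_neg, f.S_S, mulVec_smul, dotProduct_smul, smul_eq_mul]
  have h3 := f.hd
  have h4 := f.c_ne i
  field_simp

end Frame

end Pool.Agent.GSQ
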