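import Pool.Agent.GSQ.Defs
import Pool.Agent.GSQ.Frame

/-!
# GSQ: coordinates with respect to the eigenvectors
-/

set_option autoImplicit false

noncomputable section

namespace Pool.Agent.GSQ

open Matrix Pool.Agent.GSH

section NoChar

variable {K : Type} [Field K] {M : Type} [Field M] [Algebra K M]
  {Ω : Type} [Field Ω] [Algebra K Ω]

theorem fin_of_three (hM : Module.finrank K M = 3) : FiniteDimensional K M :=
  Module.finite_of_finrank_pos (by rw [hM]; norm_num)

theorem pol_symm (H : Pen K) (j : Fin 2) : (pol H j)ᵀ = pol H j := by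
  unfold pol
  rw [transpose_add, transpose_transpose, add_comm]

theorem bl_pol (H : Pen K) (j : Fin 2) (u : Fin 6 → Ω) : bl (pol H j) u u = 2 * bl (H.Q j) u u := by
  have h1 : bl (H.Q j)ᵀ u u = bl (H.Q j) u u := by
    unfold bl
    have h2 : (mK (H.Q j)ᵀ : Matrix (Fin 6) (Fin 6) Ω) = (mK (H.Q j))ᵀ := rfl
    rw [h2, mulVec_transpose, dotProduct_comm, ← dotProduct_mulVec]
  unfold pol
  rw [bl_add_mat, h1, two_mul]

theorem map_bl {M' : Type} [Field M'] [Algebra K M'] (σ : M →ₐ[K] M')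
    (A : Matrix (Fin 6) (Fin 6) K) (x y : Fin 6 → M) :
    bl A (fun l => σ (x l)) (fun l => σ (y l)) = σ (bl A x y) := by
  simp only [bl, dotProduct, mulVec, mK, Matrix.map_apply, map_sum, map_mul, AlgHom.commutes]

theorem map_mulVec {M' : Type} [Field M'] [Algebra K M'] (σ : M →ₐ[K] M')
    (A : Matrix (Fin 6) (Fin 6) K) (x : Fin 6 → M) (l : Fin 6) :
    (mK A *ᵥ fun l => σ (x l)) l = σ ((mK A *ᵥ x) l) := by
  simp only [dotProduct, mulVec, mK, Matrix.map_apply, map_sum, map_mul, AlgHom.commutes]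

theorem s_m_inj {H : Pen K} (E : Eig H M) {s : Fin 3 → (M →ₐ[K] Ω)}
    (hs : Function.Injective s) : Function.Injective fun i => s i E.m := by
  intro i j hij
  apply hs
  ext x
  have h2 : x ∈ IntermediateField.adjoin K {E.m} := by
    rw [E.gen]
    trivial
  induction h2 using IntermediateField.adjoin_induction with
  | mem x hx =>
    rw [Set.mem_singleton_iff] at hx
    rw [hx]
    exact hij
  | algebraMap x => rw [AlgHom.commutes, AlgHom.commutes]
  | add x y _ _ hx hy => rw [map_add, map_add, hx, hy]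
  | inv x _ hx => rw [map_inv₀, map_inv₀, hx]
  | mul x y _ _ hx hy => rw [map_mul, map_mul, hx, hy]

/-- the minimal polynomial is the product of the `X - m i` -/
theorem minpoly_eq {H : Pen K} (hM : Module.finrank K M = 3) (E : Eig H M)
    {s : Fin 3 → (M →ₐ[K] Ω)} (hs : Function.Injective s) :
    (minpoly K E.m).map (algebraMap K Ω) =
      ∏ i, (Polynomial.X - Polynomial.C (s i E.m)) := by
  have hfin := fin_of_three hM
  have hint : IsIntegral K E.m := Algebra.IsIntegral.isIntegral _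
  have hmon := (minpoly.monic hint).map (algebraMap K Ω)
  symm
  have hdeg : (minpoly K E.m).natDegree = 3 := by
    rw [← IntermediateField.adjoin.finrank hint, E.gen, IntermediateField.finrank_top', hM]
  have hmon' : (∏ i, (Polynomial.X - Polynomial.C (s i E.m))).Monic :=
    Polynomial.monic_prod_of_monic _ _ fun i _ => Polynomial.monic_X_sub_C _
  refine (Polynomial.eq_of_monic_of_dvd_of_natDegree_le hmon' hmon ?_ ?_).symm
  · refine Finset.prod_dvd_of_coprime (fun i _ j _ hij =>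
      Polynomial.pairwise_coprime_X_sub_C (s_m_inj E hs) hij) fun i _ => ?_
    rw [Polynomial.dvd_iff_isRoot, Polynomial.IsRoot.def, Polynomial.eval_map_algebraMap,
      Polynomial.aeval_algHom_apply, minpoly.aeval, map_zero]
  · rw [Polynomial.natDegree_map, hdeg, Polynomial.natDegree_prod_of_monic _ _
      fun i _ => Polynomial.monic_X_sub_C _]
    simp

theorem pd_eq {H : Pen K} (hM : Module.finrank K M = 3) (E : Eig H M)
    {s : Fin 3 → (M →ₐ[K] Ω)} (hs : Function.Injective s) (i : Fin 3) :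
    s i E.pd = (s i E.m - s (i + 1) E.m) * (s i E.m - s (i + 2) E.m) := by
  have h1 : s i E.pd = Polynomial.eval (s i E.m)
      (((minpoly K E.m).map (algebraMap K Ω)).derivative) := by
    rw [Eig.pd, ← Polynomial.aeval_algHom_apply, Polynomial.derivative_map,
      Polynomial.eval_map_algebraMap]
  rw [h1, minpoly_eq hM E hs, Fin.prod_univ_three]
  fin_cases i <;> simp [Polynomial.derivative_mul] <;> ring

end NoChar

variable {K : Type} [Field K] [CharZero K] {M : Type} [Field M] [Algebra K M]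
  {Ω : Type} [Field Ω] [Algebra K Ω]

theorem exists_s [IsAlgClosed Ω] (hM : Module.finrank K M = 3) :
    ∃ s : Fin 3 → (M →ₐ[K] Ω), Function.Injective s := by
  have hfin := fin_of_three hM
  have h1 : Fintype.card (M →ₐ[K] Ω) = 3 := by rw [AlgHom.card K M Ω, hM]
  exact ⟨(Fintype.equivFinOfCardEq h1).symm, (Fintype.equivFinOfCardEq h1).symm.injective⟩

theorem s_bij [IsAlgClosed Ω] (hM : Module.finrank K M = 3) {s : Fin 3 → (M →ₐ[K] Ω)}
    (hs : Function.Injective s) : Function.Bijective s := by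
  have hfin := fin_of_three hM
  have h1 : Fintype.card (M →ₐ[K] Ω) = 3 := by rw [AlgHom.card K M Ω, hM]
  rw [Fintype.bijective_iff_injective_and_card]
  exact ⟨hs, by rw [h1, Fintype.card_fin]⟩

theorem tr_eq [IsAlgClosed Ω] (hM : Module.finrank K M = 3) {s : Fin 3 → (M →ₐ[K] Ω)}
    (hs : Function.Injective s) (x : M) :
    algebraMap K Ω (Algebra.trace K M x) = ∑ i, s i x := by
  have hfin := fin_of_three hM
  rw [trace_eq_sum_embeddings Ω]
  exact ((s_bij hM hs).sum_comp (fun σ : M →ₐ[K] Ω => σ x)).symm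

theorem nm_eq [IsAlgClosed Ω] (hM : Module.finrank K M = 3) {s : Fin 3 → (M →ₐ[K] Ω)}
    (hs : Function.Injective s) (x : M) :
    algebraMap K Ω (Algebra.norm K x) = ∏ i, s i x := by
  have hfin := fin_of_three hM
  rw [Algebra.norm_eq_prod_embeddings K Ω]
  exact ((s_bij hM hs).prod_comp (fun σ : M →ₐ[K] Ω => σ x)).symm

theorem pd_ne {H : Pen K} (hM : Module.finrank K M = 3) (E : Eig H M) : E.pd ≠ 0 := by
  have hfin := fin_of_three hM
  exact (Algebra.IsSeparable.isSeparable K E.m).aeval_derivative_ne_zero (minpoly.aeval K E.m)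

theorem s_aK {H : Pen K} (E : Eig H M) (s : Fin 3 → (M →ₐ[K] Ω)) (u : Fin 6 → K) (i : Fin 3) :
    s i (E.aK u) = E.ai s (vK u) i := by
  have h1 : (vK u : Fin 6 → Ω) = fun l => s i ((vK u : Fin 6 → M) l) := by
    funext l
    exact (AlgHom.commutes _ _).symm
  rw [Eig.aK, Eig.ai, Eig.ci, map_div₀, map_mul, map_ofNat, ← map_bl, h1]
  rfl

theorem s_bK {H : Pen K} (E : Eig H M) (s : Fin 3 → (M →ₐ[K] Ω)) (u : Fin 6 → K) (i : Fin 3) :
    s i (E.bK u) = E.bi s (vK u) i := by
  rw [Eig.bK, Eig.bi, map_div₀, s_aK, AlgHom.commutes, mK_vK]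

variable {H : Pen K} (hH : IsHer H) (hd : H.d ≠ 0) (hM : Module.finrank K M = 3) (E : Eig H M)
  {s : Fin 3 → (M →ₐ[K] Ω)} (hs : Function.Injective s)

/-- the frame over `Ω` -/
def frame (hH : IsHer H) (hd : H.d ≠ 0) (E : Eig H M) {s : Fin 3 → (M →ₐ[K] Ω)}
    (hs : Function.Injective s) : Frame Ω where
  d := algebraMap K Ω H.d
  S := mK H.S
  Q0 := mK (pol H 0)
  Q1 := mK (pol H 1)
  m := fun i => s i E.m
  v := E.vi s
  hd := (map_ne_zero _).2 hd
  sq := by
    have h1 : (mK H.S : Matrix (Fin 6) (Fin 6) Ω) * mK H.S = mK (H.S * H.S) :=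
      (Matrix.map_mul (f := algebraMap K Ω)).symm
    rw [h1, hH.sq]
    ext i j
    simp only [mK, Matrix.map_apply, Matrix.smul_apply, smul_eq_mul, map_mul, Matrix.one_apply]
    split <;> simp
  sym0 := congrArg (fun A => mK (Ω := Ω) A) (pol_symm H 0)
  sym1 := congrArg (fun A => mK (Ω := Ω) A) (pol_symm H 1)
  her0 := by
    have h1 : (mK (H.Sᵀ * pol H 0 + pol H 0 * H.S) : Matrix (Fin 6) (Fin 6) Ω) = 0 := by
      rw [hH.her]
      exact Matrix.map_zero _ (map_zero _)
    rw [← h1]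
    simp only [mK, Matrix.map_add _ (map_add (algebraMap K Ω)), Matrix.map_mul, transpose_map]
  her1 := by
    have h1 : (mK (H.Sᵀ * pol H 1 + pol H 1 * H.S) : Matrix (Fin 6) (Fin 6) Ω) = 0 := by
      rw [hH.her]
      exact Matrix.map_zero _ (map_zero _)
    rw [← h1]
    simp only [mK, Matrix.map_add _ (map_add (algebraMap K Ω)), Matrix.map_mul, transpose_map]
  inj := s_m_inj E hs
  eig := by
    intro i
    funext l
    have h1 := congrFun E.eig l
    have h2 : (mK (pol H 1) *ᵥ E.vi s i) l = s i ((mK (pol H 1) *ᵥ E.v) l) :=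
      map_mulVec (s i) _ _ _
    have h3 : (mK (pol H 0) *ᵥ E.vi s i) l = s i ((mK (pol H 0) *ᵥ E.v) l) :=
      map_mulVec (s i) _ _ _
    rw [h2, h1, Pi.smul_apply, smul_eq_mul, map_mul, Pi.smul_apply, smul_eq_mul, h3]
  ne := by
    intro i
    have h1 : E.vi s i ⬝ᵥ (mK (pol H 0) *ᵥ E.vi s i) = 2 * bl (H.Q 0) (E.vi s i) (E.vi s i) :=
      bl_pol H 0 _
    have h2 : bl (H.Q 0) (E.vi s i) (E.vi s i) = s i (bl (H.Q 0) E.v E.v) := map_bl (s i) _ _ _
    have h3 : (2 : Ω) ≠ 0 := by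
      have h4 := (map_ne_zero (algebraMap K Ω)).2 (two_ne_zero (α := K))
      rwa [map_ofNat] at h4
    rw [h1, h2]
    exact mul_ne_zero h3 ((map_ne_zero _).2 E.ne)

theorem frame_c (i : Fin 3) : (frame hH hd E hs).c i = 2 * E.ci s i := by
  have h1 : (frame hH hd E hs).c i = 2 * bl (H.Q 0) (E.vi s i) (E.vi s i) := bl_pol H 0 _
  rw [h1]
  congr 1
  exact map_bl (s i) _ _ _

theorem frame_ca (u : Fin 6 → Ω) (i : Fin 3) : (frame hH hd E hs).ca u i = E.ai s u i := by
  rw [Frame.ca, frame_c, Eig.ai]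
  rfl

theorem frame_cb (u : Fin 6 → Ω) (i : Fin 3) : (frame hH hd E hs).cb u i = E.bi s u i := by
  have h1 := (frame hH hd E hs).ca_S u i
  rw [frame_ca] at h1
  rw [Eig.bi]
  have h2 : E.ai s (mK H.S *ᵥ u) i = algebraMap K Ω H.d * (frame hH hd E hs).cb u i := h1
  rw [h2, mul_div_cancel_left₀ _ ((map_ne_zero _).2 hd)]

theorem neZero_two (K Ω : Type) [Field K] [CharZero K] [Field Ω] [Algebra K Ω] :
    NeZero (2 : Ω) := by
  have h4 := (map_ne_zero (algebraMap K Ω)).2 (two_ne_zero (α := K))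
  rw [map_ofNat] at h4
  exact ⟨h4⟩

include hH hd hM hs

theorem coord (u : Fin 6 → Ω) :
    u = ∑ i, (E.ai s u i • E.vi s i + E.bi s u i • (mK H.S *ᵥ E.vi s i)) := by
  have hz : NeZero (2 : Ω) := neZero_two K Ω
  have h1 := (frame hH hd E hs).coord u
  simp only [frame_ca, frame_cb] at h1
  exact h1

theorem ai_comb (a b : Fin 3 → Ω) (i : Fin 3) :
    E.ai s (∑ i, (a i • E.vi s i + b i • (mK H.S *ᵥ E.vi s i))) i = a i := by
  have hz : NeZero (2 : Ω) := neZero_two K Ω
  rw [← frame_ca hH hd E hs]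
  exact (frame hH hd E hs).ca_comb a b i

theorem bi_comb (a b : Fin 3 → Ω) (i : Fin 3) :
    E.bi s (∑ i, (a i • E.vi s i + b i • (mK H.S *ᵥ E.vi s i))) i = b i := by
  have hz : NeZero (2 : Ω) := neZero_two K Ω
  rw [← frame_cb hH hd E hs]
  exact (frame hH hd E hs).cb_comb a b i

theorem quad (j : Fin 2) (u : Fin 6 → Ω) :
    bl (H.Q j) u u = ∑ i, s i E.m ^ (j : ℕ) * E.ci s i *
      (E.ai s u i ^ 2 - algebraMap K Ω H.d * E.bi s u i ^ 2) := by
  have hz : NeZero (2 : Ω) := neZero_two K Ω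
  apply mul_left_cancel₀ (two_ne_zero (α := Ω))
  rw [← bl_pol, Finset.mul_sum]
  fin_cases j
  · have h1 := (frame hH hd E hs).Q0_coord u u
    simp only [frame_ca, frame_cb, frame_c] at h1
    refine Eq.trans h1 (Finset.sum_congr rfl fun i _ => ?_)
    have h2 : (frame hH hd E hs).d = algebraMap K Ω H.d := rfl
    rw [h2]
    rw [show ((⟨0, by norm_num⟩ : Fin 2) : ℕ) = 0 from rfl, pow_zero]
    ring
  · have h1 := (frame hH hd E hs).Q1_coord u u
    simp only [frame_ca, frame_cb, frame_c] at h1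
    refine Eq.trans h1 (Finset.sum_congr rfl fun i _ => ?_)
    have h2 : (frame hH hd E hs).d = algebraMap K Ω H.d := rfl
    have h3 : (frame hH hd E hs).m i = s i E.m := rfl
    rw [h2, h3]
    rw [show ((⟨1, by norm_num⟩ : Fin 2) : ℕ) = 1 from rfl, pow_one]
    ring

/-- isotropic vectors -/
theorem iso_iff (u : Fin 6 → Ω) : (∀ j, bl (H.Q j) u u = 0) ↔
    ∃ r : Ω, ∀ i, s i E.e * (E.ai s u i ^ 2 - algebraMap K Ω H.d * E.bi s u i ^ 2) = r := by
  have hq := fun j => quad hH hd hM E hs j u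
  have he : ∀ i, s i E.e = s i E.pd * E.ci s i := fun i => by
    rw [Eig.e, map_mul]
    rfl
  have hi := s_m_inj E hs
  set n : Fin 3 → Ω := fun i => E.ci s i *
    (E.ai s u i ^ 2 - algebraMap K Ω H.d * E.bi s u i ^ 2) with hn
  have q0 : bl (H.Q 0) u u = n 0 + n 1 + n 2 := by
    rw [hq 0, Fin.sum_univ_three]
    simp only [Fin.val_zero, pow_zero, one_mul, hn]
  have q1 : bl (H.Q 1) u u = s 0 E.m * n 0 + s 1 E.m * n 1 + s 2 E.m * n 2 := by
    rw [hq 1, Fin.sum_univ_three]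
    simp only [Fin.val_one, pow_one, hn]
    ring
  have hr : ∀ i, s i E.e * (E.ai s u i ^ 2 - algebraMap K Ω H.d * E.bi s u i ^ 2) =
      s i E.pd * n i := by
    intro i
    rw [he, hn]
    ring
  simp only [hr]
  have p0 : s 0 E.pd = (s 0 E.m - s 1 E.m) * (s 0 E.m - s 2 E.m) := pd_eq hM E hs 0
  have p1 : s 1 E.pd = (s 1 E.m - s 2 E.m) * (s 1 E.m - s 0 E.m) := pd_eq hM E hs 1
  have p2 : s 2 E.pd = (s 2 E.m - s 0 E.m) * (s 2 E.m - s 1 E.m) := pd_eq hM E hs 2
  have d01 : s 0 E.m - s 1 E.m ≠ 0 := sub_ne_zero.2 fun h => absurd (hi h) (by decide)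
  have d02 : s 0 E.m - s 2 E.m ≠ 0 := sub_ne_zero.2 fun h => absurd (hi h) (by decide)
  have d12 : s 1 E.m - s 2 E.m ≠ 0 := sub_ne_zero.2 fun h => absurd (hi h) (by decide)
  constructor
  · intro h
    have h0 := h 0
    have h1 := h 1
    rw [q0] at h0
    rw [q1] at h1
    refine ⟨s 0 E.pd * n 0, fun i => ?_⟩
    fin_cases i
    · rfl
    · change s 1 E.pd * n 1 = _
      rw [p1, p0]
      linear_combination (s 0 E.m - s 1 E.m) * (s 2 E.m * h0 - h1)
    · change s 2 E.pd * n 2 = _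
      rw [p2, p0]
      linear_combination (s 0 E.m - s 2 E.m) * (s 1 E.m * h0 - h1)
  · rintro ⟨r, h⟩
    have h0 := h 0
    have h1 := h 1
    have h2 := h 2
    rw [p0] at h0
    rw [p1] at h1
    rw [p2] at h2
    have hV : (s 0 E.m - s 1 E.m) * (s 0 E.m - s 2 E.m) * (s 1 E.m - s 2 E.m) ≠ 0 :=
      mul_ne_zero (mul_ne_zero d01 d02) d12
    intro j
    fin_cases j
    · change bl (H.Q 0) u u = 0
      rw [q0]
      apply mul_left_cancel₀ hV
      linear_combination (s 1 E.m - s 2 E.m) * h0 - (s 0 E.m - s 2 E.m) * h1 +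
        (s 0 E.m - s 1 E.m) * h2
    · change bl (H.Q 1) u u = 0
      rw [q1]
      apply mul_left_cancel₀ hV
      linear_combination s 0 E.m * (s 1 E.m - s 2 E.m) * h0 -
        s 1 E.m * (s 0 E.m - s 2 E.m) * h1 + s 2 E.m * (s 0 E.m - s 1 E.m) * h2

theorem vec_eq [IsAlgClosed Ω] (a b : M) : (vK (E.vec a b) : Fin 6 → Ω) =
    ∑ i, (s i a • E.vi s i + s i b • (mK H.S *ᵥ E.vi s i)) := by
  funext l
  rw [vK, Eig.vec, tr_eq hM hs, Finset.sum_apply]
  refine Finset.sum_congr rfl fun i _ => ?_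
  have h2 : (mK H.S *ᵥ E.vi s i) l = s i ((mK H.S *ᵥ E.v) l) := map_mulVec (s i) _ _ _
  rw [Pi.add_apply, Pi.smul_apply, Pi.smul_apply, h2, smul_eq_mul, smul_eq_mul, map_add,
    map_mul, map_mul]
  rfl

omit [Field Ω] [Algebra K Ω] hs in
theorem vec_aK (u : Fin 6 → K) : E.vec (E.aK u) (E.bK u) = u := by
  obtain ⟨s, hs⟩ := exists_s (Ω := AlgebraicClosure K) hM
  funext l
  apply (algebraMap K (AlgebraicClosure K)).injective
  have h1 := congrFun (vec_eq hH hd hM E hs (E.aK u) (E.bK u)) l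
  have h2 := congrFun (coord hH hd hM E hs (vK u)) l
  simp only [s_aK, s_bK] at h1
  rw [← h2] at h1
  exact h1

end Pool.Agent.GSQ
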