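import Pool.Agent.GSH.Pen

/-!
# GSQ: the invariants of a pencil of hermitian forms

`K` is a field of characteristic zero, `L = K(√d)`, `U = K ^ 6` an `L`-space of dimension 3, and
`Q 0`, `Q 1` are two hermitian forms on `U` (`Pen`, `IsHer`; the quadratic map `P` of `Pen` is not
used). `pol H j` is the polar matrix of `Q j`.

`Eig H M`: `M` is an extension of `K` (of degree 3), `m` a generator of `M`, `v` a vector in
`U ⊗ M` with `Q 1 (v, ·) = m Q 0 (v, ·)`, and `Q 0 (v) ≠ 0`. So `m` is a root of the cubic
polynomial `det (t B 0 - B 1)` of the pencil, `B j` the hermitian matrix of `Q j`. With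
`e = p'(m) Q 0 (v)`, `p` the minimal polynomial of `m`, the quaternion algebra `(d, e N(e))` over
`M`, `N` the norm of `M / K`, depends only on the pencil.

`SameTwist H₁ H₂`: the two pencils have the same cubic extension `M` and isomorphic quaternion
algebras over `M`. For the pencil of a cubic fourfold `X` of the family considered here `M` is the
function field of a K3 surface `S` of degree 6, a triple cover of the plane with function field
`K`, and the quaternion algebra is the Brauer class on `S` of the associated conic bundle (this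
is not used and not proved here).
-/

set_option autoImplicit false

noncomputable section

namespace Pool.Agent.GSQ

open Matrix Pool.Agent.GSH
open scoped Quaternion

variable {K : Type} [Field K]

/-- the polar matrix of the quadratic form `Q j` -/
def pol (H : Pen K) (j : Fin 2) : Matrix (Fin 6) (Fin 6) K := H.Q j + (H.Q j)ᵀ

/-- the quadratic forms `Q j` are hermitian with respect to `L = K(√d)`, `√d = S` -/
structure IsHer (H : Pen K) : Prop where
  sq : H.S * H.S = H.d • 1
  her : ∀ j, H.Sᵀ * pol H j + pol H j * H.S = 0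

/-- an eigenvalue of the pencil and an eigenvector over the extension `M` -/
structure Eig (H : Pen K) (M : Type) [Field M] [Algebra K M] where
  /-- the eigenvalue -/
  m : M
  /-- the eigenvector -/
  v : Fin 6 → M
  gen : IntermediateField.adjoin K {m} = ⊤
  eig : mK (pol H 1) *ᵥ v = m • (mK (pol H 0) *ᵥ v)
  ne : bl (H.Q 0) v v ≠ 0

section

variable {H : Pen K} {M : Type} [Field M] [Algebra K M] (E : Eig H M)

/-- the number `Q 0 (v)` -/
def Eig.cv : M := bl (H.Q 0) E.v E.v

/-- the number `p'(m)`, `p` the minimal polynomial of `m` -/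
def Eig.pd : M := Polynomial.aeval E.m (minpoly K E.m).derivative

/-- the number `e = p'(m) Q 0 (v)` -/
def Eig.e : M := E.pd * E.cv

/-- the number `e N(e)` -/
def Eig.c : M := E.e * algebraMap K M (Algebra.norm K E.e)

end

/-- the same cubic extension and isomorphic quaternion algebras -/
def SameTwist (H₁ H₂ : Pen K) : Prop :=
  ∃ (M : Type) (_ : Field M) (_ : Algebra K M), Module.finrank K M = 3 ∧
    ∃ (E₁ : Eig H₁ M) (E₂ : Eig H₂ M),
      Nonempty (ℍ[M, algebraMap K M H₁.d, E₁.c] ≃ₐ[M] ℍ[M, algebraMap K M H₂.d, E₂.c])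

/-- A frame: an eigenvector `v` with `c p'(m) Q 0 (v) = κ` in `K`. -/
structure Fr (H : Pen K) (M : Type) [Field M] [Algebra K M] (c : M) extends Eig H M where
  /-- the constant -/
  κ : K
  hκ : algebraMap K M κ = c * (toEig.pd * toEig.cv)

/-! ### Coordinates over a splitting field -/

section Coord

variable {H : Pen K} {M : Type} [Field M] [Algebra K M] (E : Eig H M)
  {Ω : Type} [Field Ω] [Algebra K Ω] (s : Fin 3 → (M →ₐ[K] Ω))

/-- the eigenvector `i` -/
def Eig.vi (i : Fin 3) : Fin 6 → Ω := fun l => s i (E.v l)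

/-- the number `Q 0 (v)` for the eigenvector `i` -/
def Eig.ci (i : Fin 3) : Ω := s i E.cv

/-- the coordinate `a i` of `u = ∑ i, (a i v_i + b i S v_i)` -/
def Eig.ai (u : Fin 6 → Ω) (i : Fin 3) : Ω := bl (pol H 0) (E.vi s i) u / (2 * E.ci s i)

/-- the coordinate `b i` -/
def Eig.bi (u : Fin 6 → Ω) (i : Fin 3) : Ω := E.ai s (mK H.S *ᵥ u) i / algebraMap K Ω H.d

/-- the coordinate `z i = a i + b i √d` -/
def Eig.zi (δ : Ω) (u : Fin 6 → Ω) (i : Fin 3) : Ω := E.ai s u i + E.bi s u i * δ

/-- the vector with the coordinates `a`, `b` -/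
def Eig.vec (a b : M) : Fin 6 → K := fun l =>
  Algebra.trace K M (a * E.v l + b * (mK H.S *ᵥ E.v) l)

/-- the coordinate `a` of a vector over `K` -/
def Eig.aK (u : Fin 6 → K) : M := bl (pol H 0) E.v (vK u) / (2 * E.cv)

/-- the coordinate `b` of a vector over `K` -/
def Eig.bK (u : Fin 6 → K) : M := E.aK (H.S *ᵥ u) / algebraMap K M H.d

end Coord

end Pool.Agent.GSQ
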