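import Mathlib

/-!
# GSQ: the change of the slot (I2)

`E` is a field, `c i = g i * gb i`, `n ^ 2 = c 0 * c 1 * c 2`. The cone of the points
`(ξ, z, ξ', z')` with `ξ * z' k = c k / n * (z i * z j)`, `ξ' * z k = c k / n * (z' i * z' j)` is the
cone over `(ℙ¹)³`: `ξ = 1`, `z i = x i`, `n * z' k / c k = x i * x j`, `n * ξ' = x 0 * x 1 * x 2`. The
linear map below is the change of coordinates `x i ↦ (x i - g i) / (1 - x i / gb i)`.
-/

set_option autoImplicit false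

namespace Pool.Agent.GSQ

variable {E : Type*} [Field E]

/-- the first component of the semilinear half of the map -/
def stX (ξ : E) (z gb : Fin 3 → E) (ν : E) : E := ν * (ξ - ∑ i, z i / gb i)

/-- the other components of the semilinear half of the map -/
def stY (ξ : E) (z g gb : Fin 3 → E) (ν : E) (i : Fin 3) : E :=
  ν * z i * (1 - g i / gb i) - g i * stX ξ z gb ν

/-- the first component of the change of the slot -/
def slX (ξ ξ' : E) (z z' g gb : Fin 3 → E) (ν ν' : E) : E :=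
  stX ξ z gb ν + stX ξ' z' g ν'

/-- the other components of the change of the slot -/
def slY (ξ ξ' : E) (z z' g gb : Fin 3 → E) (ν ν' : E) (i : Fin 3) : E :=
  stY ξ z g gb ν i + stY ξ' z' gb g ν' i

section scalar

variable {x x' zi zj zk bi bj bk gi gj gk hi hj hk n ν ν' : E}

/-- the relation of the product in terms of the eight coordinates of the triple product -/
theorem seg_rel (e0 ei ej ek eij eik ejk eijk ai aj ak : E) (h1 : e0 * eij = ei * ej)
    (h2 : e0 * eijk + ek * eij = ei * ejk + ej * eik) (h3 : ek * eijk = eik * ejk) :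
    (ν * (e0 - ai * ei - aj * ej - ak * ek + ai * aj * eij + ai * ak * eik + aj * ak * ejk -
      ai * aj * ak * eijk)) *
    (ν * (eij - ak * eijk - gj * (ei - ak * eik) - gi * (ej - ak * ejk) +
      gi * gj * (e0 - ak * ek))) =
    (ν * (ei - aj * eij - ak * eik + aj * ak * eijk - gi * (e0 - aj * ej - ak * ek +
      aj * ak * ejk))) *
    (ν * (ej - ai * eij - ak * ejk + ai * ak * eijk - gj * (e0 - ai * ei - ak * ek +
      ai * ak * eik))) := by
  linear_combination (ν ^ 2 * (1 - gi * ai) * (1 - gj * aj)) * h1 -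
    (ν ^ 2 * (1 - gi * ai) * (1 - gj * aj) * ak) * h2 +
    (ν ^ 2 * (1 - gi * ai) * (1 - gj * aj) * ak ^ 2) * h3

/-- the ninth relation of the product in terms of the eight coordinates of the triple product -/
theorem seg_rel2 (e0 ei ej ek eij eik ejk eijk ai aj ak : E) (m1 : e0 * eik = ei * ek)
    (m2 : e0 * ejk = ej * ek) (m3 : e0 * eijk = ek * eij) (m4 : ei * ejk = ej * eik)
    (m5 : ei * eijk = eij * eik) (m6 : ej * eijk = eij * ejk) :
    (ν * (ek - ai * eik - aj * ejk + ai * aj * eijk - gk * (e0 - ai * ei - aj * ej +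
      ai * aj * eij))) *
    (ν * (eij - ak * eijk - gj * (ei - ak * eik) - gi * (ej - ak * ejk) +
      gi * gj * (e0 - ak * ek))) =
    (ν * (e0 - ai * ei - aj * ej - ak * ek + ai * aj * eij + ai * ak * eik + aj * ak * ejk -
      ai * aj * ak * eijk)) *
    (ν * (eijk - gi * ejk - gj * eik - gk * eij + gi * gj * ek + gi * gk * ej +
      gj * gk * ei - gi * gj * gk * e0)) := by
  linear_combination (-(ν ^ 2 * (1 - gk * ak))) * ((-(gj * (1 - ai * gi))) * m1 +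
    (-(gi * (1 - aj * gj))) * m2 + (1 - ai * aj * gi * gj) * m3 + (ai * gi - aj * gj) * m4 +
    (-(ai * (1 - aj * gj))) * m5 + (-(aj * (1 - ai * gi))) * m6)

/-- the first coordinate as a product -/
theorem sc_eta (hgi : gi ≠ 0) (hgj : gj ≠ 0) (hgk : gk ≠ 0) (hhi : hi ≠ 0) (hhj : hj ≠ 0)
    (hhk : hk ≠ 0) :
    ν * (x - (zi / hi + zj / hj + zk / hk)) +
      -(n * ν / (hi * hj * hk)) * (x' - (bi / gi + bj / gj + bk / gk)) =
      ν * (x - hi⁻¹ * zi - hj⁻¹ * zj - hk⁻¹ * zk + hi⁻¹ * hj⁻¹ * (n * bk / (gk * hk)) +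
        hi⁻¹ * hk⁻¹ * (n * bj / (gj * hj)) + hj⁻¹ * hk⁻¹ * (n * bi / (gi * hi)) -
        hi⁻¹ * hj⁻¹ * hk⁻¹ * (n * x')) := by
  field_simp
  ring

/-- the other coordinates as products -/
theorem sc_y (hgi : gi ≠ 0) (hgj : gj ≠ 0) (hgk : gk ≠ 0) (hhi : hi ≠ 0) (hhj : hj ≠ 0)
    (hhk : hk ≠ 0) :
    (ν * zi * (1 - gi / hi) - gi * (ν * (x - (zi / hi + zj / hj + zk / hk)))) +
      (-(n * ν / (hi * hj * hk)) * bi * (1 - hi / gi) -
      hi * (-(n * ν / (hi * hj * hk)) * (x' - (bi / gi + bj / gj + bk / gk)))) =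
      ν * (zi - hj⁻¹ * (n * bk / (gk * hk)) - hk⁻¹ * (n * bj / (gj * hj)) +
        hj⁻¹ * hk⁻¹ * (n * x') - gi * (x - hj⁻¹ * zj - hk⁻¹ * zk +
        hj⁻¹ * hk⁻¹ * (n * bi / (gi * hi)))) := by
  field_simp
  ring

/-- the conjugate coordinates as products -/
theorem sc_yb (hgj : gj ≠ 0) (hgk : gk ≠ 0) (hhi : hi ≠ 0) (hhj : hj ≠ 0)
    (hhk : hk ≠ 0) (hn : n ≠ 0) (hgi : gi = n ^ 2 / (hi * (gj * hj) * (gk * hk))) :
    (-(n * ν / (hi * hj * hk)) * zk * (1 - hk / gk) -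
      hk * (-(n * ν / (hi * hj * hk)) * (x - (zi / gi + zj / gj + zk / gk)))) +
      (ν * bk * (1 - gk / hk) - gk * (ν * (x' - (bi / hi + bj / hj + bk / hk)))) =
      gk * hk / n * (ν * (n * bk / (gk * hk) - hk⁻¹ * (n * x') - gj * (zi - hk⁻¹ *
        (n * bj / (gj * hj))) - gi * (zj - hk⁻¹ * (n * bi / (gi * hi))) +
      gi * gj * (x - hk⁻¹ * zk))) := by
  subst hgi
  field_simp
  ring

end scalar

theorem univ3 {i j k : Fin 3} (hij : i ≠ j) (hjk : j ≠ k) (hik : i ≠ k) :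
    (Finset.univ : Finset (Fin 3)) = {i, j, k} := by
  revert i j k
  decide

theorem sum3 (f : Fin 3 → E) {i j k : Fin 3} (hij : i ≠ j) (hjk : j ≠ k) (hik : i ≠ k) :
    ∑ l, f l = f i + f j + f k := by
  rw [univ3 hij hjk hik, Finset.sum_insert (by simp [hij, hik]), Finset.sum_pair hjk]
  ring

theorem prod3 (f : Fin 3 → E) {i j k : Fin 3} (hij : i ≠ j) (hjk : j ≠ k) (hik : i ≠ k) :
    f 0 * f 1 * f 2 = f i * f j * f k := by
  rw [← Fin.prod_univ_three f, univ3 hij hjk hik, Finset.prod_insert (by simp [hij, hik]),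
    Finset.prod_pair hjk]
  ring

variable {g gb c : Fin 3 → E} {n ν ν' : E}

/-- the condition on `ν`, `ν'` is symmetric -/
theorem nu_symm (hc : ∀ i, c i = g i * gb i) (hn : n ≠ 0)
    (hnn : n ^ 2 = c 0 * c 1 * c 2) (hν : n * ν' = -(g 0 * g 1 * g 2 * ν)) :
    n * ν = -(gb 0 * gb 1 * gb 2 * ν') := by
  apply mul_left_cancel₀ hn
  have e : n * (n * ν) = n ^ 2 * ν := by ring
  rw [e, hnn, hc, hc, hc]
  linear_combination (gb 0 * gb 1 * gb 2) * hν

/-- `ν'` in terms of `ν` -/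
theorem nu_eq (hgb : ∀ i, gb i ≠ 0) (hc : ∀ i, c i = g i * gb i) (hn : n ≠ 0)
    (hnn : n ^ 2 = c 0 * c 1 * c 2) (hν : n * ν' = -(g 0 * g 1 * g 2 * ν)) {i j k : Fin 3}
    (hij : i ≠ j) (hjk : j ≠ k) (hik : i ≠ k) : ν' = -(n * ν / (gb i * gb j * gb k)) := by
  have h := nu_symm hc hn hnn hν
  rw [prod3 gb hij hjk hik] at h
  rw [h]
  have := hgb i
  have := hgb j
  have := hgb k
  field_simp

/-- the third relation -/
theorem third_rel {ξ ξ' r : E} {z z' : Fin 3 → E} (hn : n ≠ 0)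
    (hnn : n ^ 2 = c 0 * c 1 * c 2)
    (h1 : ∀ i j k, i ≠ j → j ≠ k → i ≠ k → ξ * z' k = c k / n * (z i * z j))
    (h2 : ∀ i j k, i ≠ j → j ≠ k → i ≠ k → ξ' * z k = c k / n * (z' i * z' j))
    (h3 : ∀ k, z k * z' k = r * c k) (hne : ∃ i, z i ≠ 0 ∨ z' i ≠ 0) : ξ * ξ' = r := by
  obtain ⟨k, hk⟩ := hne
  obtain ⟨i, j, hij, hjk, hik⟩ : ∃ i j : Fin 3, i ≠ j ∧ j ≠ k ∧ i ≠ k := by
    clear hk
    revert k
    decide
  have hnn' := hnn
  rw [prod3 c hij hjk hik] at hnn'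
  rcases hk with hk | hk
  · apply mul_right_cancel₀ hk
    have e1 := h2 i j k hij hjk hik
    have e2 := h1 j k i hjk hik.symm hij.symm
    have e3 := h3 j
    field_simp at e1 e2
    apply mul_left_cancel₀ (pow_ne_zero 2 hn)
    linear_combination (n * ξ) * e1 + (c k * z' j) * e2 + (c k * c i * z k) * e3 +
      (-(r * z k)) * hnn'
  · apply mul_right_cancel₀ hk
    have e1 := h1 i j k hij hjk hik
    have e2 := h2 j k i hjk hik.symm hij.symm
    have e3 := h3 j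
    field_simp at e1 e2
    apply mul_left_cancel₀ (pow_ne_zero 2 hn)
    linear_combination (n * ξ') * e1 + (c k * z j) * e2 + (c k * c i * z' k) * e3 +
      (-(r * z' k)) * hnn'

/-- the last coordinate as a product -/
theorem sc_etab {x x' zi zj zk bi bj bk gi gj gk hi hj hk : E} (hgj : gj ≠ 0) (hgk : gk ≠ 0)
    (hhi : hi ≠ 0) (hhj : hj ≠ 0) (hhk : hk ≠ 0) (hn : n ≠ 0)
    (hgi : gi = n ^ 2 / (hi * (gj * hj) * (gk * hk))) :
    n * (-(n * ν / (hi * hj * hk)) * (x - (zi / gi + zj / gj + zk / gk)) +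
      ν * (x' - (bi / hi + bj / hj + bk / hk))) =
      ν * (n * x' - gi * (n * bi / (gi * hi)) - gj * (n * bj / (gj * hj)) -
        gk * (n * bk / (gk * hk)) + gi * gj * zk + gi * gk * zj + gj * gk * zi -
        gi * gj * gk * x) := by
  subst hgi
  field_simp
  ring

/-- the change of the slot maps the cone to the cone -/
theorem slot_cone0 (hg : ∀ i, g i ≠ 0) (hgb : ∀ i, gb i ≠ 0) (hc : ∀ i, c i = g i * gb i)
    (hn : n ≠ 0) (hnn : n ^ 2 = c 0 * c 1 * c 2) (hν : n * ν' = -(g 0 * g 1 * g 2 * ν))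
    {ξ ξ' : E} {z z' : Fin 3 → E}
    (h1 : ∀ i j k, i ≠ j → j ≠ k → i ≠ k → ξ * z' k = c k / n * (z i * z j))
    (h2 : ∀ i j k, i ≠ j → j ≠ k → i ≠ k → ξ' * z k = c k / n * (z' i * z' j))
    (h3 : ∀ k, z k * z' k = ξ * ξ' * c k) (i j k : Fin 3)
    (hij : i ≠ j) (hjk : j ≠ k) (hik : i ≠ k) :
    slX ξ ξ' z z' g gb ν ν' * slY ξ ξ' z z' gb g ν' ν k =
      c k / n * (slY ξ ξ' z z' g gb ν ν' i * slY ξ ξ' z z' g gb ν ν' j) := by
  have hc0 : ∀ i, c i ≠ 0 := fun i => by rw [hc]; exact mul_ne_zero (hg i) (hgb i)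
  have hnn' := hnn
  rw [prod3 c hij hjk hik] at hnn'
  have s1 := nu_eq hgb hc hn hnn hν hij hjk hik
  have s2 := nu_eq hgb hc hn hnn hν hij.symm hik hjk
  have hgi : g i = n ^ 2 / (gb i * (g j * gb j) * (g k * gb k)) := by
    have := hgb i
    have := hgb j
    have := hgb k
    have := hg j
    have := hg k
    rw [hnn', hc, hc, hc]
    field_simp
  -- the four coordinates
  have f0 : slX ξ ξ' z z' g gb ν ν' = ν * (ξ - (z i / gb i + z j / gb j + z k / gb k)) +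
      -(n * ν / (gb i * gb j * gb k)) * (ξ' - (z' i / g i + z' j / g j + z' k / g k)) := by
    unfold slX stX
    rw [sum3 _ hij hjk hik, sum3 _ hij hjk hik, s1]
  have fi : slY ξ ξ' z z' g gb ν ν' i =
      (ν * z i * (1 - g i / gb i) - g i * (ν * (ξ - (z i / gb i + z j / gb j + z k / gb k)))) +
      (-(n * ν / (gb i * gb j * gb k)) * z' i * (1 - gb i / g i) -
      gb i * (-(n * ν / (gb i * gb j * gb k)) * (ξ' - (z' i / g i + z' j / g j +
        z' k / g k)))) := by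
    unfold slY stY stX
    rw [sum3 _ hij hjk hik, sum3 _ hij hjk hik, s1]
  have fj : slY ξ ξ' z z' g gb ν ν' j =
      (ν * z j * (1 - g j / gb j) - g j * (ν * (ξ - (z j / gb j + z i / gb i + z k / gb k)))) +
      (-(n * ν / (gb j * gb i * gb k)) * z' j * (1 - gb j / g j) -
      gb j * (-(n * ν / (gb j * gb i * gb k)) * (ξ' - (z' j / g j + z' i / g i +
        z' k / g k)))) := by
    unfold slY stY stX
    rw [sum3 _ hij.symm hik hjk, sum3 _ hij.symm hik hjk, s2]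
  have fk : slY ξ ξ' z z' gb g ν' ν k =
      (-(n * ν / (gb i * gb j * gb k)) * z k * (1 - gb k / g k) -
      gb k * (-(n * ν / (gb i * gb j * gb k)) * (ξ - (z i / g i + z j / g j + z k / g k)))) +
      (ν * z' k * (1 - g k / gb k) - g k * (ν * (ξ' - (z' i / gb i + z' j / gb j +
        z' k / gb k)))) := by
    unfold slY stY stX
    rw [sum3 _ hij hjk hik, sum3 _ hij hjk hik, s1]
  rw [sc_eta (hg i) (hg j) (hg k) (hgb i) (hgb j) (hgb k)] at f0
  rw [sc_y (hg i) (hg j) (hg k) (hgb i) (hgb j) (hgb k)] at fi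
  rw [sc_y (hg j) (hg i) (hg k) (hgb j) (hgb i) (hgb k)] at fj
  rw [sc_yb (hg j) (hg k) (hgb i) (hgb j) (hgb k) hn hgi] at fk
  have key := seg_rel (gi := g i) (gj := g j) (ν := ν) ξ (z i) (z j) (z k)
    (n * z' k / (g k * gb k)) (n * z' j / (g j * gb j)) (n * z' i / (g i * gb i)) (n * ξ')
    (gb i)⁻¹ (gb j)⁻¹ (gb k)⁻¹ ?_ ?_ ?_
  · rw [f0, fi, fj, fk, hc k]
    linear_combination (g k * gb k / n) * key
  · have e := h1 i j k hij hjk hik
    rw [← hc k]
    have := hc0 k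
    field_simp at e ⊢
    linear_combination e
  · rw [← hc, ← hc, ← hc]
    have e1 := h3 i
    have e2 := h3 j
    have e3 := h3 k
    have := hc0 i
    have := hc0 j
    have := hc0 k
    have g1 : z i * (n * z' i / c i) = n * (ξ * ξ') := by
      field_simp
      linear_combination e1
    have g2 : z j * (n * z' j / c j) = n * (ξ * ξ') := by
      field_simp
      linear_combination e2
    have g3 : z k * (n * z' k / c k) = n * (ξ * ξ') := by
      field_simp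
      linear_combination e3
    rw [g1, g2, g3]
    ring
  · rw [← hc, ← hc]
    have e := h2 i j k hij hjk hik
    have := hc0 i
    have := hc0 j
    field_simp at e ⊢
    apply mul_left_cancel₀ hn
    linear_combination (c i * c j) * e - (z' i * z' j) * hnn'

/-- the ninth equation of the image -/
theorem slot_ninth (hg : ∀ i, g i ≠ 0) (hgb : ∀ i, gb i ≠ 0) (hc : ∀ i, c i = g i * gb i)
    (hn : n ≠ 0) (hnn : n ^ 2 = c 0 * c 1 * c 2) (hν : n * ν' = -(g 0 * g 1 * g 2 * ν))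
    {ξ ξ' : E} {z z' : Fin 3 → E}
    (h1 : ∀ i j k, i ≠ j → j ≠ k → i ≠ k → ξ * z' k = c k / n * (z i * z j))
    (h2 : ∀ i j k, i ≠ j → j ≠ k → i ≠ k → ξ' * z k = c k / n * (z' i * z' j))
    (h3 : ∀ k, z k * z' k = ξ * ξ' * c k) (i j k : Fin 3)
    (hij : i ≠ j) (hjk : j ≠ k) (hik : i ≠ k) :
    slY ξ ξ' z z' g gb ν ν' k * slY ξ ξ' z z' gb g ν' ν k =
      slX ξ ξ' z z' g gb ν ν' * slX ξ ξ' z z' gb g ν' ν * c k := by
  have hc0 : ∀ i, c i ≠ 0 := fun i => by rw [hc]; exact mul_ne_zero (hg i) (hgb i)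
  have hnn' := hnn
  rw [prod3 c hij hjk hik] at hnn'
  have s1 := nu_eq hgb hc hn hnn hν hij hjk hik
  have s4 := nu_eq hgb hc hn hnn hν hik.symm hij hjk.symm
  have hgi : g i = n ^ 2 / (gb i * (g j * gb j) * (g k * gb k)) := by
    have := hgb i
    have := hgb j
    have := hgb k
    have := hg j
    have := hg k
    rw [hnn', hc, hc, hc]
    field_simp
  -- the four coordinates
  have f0 : slX ξ ξ' z z' g gb ν ν' = ν * (ξ - (z i / gb i + z j / gb j + z k / gb k)) +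
      -(n * ν / (gb i * gb j * gb k)) * (ξ' - (z' i / g i + z' j / g j + z' k / g k)) := by
    unfold slX stX
    rw [sum3 _ hij hjk hik, sum3 _ hij hjk hik, s1]
  have f3 : n * slX ξ ξ' z z' gb g ν' ν =
      n * (-(n * ν / (gb i * gb j * gb k)) * (ξ - (z i / g i + z j / g j + z k / g k)) +
        ν * (ξ' - (z' i / gb i + z' j / gb j + z' k / gb k))) := by
    unfold slX stX
    rw [sum3 _ hij hjk hik, sum3 _ hij hjk hik, s1]
  have fi : slY ξ ξ' z z' g gb ν ν' k =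
      (ν * z k * (1 - g k / gb k) - g k * (ν * (ξ - (z k / gb k + z i / gb i + z j / gb j)))) +
      (-(n * ν / (gb k * gb i * gb j)) * z' k * (1 - gb k / g k) -
      gb k * (-(n * ν / (gb k * gb i * gb j)) * (ξ' - (z' k / g k + z' i / g i +
        z' j / g j)))) := by
    unfold slY stY stX
    rw [sum3 _ hik.symm hij hjk.symm, sum3 _ hik.symm hij hjk.symm, s4]
  have fk : slY ξ ξ' z z' gb g ν' ν k =
      (-(n * ν / (gb i * gb j * gb k)) * z k * (1 - gb k / g k) -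
      gb k * (-(n * ν / (gb i * gb j * gb k)) * (ξ - (z i / g i + z j / g j + z k / g k)))) +
      (ν * z' k * (1 - g k / gb k) - g k * (ν * (ξ' - (z' i / gb i + z' j / gb j +
        z' k / gb k)))) := by
    unfold slY stY stX
    rw [sum3 _ hij hjk hik, sum3 _ hij hjk hik, s1]
  rw [sc_eta (hg i) (hg j) (hg k) (hgb i) (hgb j) (hgb k)] at f0
  rw [sc_etab (hg j) (hg k) (hgb i) (hgb j) (hgb k) hn hgi] at f3
  rw [sc_y (hg k) (hg i) (hg j) (hgb k) (hgb i) (hgb j)] at fi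
  rw [sc_yb (hg j) (hg k) (hgb i) (hgb j) (hgb k) hn hgi] at fk
  have g1 : ∀ l, z l * (n * z' l / (g l * gb l)) = n * (ξ * ξ') := fun l => by
    have e1 := h3 l
    have := hc0 l
    rw [← hc l]
    field_simp
    linear_combination e1
  have g2 : ∀ a b d, a ≠ b → b ≠ d → a ≠ d → ξ * (n * z' d / (g d * gb d)) = z a * z b :=
    fun a b d hab hbd had => by
      have e := h1 a b d hab hbd had
      rw [← hc d]
      have := hc0 d
      field_simp at e ⊢
      linear_combination e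
  have g3 : ∀ a b d, a ≠ b → b ≠ d → a ≠ d → z d * (n * ξ') =
      (n * z' a / (g a * gb a)) * (n * z' b / (g b * gb b)) :=
    fun a b d hab hbd had => by
      have e := h2 a b d hab hbd had
      have hnd := hnn
      rw [prod3 c hab hbd had] at hnd
      rw [← hc, ← hc]
      have := hc0 a
      have := hc0 b
      field_simp at e ⊢
      apply mul_left_cancel₀ hn
      linear_combination (c a * c b) * e - (z' a * z' b) * hnd
  have key := seg_rel2 (gi := g i) (gj := g j) (gk := g k) (ν := ν) ξ (z i) (z j) (z k)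
    (n * z' k / (g k * gb k)) (n * z' j / (g j * gb j)) (n * z' i / (g i * gb i)) (n * ξ')
    (gb i)⁻¹ (gb j)⁻¹ (gb k)⁻¹ (g2 i k j hik hjk.symm hij)
    (g2 j k i hjk hik.symm hij.symm) (by rw [g1 k]; ring) (by rw [g1 i, g1 j])
    (by rw [g3 k j i hjk.symm hij.symm hik.symm]) (by rw [g3 k i j hik.symm hij hjk.symm])
  have aux : ∀ Y A F : E, n * (Y * (A / n * F)) = A * (Y * F) := fun Y A F => by field_simp
  apply mul_left_cancel₀ hn
  rw [fi, fk, aux, key, ← f3, ← f0, hc k]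
  ring

/-- **(I2)** the change of the slot maps the cone to the cone -/
theorem slot_cone (hg : ∀ i, g i ≠ 0) (hgb : ∀ i, gb i ≠ 0) (hc : ∀ i, c i = g i * gb i)
    (hn : n ≠ 0) (hnn : n ^ 2 = c 0 * c 1 * c 2) (hν : n * ν' = -(g 0 * g 1 * g 2 * ν))
    {ξ ξ' r : E} {z z' : Fin 3 → E}
    (h1 : ∀ i j k, i ≠ j → j ≠ k → i ≠ k → ξ * z' k = c k / n * (z i * z j))
    (h2 : ∀ i j k, i ≠ j → j ≠ k → i ≠ k → ξ' * z k = c k / n * (z' i * z' j))
    (h3 : ∀ k, z k * z' k = r * c k) (hne : ∃ i, z i ≠ 0 ∨ z' i ≠ 0) (i j k : Fin 3)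
    (hij : i ≠ j) (hjk : j ≠ k) (hik : i ≠ k) :
    slX ξ ξ' z z' g gb ν ν' * slY ξ ξ' z z' gb g ν' ν k =
      c k / n * (slY ξ ξ' z z' g gb ν ν' i * slY ξ ξ' z z' g gb ν ν' j) := by
  have hr := third_rel hn hnn h1 h2 h3 hne
  exact slot_cone0 hg hgb hc hn hnn hν h1 h2 (fun k => by rw [h3, hr]) i j k hij hjk hik

/-- **(I2)** the conjugate equations -/
theorem slot_cone' (hg : ∀ i, g i ≠ 0) (hgb : ∀ i, gb i ≠ 0) (hc : ∀ i, c i = g i * gb i)
    (hn : n ≠ 0) (hnn : n ^ 2 = c 0 * c 1 * c 2) (hν : n * ν' = -(g 0 * g 1 * g 2 * ν))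
    {ξ ξ' r : E} {z z' : Fin 3 → E}
    (h1 : ∀ i j k, i ≠ j → j ≠ k → i ≠ k → ξ * z' k = c k / n * (z i * z j))
    (h2 : ∀ i j k, i ≠ j → j ≠ k → i ≠ k → ξ' * z k = c k / n * (z' i * z' j))
    (h3 : ∀ k, z k * z' k = r * c k) (hne : ∃ i, z i ≠ 0 ∨ z' i ≠ 0) (i j k : Fin 3)
    (hij : i ≠ j) (hjk : j ≠ k) (hik : i ≠ k) :
    slX ξ ξ' z z' gb g ν' ν * slY ξ ξ' z z' g gb ν ν' k =
      c k / n * (slY ξ ξ' z z' gb g ν' ν i * slY ξ ξ' z z' gb g ν' ν j) :=
  slot_cone hgb hg (fun i => by rw [hc, mul_comm]) hn hnn (nu_symm hc hn hnn hν) h1 h2 h3 hne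
    i j k hij hjk hik

/-- the inverse transformation -/
theorem seg_inv (e0 ei ej ek eij eik ejk eijk ai aj ak gi gj gk : E) (hν : ν ≠ 0)
    (hi : 1 - gi * ai ≠ 0) (hj : 1 - gj * aj ≠ 0) (hk : 1 - gk * ak ≠ 0)
    (f0 : ν * (e0 - ai * ei - aj * ej - ak * ek + ai * aj * eij + ai * ak * eik + aj * ak * ejk -
      ai * aj * ak * eijk) = 0)
    (fi : ν * (ei - aj * eij - ak * eik + aj * ak * eijk - gi * (e0 - aj * ej - ak * ek +
      aj * ak * ejk)) = 0)
    (fj : ν * (ej - ai * eij - ak * ejk + ai * ak * eijk - gj * (e0 - ai * ei - ak * ek +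
      ai * ak * eik)) = 0)
    (fk : ν * (ek - ai * eik - aj * ejk + ai * aj * eijk - gk * (e0 - ai * ei - aj * ej +
      ai * aj * eij)) = 0)
    (fij : ν * (eij - ak * eijk - gj * (ei - ak * eik) - gi * (ej - ak * ejk) +
      gi * gj * (e0 - ak * ek)) = 0)
    (fik : ν * (eik - aj * eijk - gk * (ei - aj * eij) - gi * (ek - aj * ejk) +
      gi * gk * (e0 - aj * ej)) = 0)
    (fjk : ν * (ejk - ai * eijk - gk * (ej - ai * eij) - gj * (ek - ai * eik) +
      gj * gk * (e0 - ai * ei)) = 0)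
    (fijk : ν * (eijk - gi * ejk - gj * eik - gk * eij + gi * gj * ek + gi * gk * ej +
      gj * gk * ei - gi * gj * gk * e0) = 0) : e0 = 0 ∧ ei = 0 := by
  have hP : ν * ((1 - gi * ai) * (1 - gj * aj) * (1 - gk * ak)) ≠ 0 :=
    mul_ne_zero hν (mul_ne_zero (mul_ne_zero hi hj) hk)
  constructor
  · refine (mul_eq_zero.1 ?_).resolve_left hP
    linear_combination f0 + ai * fi + aj * fj + ak * fk + ai * aj * fij + ai * ak * fik +
      aj * ak * fjk + ai * aj * ak * fijk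
  · refine (mul_eq_zero.1 ?_).resolve_left hP
    linear_combination gi * (f0 + aj * fj + ak * fk + aj * ak * fjk) + (fi + aj * fij +
      ak * fik + aj * ak * fijk)

/-- the ninth equation of the image, hypotheses as in `slot_cone` -/
theorem slot_third (hg : ∀ i, g i ≠ 0) (hgb : ∀ i, gb i ≠ 0) (hc : ∀ i, c i = g i * gb i)
    (hn : n ≠ 0) (hnn : n ^ 2 = c 0 * c 1 * c 2) (hν : n * ν' = -(g 0 * g 1 * g 2 * ν))
    {ξ ξ' r : E} {z z' : Fin 3 → E}
    (h1 : ∀ i j k, i ≠ j → j ≠ k → i ≠ k → ξ * z' k = c k / n * (z i * z j))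
    (h2 : ∀ i j k, i ≠ j → j ≠ k → i ≠ k → ξ' * z k = c k / n * (z' i * z' j))
    (h3 : ∀ k, z k * z' k = r * c k) (hne : ∃ i, z i ≠ 0 ∨ z' i ≠ 0) (k : Fin 3) :
    slY ξ ξ' z z' g gb ν ν' k * slY ξ ξ' z z' gb g ν' ν k =
      slX ξ ξ' z z' g gb ν ν' * slX ξ ξ' z z' gb g ν' ν * c k := by
  have hr := third_rel hn hnn h1 h2 h3 hne
  obtain ⟨i, j, hij, hjk, hik⟩ : ∃ i j : Fin 3, i ≠ j ∧ j ≠ k ∧ i ≠ k := by
    clear h1 h2 h3 hne
    revert k
    decide
  exact slot_ninth hg hgb hc hn hnn hν h1 h2 (fun k => by rw [h3, hr]) i j k hij hjk hik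

/-- the half of the injectivity -/
theorem slot_inj1 (hg : ∀ i, g i ≠ 0) (hgb : ∀ i, gb i ≠ 0) (hc : ∀ i, c i = g i * gb i)
    (hn : n ≠ 0) (hnn : n ^ 2 = c 0 * c 1 * c 2) (hν : n * ν' = -(g 0 * g 1 * g 2 * ν))
    (hν0 : ν ≠ 0) (hgg : ∀ i, g i ≠ gb i) {ξ ξ' : E} {z z' : Fin 3 → E}
    (hX : slX ξ ξ' z z' g gb ν ν' = 0) (hX' : slX ξ ξ' z z' gb g ν' ν = 0)
    (hY : ∀ i, slY ξ ξ' z z' g gb ν ν' i = 0) (hY' : ∀ i, slY ξ ξ' z z' gb g ν' ν i = 0) :
    ξ = 0 ∧ ∀ i, z i = 0 := by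
  have main : ∀ i j k : Fin 3, i ≠ j → j ≠ k → i ≠ k → ξ = 0 ∧ z i = 0 := by
    intro i j k hij hjk hik
    have hnn' := hnn
    rw [prod3 c hij hjk hik] at hnn'
    have hc0 : ∀ i, c i ≠ 0 := fun i => by rw [hc]; exact mul_ne_zero (hg i) (hgb i)
    have s1 := nu_eq hgb hc hn hnn hν hij hjk hik
    have s2 := nu_eq hgb hc hn hnn hν hij.symm hik hjk
    have s3 := nu_eq hgb hc hn hnn hν hik hjk.symm hij
    have s4 := nu_eq hgb hc hn hnn hν hik.symm hij hjk.symm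
    have s5 := nu_eq hgb hc hn hnn hν hjk hik.symm hij.symm
    have hgi : g i = n ^ 2 / (gb i * (g j * gb j) * (g k * gb k)) := by
      have := hgb i
      have := hgb j
      have := hgb k
      have := hg j
      have := hg k
      rw [hnn', hc, hc, hc]
      field_simp
    have hgj : g j = n ^ 2 / (gb j * (g k * gb k) * (g i * gb i)) := by
      have := hgb i
      have := hgb j
      have := hgb k
      have := hg i
      have := hg k
      rw [hnn', hc, hc, hc]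
      field_simp
    have f0 : ν * (ξ - (z i / gb i + z j / gb j + z k / gb k)) +
        -(n * ν / (gb i * gb j * gb k)) * (ξ' - (z' i / g i + z' j / g j + z' k / g k)) = 0 := by
      unfold slX stX at hX
      rw [sum3 _ hij hjk hik, sum3 _ hij hjk hik, s1] at hX
      exact hX
    have f3 : n * (-(n * ν / (gb i * gb j * gb k)) * (ξ - (z i / g i + z j / g j + z k / g k)) +
        ν * (ξ' - (z' i / gb i + z' j / gb j + z' k / gb k))) = 0 := by
      unfold slX stX at hX'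
      rw [sum3 _ hij hjk hik, sum3 _ hij hjk hik, s1] at hX'
      rw [hX', mul_zero]
    have fi := hY i
    unfold slY stY stX at fi
    rw [sum3 _ hij hjk hik, sum3 _ hij hjk hik, s1] at fi
    have fj := hY j
    unfold slY stY stX at fj
    rw [sum3 _ hij.symm hik hjk, sum3 _ hij.symm hik hjk, s2] at fj
    have fk := hY k
    unfold slY stY stX at fk
    rw [sum3 _ hik.symm hij hjk.symm, sum3 _ hik.symm hij hjk.symm, s4] at fk
    have fij := hY' k
    unfold slY stY stX at fij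
    rw [sum3 _ hij hjk hik, sum3 _ hij hjk hik, s1] at fij
    have fik := hY' j
    unfold slY stY stX at fik
    rw [sum3 _ hik hjk.symm hij, sum3 _ hik hjk.symm hij, s3] at fik
    have fjk := hY' i
    unfold slY stY stX at fjk
    rw [sum3 _ hjk hik.symm hij.symm, sum3 _ hjk hik.symm hij.symm, s5] at fjk
    rw [sc_eta (hg i) (hg j) (hg k) (hgb i) (hgb j) (hgb k)] at f0
    rw [sc_etab (hg j) (hg k) (hgb i) (hgb j) (hgb k) hn hgi] at f3
    rw [sc_y (hg i) (hg j) (hg k) (hgb i) (hgb j) (hgb k)] at fi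
    rw [sc_y (hg j) (hg i) (hg k) (hgb j) (hgb i) (hgb k)] at fj
    rw [sc_y (hg k) (hg i) (hg j) (hgb k) (hgb i) (hgb j)] at fk
    rw [sc_yb (hg j) (hg k) (hgb i) (hgb j) (hgb k) hn hgi] at fij
    rw [sc_yb (hg k) (hg j) (hgb i) (hgb k) (hgb j) hn (by rw [hgi]; congr 1; ring)] at fik
    rw [sc_yb (hg k) (hg i) (hgb j) (hgb k) (hgb i) hn hgj] at fjk
    have n1 : ∀ i, g i * gb i / n ≠ 0 := fun i =>
      div_ne_zero (mul_ne_zero (hg i) (hgb i)) hn
    have n2 : ∀ i, 1 - g i * (gb i)⁻¹ ≠ 0 := fun i h => hgg i (by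
      have := hgb i
      field_simp at h
      linear_combination -h)
    have fij' := (mul_eq_zero.1 fij).resolve_left (n1 k)
    have fik' := (mul_eq_zero.1 fik).resolve_left (n1 j)
    have fjk' := (mul_eq_zero.1 fjk).resolve_left (n1 i)
    refine seg_inv (ν := ν) ξ (z i) (z j) (z k) (n * z' k / (g k * gb k))
      (n * z' j / (g j * gb j)) (n * z' i / (g i * gb i)) (n * ξ')
      (gb i)⁻¹ (gb j)⁻¹ (gb k)⁻¹ (g i) (g j) (g k) hν0 (n2 i) (n2 j) (n2 k) f0 ?_ ?_ ?_ ?_ ?_ ?_ ?_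
    · linear_combination fi
    · linear_combination fj
    · linear_combination fk
    · linear_combination fij'
    · linear_combination fik'
    · linear_combination fjk'
    · linear_combination f3
  refine ⟨(main 0 1 2 (by decide) (by decide) (by decide)).1, fun i => ?_⟩
  fin_cases i
  · exact (main 0 1 2 (by decide) (by decide) (by decide)).2
  · exact (main 1 2 0 (by decide) (by decide) (by decide)).2
  · exact (main 2 0 1 (by decide) (by decide) (by decide)).2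

/-- **(I2)** the change of the slot is injective -/
theorem slot_inj (hg : ∀ i, g i ≠ 0) (hgb : ∀ i, gb i ≠ 0) (hc : ∀ i, c i = g i * gb i)
    (hn : n ≠ 0) (hnn : n ^ 2 = c 0 * c 1 * c 2) (hν : n * ν' = -(g 0 * g 1 * g 2 * ν))
    (hν0 : ν ≠ 0) (hν0' : ν' ≠ 0) (hgg : ∀ i, g i ≠ gb i) {ξ ξ' : E} {z z' : Fin 3 → E}
    (hX : slX ξ ξ' z z' g gb ν ν' = 0) (hX' : slX ξ ξ' z z' gb g ν' ν = 0)
    (hY : ∀ i, slY ξ ξ' z z' g gb ν ν' i = 0) (hY' : ∀ i, slY ξ ξ' z z' gb g ν' ν i = 0) :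
    ξ = 0 ∧ ξ' = 0 ∧ (∀ i, z i = 0) ∧ ∀ i, z' i = 0 := by
  obtain ⟨a1, a2⟩ := slot_inj1 hg hgb hc hn hnn hν hν0 hgg hX hX' hY hY'
  obtain ⟨b1, b2⟩ := slot_inj1 (ξ := ξ') (ξ' := ξ) (z := z') (z' := z) hgb hg
    (fun i => by rw [hc, mul_comm]) hn hnn (nu_symm hc hn hnn hν) hν0' (fun i => (hgg i).symm)
    (by unfold slX at hX ⊢; rw [add_comm]; exact hX)
    (by unfold slX at hX' ⊢; rw [add_comm]; exact hX')
    (fun i => by have := hY i; unfold slY at this ⊢; rw [add_comm]; exact this)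
    (fun i => by have := hY' i; unfold slY at this ⊢; rw [add_comm]; exact this)
  exact ⟨a1, b1, a2, b2⟩

/-- **(I2)** in the form with the indices `k + 1`, `k + 2` -/
theorem slot_rel (hg : ∀ i, g i ≠ 0) (hgb : ∀ i, gb i ≠ 0) (hc : ∀ i, c i = g i * gb i)
    (hn : n ≠ 0) (hnn : n ^ 2 = c 0 * c 1 * c 2) (hν : n * ν' = -(g 0 * g 1 * g 2 * ν))
    {ξ ξ' : E} {z z' : Fin 3 → E} (h1 : ∀ k, ξ * z' k = c k / n * (z (k + 1) * z (k + 2)))
    (h2 : ∀ k, ξ' * z k = c k / n * (z' (k + 1) * z' (k + 2)))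
    (h3 : ∀ k, z k * z' k = ξ * ξ' * c k) :
    (∀ k, slX ξ ξ' z z' g gb ν ν' * slY ξ ξ' z z' gb g ν' ν k =
      c k / n * (slY ξ ξ' z z' g gb ν ν' (k + 1) * slY ξ ξ' z z' g gb ν ν' (k + 2))) ∧
    (∀ k, slX ξ ξ' z z' gb g ν' ν * slY ξ ξ' z z' g gb ν ν' k =
      c k / n * (slY ξ ξ' z z' gb g ν' ν (k + 1) * slY ξ ξ' z z' gb g ν' ν (k + 2))) ∧
    (∀ k, slY ξ ξ' z z' g gb ν ν' k * slY ξ ξ' z z' gb g ν' ν k =
      slX ξ ξ' z z' g gb ν ν' * slX ξ ξ' z z' gb g ν' ν * c k) := by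
  have d : ∀ i j k : Fin 3, i ≠ j → j ≠ k → i ≠ k →
      (i = k + 1 ∧ j = k + 2) ∨ (i = k + 2 ∧ j = k + 1) := by decide
  have h1' : ∀ i j k, i ≠ j → j ≠ k → i ≠ k → ξ * z' k = c k / n * (z i * z j) := by
    intro i j k hij hjk hik
    rcases d i j k hij hjk hik with ⟨rfl, rfl⟩ | ⟨rfl, rfl⟩
    · exact h1 k
    · rw [h1 k, mul_comm (z (k + 1))]
  have h2' : ∀ i j k, i ≠ j → j ≠ k → i ≠ k → ξ' * z k = c k / n * (z' i * z' j) := by
    intro i j k hij hjk hik
    rcases d i j k hij hjk hik with ⟨rfl, rfl⟩ | ⟨rfl, rfl⟩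
    · exact h2 k
    · rw [h2 k, mul_comm (z' (k + 1))]
  have e : ∀ k : Fin 3, k + 1 ≠ k + 2 ∧ k + 2 ≠ k ∧ k + 1 ≠ k := by decide
  refine ⟨fun k => ?_, fun k => ?_, fun k => ?_⟩
  · exact slot_cone0 hg hgb hc hn hnn hν h1' h2' h3 _ _ _ (e k).1 (e k).2.1 (e k).2.2
  · exact slot_cone0 hgb hg (fun i => by rw [hc, mul_comm]) hn hnn (nu_symm hc hn hnn hν)
      h1' h2' h3 _ _ _ (e k).1 (e k).2.1 (e k).2.2
  · exact slot_ninth hg hgb hc hn hnn hν h1' h2' h3 _ _ _ (e k).1 (e k).2.1 (e k).2.2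

end Pool.Agent.GSQ
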