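import Pool.Agent.GSQ.Cone
import Pool.Agent.GSQ.SlotMap

/-!
# GSQ: the isomorphism `J`

`F₁`, `F₂` are frames of two pencils over `K`, with the same `M` and the same constant `c` in `M`,
`c = g₀ ^ 2 - d₁ d₂ g₁ ^ 2`. The map `Jf` in coordinates: for `ξ` in `L₁` and `z` in `M L₁` let
`g = g₀ + g₁ ε`, `ν = ν₀ + ν₁ ε`, `ε = √d₁ √d₂`, `T = Tr(z / ḡ)`, `X = ν (ξ - T)`,
`Y = ν z (1 - g / ḡ) - g X`; the image is `η = X + X'`, `y = Y + Y'`, where `'` is the automorphism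
`√d₁ ↦ - √d₁`, `√d₂ ↦ √d₂`.
-/

set_option autoImplicit false

noncomputable section

namespace Pool.Agent.GSQ.JM

open Matrix Pool.Agent.GSH

variable {K : Type} [Field K] {M : Type} [Field M] [Algebra K M]

/-! ### Linearity of the coordinates -/

section Lin

variable {H : Pen K} (E : Eig H M)

theorem bl_vK_add (N : Matrix (Fin 6) (Fin 6) K) (x : Fin 6 → M) (u u' : Fin 6 → K) :
    bl N x (vK (u + u')) = bl N x (vK u) + bl N x (vK u') := by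
  rw [← bl_add_right]
  congr 1
  funext i
  simp [vK]

theorem bl_vK_smul (N : Matrix (Fin 6) (Fin 6) K) (x : Fin 6 → M) (a : K) (u : Fin 6 → K) :
    bl N x (vK (a • u)) = a • bl N x (vK u) := by
  rw [Algebra.smul_def a (bl N x (vK u)), ← bl_smul_right]
  congr 1
  funext i
  simp [vK]

theorem aK_add (u u' : Fin 6 → K) : E.aK (u + u') = E.aK u + E.aK u' := by
  unfold Eig.aK
  rw [bl_vK_add, add_div]

theorem aK_smul (a : K) (u : Fin 6 → K) : E.aK (a • u) = a • E.aK u := by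
  unfold Eig.aK
  rw [bl_vK_smul, smul_div_assoc]

theorem bK_add (u u' : Fin 6 → K) : E.bK (u + u') = E.bK u + E.bK u' := by
  unfold Eig.bK
  rw [mulVec_add, aK_add, add_div]

theorem bK_smul (a : K) (u : Fin 6 → K) : E.bK (a • u) = a • E.bK u := by
  unfold Eig.bK
  rw [mulVec_smul, aK_smul, smul_div_assoc]

theorem vec_add (a b a' b' : M) : E.vec (a + a') (b + b') = E.vec a b + E.vec a' b' := by
  funext l
  simp only [Eig.vec, Pi.add_apply]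
  rw [← map_add]
  congr 1
  ring

theorem vec_smul (r : K) (a b : M) : E.vec (r • a) (r • b) = r • E.vec a b := by
  funext l
  simp only [Eig.vec, Pi.smul_apply]
  rw [← map_smul]
  congr 1
  rw [smul_add, smul_mul_assoc, smul_mul_assoc]

variable {Ω : Type} [Field Ω] [Algebra K Ω] (s : Fin 3 → (M →ₐ[K] Ω))

theorem ai_add (u u' : Fin 6 → Ω) (i : Fin 3) : E.ai s (u + u') i = E.ai s u i + E.ai s u' i := by
  unfold Eig.ai
  rw [bl_add_right, add_div]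

theorem ai_smul (a : Ω) (u : Fin 6 → Ω) (i : Fin 3) : E.ai s (a • u) i = a * E.ai s u i := by
  unfold Eig.ai
  rw [bl_smul_right, mul_div_assoc]

theorem zi_add (δ : Ω) (u u' : Fin 6 → Ω) (i : Fin 3) :
    E.zi s δ (u + u') i = E.zi s δ u i + E.zi s δ u' i := by
  unfold Eig.zi Eig.bi
  rw [mulVec_add, ai_add, ai_add]
  ring

theorem zi_smul (δ a : Ω) (u : Fin 6 → Ω) (i : Fin 3) :
    E.zi s δ (a • u) i = a * E.zi s δ u i := by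
  unfold Eig.zi Eig.bi
  rw [mulVec_smul, ai_smul, ai_smul]
  ring

end Lin

/-! ### The map -/

section Map

variable {H₁ H₂ : Pen K} {c : M} (F₁ : Fr H₁ M c) (F₂ : Fr H₂ M c) (g₀ g₁ : M) (ν₀ ν₁ : K)

/-- the four components of `ξ - T` with respect to `1`, `√d₁`, `√d₂`, `√d₁ √d₂` -/
def tt (w : I8 → K) : Fin 4 → K :=
  ![w (Sum.inl 0) - Algebra.trace K M (F₁.aK (pU w) * (g₀ / c)),
    w (Sum.inl 1) - Algebra.trace K M (F₁.bK (pU w) * (g₀ / c)),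
    -(H₁.d * Algebra.trace K M (F₁.bK (pU w) * (g₁ / c))),
    -Algebra.trace K M (F₁.aK (pU w) * (g₁ / c))]

theorem tt_add (w w' : I8 → K) (i : Fin 4) :
    tt F₁ g₀ g₁ (w + w') i = tt F₁ g₀ g₁ w i + tt F₁ g₀ g₁ w' i := by
  have h : pU (w + w') = pU w + pU w' := rfl
  fin_cases i <;> simp [tt, h, aK_add, bK_add, add_mul, mul_add] <;> ring

theorem tt_smul (r : K) (w : I8 → K) (i : Fin 4) :
    tt F₁ g₀ g₁ (r • w) i = r * tt F₁ g₀ g₁ w i := by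
  have h : pU (r • w) = r • pU w := rfl
  fin_cases i <;> simp [tt, h, aK_smul, bK_smul] <;> ring

/-- the four components of `X` -/
def xx (w : I8 → K) : Fin 4 → K :=
  ![ν₀ * tt F₁ g₀ g₁ w 0 + ν₁ * (H₁.d * H₂.d) * tt F₁ g₀ g₁ w 3,
    ν₀ * tt F₁ g₀ g₁ w 1 + ν₁ * H₂.d * tt F₁ g₀ g₁ w 2,
    ν₀ * tt F₁ g₀ g₁ w 2 + ν₁ * H₁.d * tt F₁ g₀ g₁ w 1,
    ν₀ * tt F₁ g₀ g₁ w 3 + ν₁ * tt F₁ g₀ g₁ w 0]

theorem xx_add (w w' : I8 → K) (i : Fin 4) :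
    xx F₁ (H₂ := H₂) g₀ g₁ ν₀ ν₁ (w + w') i =
      xx F₁ (H₂ := H₂) g₀ g₁ ν₀ ν₁ w i + xx F₁ (H₂ := H₂) g₀ g₁ ν₀ ν₁ w' i := by
  fin_cases i <;> simp [xx, tt_add] <;> ring

theorem xx_smul (r : K) (w : I8 → K) (i : Fin 4) :
    xx F₁ (H₂ := H₂) g₀ g₁ ν₀ ν₁ (r • w) i = r * xx F₁ (H₂ := H₂) g₀ g₁ ν₀ ν₁ w i := by
  fin_cases i <;> simp [xx, tt_smul] <;> ring

/-- the two components of `y` -/
def yy (w : I8 → K) : Fin 2 → M :=
  ![2 * (-2 * (g₁ / c) * (algebraMap K M ν₀ * g₁ + algebraMap K M ν₁ * g₀) *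
      algebraMap K M (H₁.d * H₂.d) * F₁.aK (pU w) -
      g₀ * algebraMap K M (xx F₁ (H₂ := H₂) g₀ g₁ ν₀ ν₁ w 0) -
      g₁ * algebraMap K M (H₁.d * H₂.d * xx F₁ (H₂ := H₂) g₀ g₁ ν₀ ν₁ w 3)),
    2 * (-2 * (g₁ / c) * (algebraMap K M ν₀ * g₀ + algebraMap K M (ν₁ * (H₁.d * H₂.d)) * g₁) *
      algebraMap K M H₁.d * F₁.bK (pU w) -
      g₀ * algebraMap K M (xx F₁ (H₂ := H₂) g₀ g₁ ν₀ ν₁ w 2) -
      g₁ * algebraMap K M (H₁.d * xx F₁ (H₂ := H₂) g₀ g₁ ν₀ ν₁ w 1))]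

theorem yy_add (w w' : I8 → K) (i : Fin 2) :
    yy F₁ (H₂ := H₂) g₀ g₁ ν₀ ν₁ (w + w') i =
      yy F₁ (H₂ := H₂) g₀ g₁ ν₀ ν₁ w i + yy F₁ (H₂ := H₂) g₀ g₁ ν₀ ν₁ w' i := by
  have h : pU (w + w') = pU w + pU w' := rfl
  fin_cases i <;> simp only [yy, h, xx_add, aK_add, bK_add, map_add, map_mul] <;>
    simp only [Fin.zero_eta, Fin.mk_one, Matrix.cons_val_zero, Matrix.cons_val_one] <;> ring

theorem yy_smul (r : K) (w : I8 → K) (i : Fin 2) :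
    yy F₁ (H₂ := H₂) g₀ g₁ ν₀ ν₁ (r • w) i = r • yy F₁ (H₂ := H₂) g₀ g₁ ν₀ ν₁ w i := by
  have h : pU (r • w) = r • pU w := rfl
  fin_cases i <;> simp only [yy, h, xx_smul, aK_smul, bK_smul, map_mul] <;>
    simp only [Fin.zero_eta, Fin.mk_one, Matrix.cons_val_zero, Matrix.cons_val_one,
      Algebra.smul_def] <;> ring

/-- the map over `K` -/
def Jf (w : I8 → K) : I8 → K :=
  Sum.elim ![2 * xx F₁ (H₂ := H₂) g₀ g₁ ν₀ ν₁ w 0, 2 * xx F₁ (H₂ := H₂) g₀ g₁ ν₀ ν₁ w 2]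
    (F₂.vec (yy F₁ (H₂ := H₂) g₀ g₁ ν₀ ν₁ w 0) (yy F₁ (H₂ := H₂) g₀ g₁ ν₀ ν₁ w 1))

/-- the map over `K` as a linear map -/
def Jl : (I8 → K) →ₗ[K] (I8 → K) where
  toFun := Jf F₁ F₂ g₀ g₁ ν₀ ν₁
  map_add' w w' := by
    funext i
    rcases i with i | i
    · fin_cases i <;> simp [Jf, xx_add] <;> ring
    · simp only [Jf, Sum.elim_inr, Pi.add_apply, yy_add, vec_add]
  map_smul' r w := by
    funext i
    rcases i with i | i
    · fin_cases i <;> simp [Jf, xx_smul] <;> ring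
    · simp only [Jf, Sum.elim_inr, Pi.smul_apply, RingHom.id_apply, yy_smul, vec_smul]

/-- the matrix `J` -/
def Jm : Matrix I8 I8 K := LinearMap.toMatrix' (Jl F₁ F₂ g₀ g₁ ν₀ ν₁)

theorem Jm_mulVec (w : I8 → K) : Jm F₁ F₂ g₀ g₁ ν₀ ν₁ *ᵥ w = Jf F₁ F₂ g₀ g₁ ν₀ ν₁ w := by
  unfold Jm
  rw [LinearMap.toMatrix'_mulVec]
  rfl

end Map

end Pool.Agent.GSQ.JM
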