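import Pool.Agent.GSQ.Jmap

/-!
# GSQ: the map `J` over an extension field
-/

set_option autoImplicit false

noncomputable section

namespace Pool.Agent.GSQ.JM

open Matrix Pool.Agent.GSH

variable {K : Type} [Field K] {M : Type} [Field M] [Algebra K M]
variable {Ω : Type} [Field Ω] [Algebra K Ω]

theorem vK_single (i : I8) : (vK (Pi.single i (1 : K)) : I8 → Ω) = Pi.single i 1 := by
  funext j
  by_cases h : j = i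
  · subst h
    simp [vK]
  · simp [vK, h]

/-- two linear forms which agree on vectors over `K` are equal -/
theorem ext8 {f g : (I8 → Ω) → Ω} (hf : IsLinearMap Ω f) (hg : IsLinearMap Ω g)
    (h : ∀ w : I8 → K, f (vK w) = g (vK w)) (w : I8 → Ω) : f w = g w := by
  have h1 : hf.mk' f = hg.mk' g := by
    refine LinearMap.pi_ext' fun i => ?_
    ext
    have h2 := h (Pi.single i 1)
    rw [vK_single] at h2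
    simpa using h2
  exact congrFun (congrArg DFunLike.coe h1) w

/-! ### Linearity -/

theorem stX_add (ξ ξ' : Ω) (z z' gb : Fin 3 → Ω) (ν : Ω) :
    stX (ξ + ξ') (fun i => z i + z' i) gb ν = stX ξ z gb ν + stX ξ' z' gb ν := by
  unfold stX
  simp only [add_div, Finset.sum_add_distrib]
  ring

theorem stX_smul (a ξ : Ω) (z gb : Fin 3 → Ω) (ν : Ω) :
    stX (a * ξ) (fun i => a * z i) gb ν = a * stX ξ z gb ν := by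
  unfold stX
  simp only [mul_div_assoc, ← Finset.mul_sum]
  ring

theorem stY_add (ξ ξ' : Ω) (z z' g gb : Fin 3 → Ω) (ν : Ω) (i : Fin 3) :
    stY (ξ + ξ') (fun i => z i + z' i) g gb ν i = stY ξ z g gb ν i + stY ξ' z' g gb ν i := by
  unfold stY
  rw [stX_add]
  ring

theorem stY_smul (a ξ : Ω) (z g gb : Fin 3 → Ω) (ν : Ω) (i : Fin 3) :
    stY (a * ξ) (fun i => a * z i) g gb ν i = a * stY ξ z g gb ν i := by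
  unfold stY
  rw [stX_smul]
  ring

/-- `g₀ + g₁ ε` -/
def gv (s : Fin 3 → (M →ₐ[K] Ω)) (g₀ g₁ : M) (ε : Ω) (i : Fin 3) : Ω := s i g₀ + s i g₁ * ε

/-- `ν₀ + ν₁ ε` -/
def nv (ν₀ ν₁ : K) (ε : Ω) : Ω := algebraMap K Ω ν₀ + algebraMap K Ω ν₁ * ε

/-- `ξ` -/
def xv (w : I8 → Ω) (δ : Ω) : Ω := w (Sum.inl 0) + w (Sum.inl 1) * δ

theorem xv_add (w w' : I8 → Ω) (δ : Ω) : xv (w + w') δ = xv w δ + xv w' δ := by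
  unfold xv
  rw [Pi.add_apply, Pi.add_apply]
  ring

theorem xv_smul (a : Ω) (w : I8 → Ω) (δ : Ω) : xv (a • w) δ = a * xv w δ := by
  unfold xv
  rw [Pi.smul_apply, Pi.smul_apply, smul_eq_mul, smul_eq_mul]
  ring

section

variable {H₁ H₂ : Pen K} {c : M} (F₁ : Fr H₁ M c) (F₂ : Fr H₂ M c) (s : Fin 3 → (M →ₐ[K] Ω))
  (g₀ g₁ : M) (ν₀ ν₁ : K)

/-- `X` -/
def Xv (w : I8 → Ω) (δ₁ δ₂ : Ω) : Ω :=
  stX (xv w δ₁) (F₁.zi s δ₁ (pU w)) (gv s g₀ g₁ (-(δ₁ * δ₂))) (nv ν₀ ν₁ (δ₁ * δ₂))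

/-- `Y` -/
def Yv (w : I8 → Ω) (δ₁ δ₂ : Ω) (i : Fin 3) : Ω :=
  stY (xv w δ₁) (F₁.zi s δ₁ (pU w)) (gv s g₀ g₁ (δ₁ * δ₂)) (gv s g₀ g₁ (-(δ₁ * δ₂)))
    (nv ν₀ ν₁ (δ₁ * δ₂)) i

theorem Xv_lin (δ₁ δ₂ : Ω) : IsLinearMap Ω fun w => Xv F₁ s g₀ g₁ ν₀ ν₁ w δ₁ δ₂ where
  map_add w w' := by
    have h : pU (w + w') = pU w + pU w' := rfl
    unfold Xv
    rw [← stX_add, xv_add, h]
    congr 1
    funext i
    rw [zi_add]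
  map_smul a w := by
    have h : pU (a • w) = a • pU w := rfl
    unfold Xv
    rw [smul_eq_mul, ← stX_smul, xv_smul, h]
    congr 1
    funext i
    rw [zi_smul]

theorem Yv_lin (δ₁ δ₂ : Ω) (i : Fin 3) :
    IsLinearMap Ω fun w => Yv F₁ s g₀ g₁ ν₀ ν₁ w δ₁ δ₂ i where
  map_add w w' := by
    have h : pU (w + w') = pU w + pU w' := rfl
    unfold Yv
    rw [← stY_add, xv_add, h]
    congr 1
    funext i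
    rw [zi_add]
  map_smul a w := by
    have h : pU (a • w) = a • pU w := rfl
    unfold Yv
    rw [smul_eq_mul, ← stY_smul, xv_smul, h]
    congr 1
    funext i
    rw [zi_smul]

variable [CharZero K] [IsAlgClosed Ω] (hM : Module.finrank K M = 3) (hs : Function.Injective s)
  (hc0 : c ≠ 0) (hc : c = g₀ ^ 2 - algebraMap K M (H₁.d * H₂.d) * g₁ ^ 2)

omit [IsAlgClosed Ω] in
theorem zi_vK (δ : Ω) (u : Fin 6 → K) (i : Fin 3) :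
    F₁.zi s δ (vK u) i = s i (F₁.aK u) + s i (F₁.bK u) * δ := by
  unfold Eig.zi
  rw [s_aK, s_bK]

include hc in
omit [CharZero K] [IsAlgClosed Ω] in
theorem s_c {δ₁ δ₂ : Ω} (h₁ : δ₁ ^ 2 = algebraMap K Ω H₁.d) (h₂ : δ₂ ^ 2 = algebraMap K Ω H₂.d)
    (i : Fin 3) : s i c = gv s g₀ g₁ (δ₁ * δ₂) i * gv s g₀ g₁ (-(δ₁ * δ₂)) i := by
  have h3 : s i c = s i g₀ ^ 2 - algebraMap K Ω H₁.d * algebraMap K Ω H₂.d * s i g₁ ^ 2 := by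
    conv_lhs => rw [hc]
    rw [map_sub, map_mul, map_pow, map_pow, AlgHom.commutes, map_mul]
  rw [h3, ← h₁, ← h₂]
  unfold gv
  ring

include hM hs hc hc0 in
theorem Xv_vK {δ₁ δ₂ : Ω} (h₁ : δ₁ ^ 2 = algebraMap K Ω H₁.d)
    (h₂ : δ₂ ^ 2 = algebraMap K Ω H₂.d) (w : I8 → K) :
    Xv F₁ s g₀ g₁ ν₀ ν₁ (vK w) δ₁ δ₂ =
      algebraMap K Ω (xx F₁ (H₂ := H₂) g₀ g₁ ν₀ ν₁ w 0) +
      algebraMap K Ω (xx F₁ (H₂ := H₂) g₀ g₁ ν₀ ν₁ w 1) * δ₁ +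
      algebraMap K Ω (xx F₁ (H₂ := H₂) g₀ g₁ ν₀ ν₁ w 2) * δ₂ +
      algebraMap K Ω (xx F₁ (H₂ := H₂) g₀ g₁ ν₀ ν₁ w 3) * (δ₁ * δ₂) := by
  have hsum : ∑ i, F₁.zi s δ₁ (pU (vK w)) i / gv s g₀ g₁ (-(δ₁ * δ₂)) i =
      ∑ i, (s i (F₁.aK (pU w) * (g₀ / c)) + s i (F₁.bK (pU w) * (g₀ / c)) * δ₁ +
        algebraMap K Ω H₁.d * s i (F₁.bK (pU w) * (g₁ / c)) * δ₂ +
        s i (F₁.aK (pU w) * (g₁ / c)) * (δ₁ * δ₂)) := by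
    refine Finset.sum_congr rfl fun i _ => ?_
    have e1 : pU (vK w : I8 → Ω) = vK (pU w) := rfl
    have e2 := s_c s g₀ g₁ hc h₁ h₂ i
    have e3 : s i c ≠ 0 := by
      rw [Ne, map_eq_zero]
      exact hc0
    rw [e2] at e3
    have e4 := left_ne_zero_of_mul e3
    have e5 := right_ne_zero_of_mul e3
    rw [e1, zi_vK]
    simp only [map_mul, map_div₀]
    rw [e2, ← h₁]
    field_simp
    unfold gv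
    ring
  unfold Xv stX
  rw [hsum]
  simp only [Finset.sum_add_distrib, ← Finset.sum_mul, ← Finset.mul_sum, ← tr_eq hM hs]
  unfold xv nv
  simp only [xx, tt, Matrix.cons_val_zero, Matrix.cons_val_one, Matrix.cons_val, map_add, map_mul,
    map_sub, map_neg, vK]
  rw [← h₁, ← h₂]
  ring

omit [IsAlgClosed Ω] in
/-- the quotient in `Y` -/
theorem quo {g h e : Ω} (hh : g - h * e ≠ 0) (hg : g + h * e ≠ 0) :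
    1 - (g + h * e) / (g - h * e) =
      -2 * (h / ((g + h * e) * (g - h * e))) * e * (g + h * e) := by
  field_simp
  ring

include hc0 hc in
omit [CharZero K] [IsAlgClosed Ω] in
theorem one_sub {δ₁ δ₂ : Ω} (h₁ : δ₁ ^ 2 = algebraMap K Ω H₁.d)
    (h₂ : δ₂ ^ 2 = algebraMap K Ω H₂.d) (i : Fin 3) :
    1 - gv s g₀ g₁ (δ₁ * δ₂) i / gv s g₀ g₁ (-(δ₁ * δ₂)) i =
      -2 * s i (g₁ / c) * (δ₁ * δ₂) * gv s g₀ g₁ (δ₁ * δ₂) i := by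
  have e2 := s_c s g₀ g₁ hc h₁ h₂ i
  have e3 : s i c ≠ 0 := by
    rw [Ne, map_eq_zero]
    exact hc0
  rw [map_div₀, e2]
  rw [e2] at e3
  have e4 := left_ne_zero_of_mul e3
  have e5 := right_ne_zero_of_mul e3
  unfold gv at *
  rw [mul_neg, ← sub_eq_add_neg] at *
  exact quo e5 e4

include hM hs hc hc0 in
theorem Yv_vK {δ₁ δ₂ : Ω} (h₁ : δ₁ ^ 2 = algebraMap K Ω H₁.d)
    (h₂ : δ₂ ^ 2 = algebraMap K Ω H₂.d) (w : I8 → K) (i : Fin 3) :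
    Yv F₁ s g₀ g₁ ν₀ ν₁ (vK w) δ₁ δ₂ i + Yv F₁ s g₀ g₁ ν₀ ν₁ (vK w) (-δ₁) δ₂ i =
      s i (yy F₁ (H₂ := H₂) g₀ g₁ ν₀ ν₁ w 0) + s i (yy F₁ (H₂ := H₂) g₀ g₁ ν₀ ν₁ w 1) * δ₂ := by
  have h₁' : (-δ₁) ^ 2 = algebraMap K Ω H₁.d := by rw [neg_sq, h₁]
  have e1 : pU (vK w : I8 → Ω) = vK (pU w) := rfl
  have hX := Xv_vK F₁ s g₀ g₁ ν₀ ν₁ hM hs hc0 hc h₁ h₂ w
  have hX' := Xv_vK F₁ s g₀ g₁ ν₀ ν₁ hM hs hc0 hc h₁' h₂ w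
  have q := one_sub s g₀ g₁ hc0 hc h₁ h₂ i
  have q' := one_sub s g₀ g₁ hc0 hc h₁' h₂ i
  unfold Xv at hX hX'
  unfold Yv stY
  rw [hX, hX', q, q', e1, zi_vK, zi_vK]
  unfold gv nv
  simp only [yy, Matrix.cons_val_zero, Matrix.cons_val_one, map_add, map_mul,
    map_sub, map_neg, AlgHom.commutes, map_ofNat]
  rw [← h₁, ← h₂]
  ring

/-! ### The map in coordinates -/

variable (hH₂ : IsHer H₂) (hd₂ : H₂.d ≠ 0)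

include hM hs hc hc0 in
theorem eta_eq {δ₁ δ₂ : Ω} (h₁ : δ₁ ^ 2 = algebraMap K Ω H₁.d)
    (h₂ : δ₂ ^ 2 = algebraMap K Ω H₂.d) (w : I8 → Ω) :
    xv (mK (Jm F₁ F₂ g₀ g₁ ν₀ ν₁) *ᵥ w) δ₂ =
      Xv F₁ s g₀ g₁ ν₀ ν₁ w δ₁ δ₂ + Xv F₁ s g₀ g₁ ν₀ ν₁ w (-δ₁) δ₂ := by
  have h₁' : (-δ₁) ^ 2 = algebraMap K Ω H₁.d := by rw [neg_sq, h₁]
  refine ext8 (K := K) (f := fun w => xv (mK (Jm F₁ F₂ g₀ g₁ ν₀ ν₁) *ᵥ w) δ₂) (g := fun w =>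
    Xv F₁ s g₀ g₁ ν₀ ν₁ w δ₁ δ₂ + Xv F₁ s g₀ g₁ ν₀ ν₁ w (-δ₁) δ₂) ⟨fun w w' => ?_, fun a w => ?_⟩
    ⟨fun w w' => ?_, fun a w => ?_⟩ (fun w => ?_) w
  · rw [mulVec_add, xv_add]
  · rw [mulVec_smul, xv_smul, smul_eq_mul]
  · have a1 := (Xv_lin F₁ s g₀ g₁ ν₀ ν₁ δ₁ δ₂).map_add w w'
    have a2 := (Xv_lin F₁ s g₀ g₁ ν₀ ν₁ (-δ₁) δ₂).map_add w w'
    rw [a1, a2]
    ring
  · have a1 := (Xv_lin F₁ s g₀ g₁ ν₀ ν₁ δ₁ δ₂).map_smul a w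
    have a2 := (Xv_lin F₁ s g₀ g₁ ν₀ ν₁ (-δ₁) δ₂).map_smul a w
    rw [a1, a2, smul_add]
  · rw [Xv_vK F₁ s g₀ g₁ ν₀ ν₁ hM hs hc0 hc h₁ h₂ w,
      Xv_vK F₁ s g₀ g₁ ν₀ ν₁ hM hs hc0 hc h₁' h₂ w, mK_vK, Jm_mulVec]
    simp only [xv, vK, Jf, Sum.elim_inl, Matrix.cons_val_zero, Matrix.cons_val_one, map_mul,
      map_ofNat]
    ring

include hM hs hc hc0 hH₂ hd₂ in
theorem y_eq {δ₁ δ₂ : Ω} (h₁ : δ₁ ^ 2 = algebraMap K Ω H₁.d)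
    (h₂ : δ₂ ^ 2 = algebraMap K Ω H₂.d) (w : I8 → Ω) (i : Fin 3) :
    F₂.zi s δ₂ (pU (mK (Jm F₁ F₂ g₀ g₁ ν₀ ν₁) *ᵥ w)) i =
      Yv F₁ s g₀ g₁ ν₀ ν₁ w δ₁ δ₂ i + Yv F₁ s g₀ g₁ ν₀ ν₁ w (-δ₁) δ₂ i := by
  refine ext8 (K := K)
    (f := fun w => F₂.zi s δ₂ (pU (mK (Jm F₁ F₂ g₀ g₁ ν₀ ν₁) *ᵥ w)) i) (g := fun w =>
    Yv F₁ s g₀ g₁ ν₀ ν₁ w δ₁ δ₂ i + Yv F₁ s g₀ g₁ ν₀ ν₁ w (-δ₁) δ₂ i)
    ⟨fun w w' => ?_, fun a w => ?_⟩ ⟨fun w w' => ?_, fun a w => ?_⟩ (fun w => ?_) w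
  · rw [mulVec_add, ← zi_add]
    rfl
  · rw [mulVec_smul, smul_eq_mul, ← zi_smul]
    rfl
  · have a1 := (Yv_lin F₁ s g₀ g₁ ν₀ ν₁ δ₁ δ₂ i).map_add w w'
    have a2 := (Yv_lin F₁ s g₀ g₁ ν₀ ν₁ (-δ₁) δ₂ i).map_add w w'
    rw [a1, a2]
    ring
  · have a1 := (Yv_lin F₁ s g₀ g₁ ν₀ ν₁ δ₁ δ₂ i).map_smul a w
    have a2 := (Yv_lin F₁ s g₀ g₁ ν₀ ν₁ (-δ₁) δ₂ i).map_smul a w
    rw [a1, a2, smul_add]
  · rw [Yv_vK F₁ s g₀ g₁ ν₀ ν₁ hM hs hc0 hc h₁ h₂ w, mK_vK, Jm_mulVec]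
    have e1 : pU (vK (Jf F₁ F₂ g₀ g₁ ν₀ ν₁ w) : I8 → Ω) =
        vK (F₂.vec (yy F₁ (H₂ := H₂) g₀ g₁ ν₀ ν₁ w 0) (yy F₁ (H₂ := H₂) g₀ g₁ ν₀ ν₁ w 1)) := rfl
    rw [e1, vec_eq hH₂ hd₂ hM F₂.toEig hs]
    unfold Eig.zi
    have e2 := ai_comb hH₂ hd₂ hM F₂.toEig hs
      (fun i => s i (yy F₁ (H₂ := H₂) g₀ g₁ ν₀ ν₁ w 0))
      (fun i => s i (yy F₁ (H₂ := H₂) g₀ g₁ ν₀ ν₁ w 1)) i
    have e3 := bi_comb hH₂ hd₂ hM F₂.toEig hs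
      (fun i => s i (yy F₁ (H₂ := H₂) g₀ g₁ ν₀ ν₁ w 0))
      (fun i => s i (yy F₁ (H₂ := H₂) g₀ g₁ ν₀ ν₁ w 1)) i
    beta_reduce at e2 e3
    rw [e2, e3]

end

end Pool.Agent.GSQ.JM
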