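import Pool.Agent.GSQ.JmapB

/-!
# GSQ: the map `J` maps the cone to the cone
-/

set_option autoImplicit false

noncomputable section

namespace Pool.Agent.GSQ.JM

open Matrix Pool.Agent.GSH

/-- the number `ν` -/
theorem exists_nu {K : Type} [Field K] (h2 : (2 : K) ≠ 0) {h₀ h₁ n D : K} (hn : n ≠ 0)
    (hD : D ≠ 0) (h : h₀ ^ 2 - D * h₁ ^ 2 = n ^ 2) : ∃ ν₀ ν₁ : K,
      n * ν₀ = -(h₀ * ν₀ + D * h₁ * ν₁) ∧ n * ν₁ = h₀ * ν₁ + h₁ * ν₀ ∧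
        ν₀ ^ 2 - D * ν₁ ^ 2 ≠ 0 := by
  by_cases h3 : h₀ = n
  · have h4 : D * h₁ ^ 2 = 0 := by
      rw [h3] at h
      linear_combination -h
    have h5 : h₁ = 0 := by
      simpa [hD] using h4
    refine ⟨0, 1, ?_, ?_, ?_⟩
    · rw [h5]
      ring
    · rw [h5, h3]
      ring
    · intro h6
      apply hD
      linear_combination -h6
  · refine ⟨n - h₀, h₁, ?_, ?_, ?_⟩
    · linear_combination -h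
    · ring
    · have h4 : (n - h₀) ^ 2 - D * h₁ ^ 2 = 2 * n * (n - h₀) := by linear_combination h
      rw [h4]
      exact mul_ne_zero (mul_ne_zero h2 hn) (sub_ne_zero.2 (Ne.symm h3))

variable {K : Type} [Field K] [CharZero K] {M : Type} [Field M] [Algebra K M]

/-- the hypotheses on the constants -/
structure Con (H₁ H₂ : Pen K) (M : Type) [Field M] [Algebra K M] (c g₀ g₁ : M) (n ν₀ ν₁ : K) :
    Prop where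
  hH₁ : IsHer H₁
  hH₂ : IsHer H₂
  hd₁ : H₁.d ≠ 0
  hd₂ : H₂.d ≠ 0
  hM : Module.finrank K M = 3
  hc0 : c ≠ 0
  hc : c = g₀ ^ 2 - algebraMap K M (H₁.d * H₂.d) * g₁ ^ 2
  hg₁ : g₁ ≠ 0
  hn : n ≠ 0
  hN : Algebra.norm K c = n ^ 2
  hν : ν₀ ^ 2 - (H₁.d * H₂.d) * ν₁ ^ 2 ≠ 0
  hnu : ∀ (Ω : Type) [Field Ω] [Algebra K Ω] [IsAlgClosed Ω] (s : Fin 3 → (M →ₐ[K] Ω)),
    Function.Injective s → ∀ ε : Ω, ε ^ 2 = algebraMap K Ω (H₁.d * H₂.d) →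
      algebraMap K Ω n * nv ν₀ ν₁ (-ε) = -((∏ i, gv s g₀ g₁ ε i) * nv ν₀ ν₁ ε)

section

variable {H₁ H₂ : Pen K} {c g₀ g₁ : M} {n ν₀ ν₁ : K} (hC : Con H₁ H₂ M c g₀ g₁ n ν₀ ν₁)
  (F₁ : Fr H₁ M c) (F₂ : Fr H₂ M c) {Ω : Type} [Field Ω] [Algebra K Ω] [IsAlgClosed Ω]
  {s : Fin 3 → (M →ₐ[K] Ω)} (hs : Function.Injective s)

/-- the coordinates of the image -/
theorem Con.sl (hC : Con H₁ H₂ M c g₀ g₁ n ν₀ ν₁) (hs : Function.Injective s) {δ₁ δ₂ : Ω}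
    (h₁ : δ₁ ^ 2 = algebraMap K Ω H₁.d) (h₂ : δ₂ ^ 2 = algebraMap K Ω H₂.d) (w : I8 → Ω) :
    xv (mK (Jm F₁ F₂ g₀ g₁ ν₀ ν₁) *ᵥ w) δ₂ =
      slX (xv w δ₁) (xv w (-δ₁)) (F₁.zi s δ₁ (pU w)) (F₁.zi s (-δ₁) (pU w))
        (gv s g₀ g₁ (δ₁ * δ₂)) (gv s g₀ g₁ (-(δ₁ * δ₂))) (nv ν₀ ν₁ (δ₁ * δ₂))
        (nv ν₀ ν₁ (-(δ₁ * δ₂))) ∧
    F₂.zi s δ₂ (pU (mK (Jm F₁ F₂ g₀ g₁ ν₀ ν₁) *ᵥ w)) =
      slY (xv w δ₁) (xv w (-δ₁)) (F₁.zi s δ₁ (pU w)) (F₁.zi s (-δ₁) (pU w))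
        (gv s g₀ g₁ (δ₁ * δ₂)) (gv s g₀ g₁ (-(δ₁ * δ₂))) (nv ν₀ ν₁ (δ₁ * δ₂))
        (nv ν₀ ν₁ (-(δ₁ * δ₂))) := by
  constructor
  · rw [eta_eq F₁ F₂ s g₀ g₁ ν₀ ν₁ hC.hM hs hC.hc0 hC.hc h₁ h₂ w]
    unfold Xv slX
    rw [neg_mul, neg_neg]
  · funext i
    rw [y_eq F₁ F₂ s g₀ g₁ ν₀ ν₁ hC.hM hs hC.hc0 hC.hc hC.hH₂ hC.hd₂ h₁ h₂ w i]
    unfold Yv slY
    rw [neg_mul, neg_neg]

/-- the properties of the constants over `Ω` -/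
theorem Con.prop (hC : Con H₁ H₂ M c g₀ g₁ n ν₀ ν₁) (hs : Function.Injective s) {δ₁ δ₂ : Ω}
    (h₁ : δ₁ ^ 2 = algebraMap K Ω H₁.d) (h₂ : δ₂ ^ 2 = algebraMap K Ω H₂.d) :
    (∀ i, gv s g₀ g₁ (δ₁ * δ₂) i ≠ 0) ∧ (∀ i, gv s g₀ g₁ (-(δ₁ * δ₂)) i ≠ 0) ∧
    (∀ i, s i c = gv s g₀ g₁ (δ₁ * δ₂) i * gv s g₀ g₁ (-(δ₁ * δ₂)) i) ∧
    algebraMap K Ω n ≠ 0 ∧ algebraMap K Ω n ^ 2 = s 0 c * s 1 c * s 2 c ∧
    algebraMap K Ω n * nv ν₀ ν₁ (-(δ₁ * δ₂)) = -(gv s g₀ g₁ (δ₁ * δ₂) 0 *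
      gv s g₀ g₁ (δ₁ * δ₂) 1 * gv s g₀ g₁ (δ₁ * δ₂) 2 * nv ν₀ ν₁ (δ₁ * δ₂)) ∧
    nv ν₀ ν₁ (δ₁ * δ₂) ≠ 0 ∧ nv ν₀ ν₁ (-(δ₁ * δ₂)) ≠ 0 ∧
    ∀ i, gv s g₀ g₁ (δ₁ * δ₂) i ≠ gv s g₀ g₁ (-(δ₁ * δ₂)) i := by
  have hε : (δ₁ * δ₂) ^ 2 = algebraMap K Ω (H₁.d * H₂.d) := by
    rw [mul_pow, h₁, h₂, map_mul]
  have hε0 : δ₁ * δ₂ ≠ 0 := by
    intro h3
    rw [h3, zero_pow two_ne_zero] at hε
    exact mul_ne_zero hC.hd₁ hC.hd₂ ((map_eq_zero _).1 hε.symm)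
  have h2 : (2 : Ω) ≠ 0 := by
    have := (neZero_two K Ω).out
    exact this
  have hcs := s_c s g₀ g₁ hC.hc h₁ h₂
  have hc0 : ∀ i, s i c ≠ 0 := fun i => by
    rw [Ne, map_eq_zero]
    exact hC.hc0
  have hνν : nv ν₀ ν₁ (δ₁ * δ₂) * nv ν₀ ν₁ (-(δ₁ * δ₂)) ≠ 0 := by
    have h3 : nv ν₀ ν₁ (δ₁ * δ₂) * nv ν₀ ν₁ (-(δ₁ * δ₂)) =
        algebraMap K Ω (ν₀ ^ 2 - (H₁.d * H₂.d) * ν₁ ^ 2) := by
      rw [map_sub, map_mul, ← hε, map_pow, map_pow]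
      unfold nv
      ring
    rw [h3, Ne, map_eq_zero]
    exact hC.hν
  refine ⟨fun i h3 => hc0 i ?_, fun i h3 => hc0 i ?_, hcs, ?_, ?_, ?_, left_ne_zero_of_mul hνν,
    right_ne_zero_of_mul hνν, fun i h3 => ?_⟩
  · rw [hcs, h3, zero_mul]
  · rw [hcs, h3, mul_zero]
  · rw [Ne, map_eq_zero]
    exact hC.hn
  · rw [← map_pow, ← hC.hN, nm_eq hC.hM hs, Fin.prod_univ_three]
  · have h3 := hC.hnu Ω s hs (δ₁ * δ₂) hε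
    rw [Fin.prod_univ_three] at h3
    exact h3
  · unfold gv at h3
    have h4 : 2 * s i g₁ * (δ₁ * δ₂) = 0 := by linear_combination h3
    have h5 : s i g₁ ≠ 0 := by
      rw [Ne, map_eq_zero]
      exact hC.hg₁
    exact mul_ne_zero (mul_ne_zero h2 h5) hε0 h4

omit [IsAlgClosed Ω] [CharZero K] in
theorem zi_mul (F : Fr H₁ M c) {δ : Ω} (h : δ ^ 2 = algebraMap K Ω H₁.d) (u : Fin 6 → Ω)
    (i : Fin 3) : F.zi s δ u i * F.zi s (-δ) u i =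
      F.ai s u i ^ 2 - algebraMap K Ω H₁.d * F.bi s u i ^ 2 := by
  unfold Eig.zi
  rw [← h]
  ring

omit [IsAlgClosed Ω] [CharZero K] in
theorem s_e (F : Fr H₁ M c) (i : Fin 3) : algebraMap K Ω F.κ = s i c * s i F.e := by
  have h := congrArg (s i) F.hκ
  rw [AlgHom.commutes, map_mul] at h
  exact h

/-- **The image of the cone.** -/
theorem Con.core (hC : Con H₁ H₂ M c g₀ g₁ n ν₀ ν₁) (hs : Function.Injective s) {w : I8 → Ω}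
    (hQ : ∀ j, bl (H₁.Q j) (pU w) (pU w) = 0)
    (hP : ∀ δ : Ω, δ ^ 2 = algebraMap K Ω H₁.d → ∀ i : Fin 3,
      xv w δ * F₁.zi s (-δ) (pU w) i = s i c / algebraMap K Ω n *
        (F₁.zi s δ (pU w) (i + 1) * F₁.zi s δ (pU w) (i + 2))) (hw : pU w ≠ 0) :
    (∀ j, bl (H₂.Q j) (pU (mK (Jm F₁ F₂ g₀ g₁ ν₀ ν₁) *ᵥ w))
      (pU (mK (Jm F₁ F₂ g₀ g₁ ν₀ ν₁) *ᵥ w)) = 0) ∧
    ∀ δ : Ω, δ ^ 2 = algebraMap K Ω H₂.d → ∀ i : Fin 3,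
      xv (mK (Jm F₁ F₂ g₀ g₁ ν₀ ν₁) *ᵥ w) δ *
        F₂.zi s (-δ) (pU (mK (Jm F₁ F₂ g₀ g₁ ν₀ ν₁) *ᵥ w)) i = s i c / algebraMap K Ω n *
          (F₂.zi s δ (pU (mK (Jm F₁ F₂ g₀ g₁ ν₀ ν₁) *ᵥ w)) (i + 1) *
            F₂.zi s δ (pU (mK (Jm F₁ F₂ g₀ g₁ ν₀ ν₁) *ᵥ w)) (i + 2)) := by
  obtain ⟨r₀, hr₀⟩ := (iso_iff hC.hH₁ hC.hd₁ hC.hM F₁.toEig hs (pU w)).1 hQ
  have hc0 : ∀ i, s i c ≠ 0 := fun i => by
    rw [Ne, map_eq_zero]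
    exact hC.hc0
  -- everything for one choice of the square roots
  have key : ∀ δ₂ : Ω, δ₂ ^ 2 = algebraMap K Ω H₂.d →
      (∀ i : Fin 3, xv (mK (Jm F₁ F₂ g₀ g₁ ν₀ ν₁) *ᵥ w) δ₂ *
        F₂.zi s (-δ₂) (pU (mK (Jm F₁ F₂ g₀ g₁ ν₀ ν₁) *ᵥ w)) i = s i c / algebraMap K Ω n *
          (F₂.zi s δ₂ (pU (mK (Jm F₁ F₂ g₀ g₁ ν₀ ν₁) *ᵥ w)) (i + 1) *
            F₂.zi s δ₂ (pU (mK (Jm F₁ F₂ g₀ g₁ ν₀ ν₁) *ᵥ w)) (i + 2))) ∧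
      ∃ r : Ω, ∀ i : Fin 3, F₂.zi s δ₂ (pU (mK (Jm F₁ F₂ g₀ g₁ ν₀ ν₁) *ᵥ w)) i *
        F₂.zi s (-δ₂) (pU (mK (Jm F₁ F₂ g₀ g₁ ν₀ ν₁) *ᵥ w)) i = r * s i c := by
    intro δ₂ h₂
    obtain ⟨δ₁, h₁⟩ := IsAlgClosed.exists_pow_nat_eq (algebraMap K Ω H₁.d) zero_lt_two
    have h₁' : (-δ₁) ^ 2 = algebraMap K Ω H₁.d := by rw [neg_sq, h₁]
    have h₂' : (-δ₂) ^ 2 = algebraMap K Ω H₂.d := by rw [neg_sq, h₂]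
    obtain ⟨p1, p2, p3, p4, p5, p6, p7, p8, p9⟩ := hC.prop hs h₁ h₂
    obtain ⟨e1, e3⟩ := hC.sl F₁ F₂ hs h₁ h₂ w
    obtain ⟨e2, e4⟩ := hC.sl F₁ F₂ hs h₁ h₂' w
    rw [mul_neg, neg_neg] at e2 e4
    have q1 : ∀ i j k : Fin 3, i ≠ j → j ≠ k → i ≠ k →
        xv w δ₁ * F₁.zi s (-δ₁) (pU w) k = s k c / algebraMap K Ω n *
          (F₁.zi s δ₁ (pU w) i * F₁.zi s δ₁ (pU w) j) := by
      intro i j k hij hjk hik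
      rw [hP δ₁ h₁ k]
      have h3 : (k + 1 = i ∧ k + 2 = j) ∨ (k + 1 = j ∧ k + 2 = i) := by
        clear e1 e2 e3 e4 p1 p2 p3 p4 p5 p6 p7 p8 p9 hr₀ hP
        revert i j k
        decide
      rcases h3 with ⟨h4, h5⟩ | ⟨h4, h5⟩
      · rw [h4, h5]
      · rw [h4, h5, mul_comm (F₁.zi s δ₁ (pU w) j)]
    have q2 : ∀ i j k : Fin 3, i ≠ j → j ≠ k → i ≠ k →
        xv w (-δ₁) * F₁.zi s δ₁ (pU w) k = s k c / algebraMap K Ω n *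
          (F₁.zi s (-δ₁) (pU w) i * F₁.zi s (-δ₁) (pU w) j) := by
      intro i j k hij hjk hik
      have h6 := hP (-δ₁) h₁' k
      rw [neg_neg] at h6
      rw [h6]
      have h3 : (k + 1 = i ∧ k + 2 = j) ∨ (k + 1 = j ∧ k + 2 = i) := by
        clear e1 e2 e3 e4 p1 p2 p3 p4 p5 p6 p7 p8 p9 hr₀ hP h6
        revert i j k
        decide
      rcases h3 with ⟨h4, h5⟩ | ⟨h4, h5⟩
      · rw [h4, h5]
      · rw [h4, h5, mul_comm (F₁.zi s (-δ₁) (pU w) j)]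
    have hκ0 : algebraMap K Ω F₁.κ ≠ 0 := by
      rw [s_e (s := s) F₁ 0]
      refine mul_ne_zero (hc0 0) ?_
      rw [Ne, map_eq_zero]
      exact mul_ne_zero (pd_ne hC.hM F₁.toEig) F₁.ne
    have q3 : ∀ k, F₁.zi s δ₁ (pU w) k * F₁.zi s (-δ₁) (pU w) k =
        r₀ / algebraMap K Ω F₁.κ * s k c := by
      intro k
      rw [zi_mul F₁ h₁, ← hr₀ k, s_e (s := s) F₁ k]
      have h4 := s_e (s := s) F₁ k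
      rw [h4] at hκ0
      have h5 := right_ne_zero_of_mul hκ0
      have h6 := hc0 k
      field_simp
    have q4 : ∃ i, F₁.zi s δ₁ (pU w) i ≠ 0 ∨ F₁.zi s (-δ₁) (pU w) i ≠ 0 := by
      by_contra hcon
      push Not at hcon
      apply hw
      have h2 : (2 : Ω) ≠ 0 := (neZero_two K Ω).out
      have hδ : δ₁ ≠ 0 := by
        intro h3
        rw [h3, zero_pow two_ne_zero] at h₁
        exact hC.hd₁ ((map_eq_zero _).1 h₁.symm)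
      have h3 : ∀ i, F₁.ai s (pU w) i = 0 ∧ F₁.bi s (pU w) i = 0 := by
        intro i
        obtain ⟨h4, h5⟩ := hcon i
        unfold Eig.zi at h4 h5
        constructor
        · apply mul_left_cancel₀ h2
          linear_combination h4 + h5
        · apply mul_left_cancel₀ (mul_ne_zero h2 hδ)
          linear_combination h4 - h5
      rw [coord hC.hH₁ hC.hd₁ hC.hM F₁.toEig hs (pU w)]
      refine Finset.sum_eq_zero fun i _ => ?_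
      rw [(h3 i).1, (h3 i).2, zero_smul, zero_smul, add_zero]
    constructor
    · intro k
      have hk1 : k + 1 ≠ k + 2 := by
        clear e1 e2 e3 e4
        revert k
        decide
      have hk2 : k + 2 ≠ k := by
        clear e1 e2 e3 e4 hk1
        revert k
        decide
      have hk3 : k + 1 ≠ k := by
        clear e1 e2 e3 e4 hk1 hk2
        revert k
        decide
      rw [e1, e3, e4]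
      exact slot_cone (c := fun i => s i c) p1 p2 p3 p4 p5 p6 q1 q2 q3 q4 (k + 1) (k + 2) k
        hk1 hk2 hk3
    · refine ⟨xv (mK (Jm F₁ F₂ g₀ g₁ ν₀ ν₁) *ᵥ w) δ₂ *
        xv (mK (Jm F₁ F₂ g₀ g₁ ν₀ ν₁) *ᵥ w) (-δ₂), fun k => ?_⟩
      rw [e1, e2, e3, e4]
      exact slot_third (c := fun i => s i c) p1 p2 p3 p4 p5 p6 q1 q2 q3 q4 k
  refine ⟨?_, fun δ hδ => (key δ hδ).1⟩
  rw [iso_iff hC.hH₂ hC.hd₂ hC.hM F₂.toEig hs]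
  obtain ⟨δ₂, h₂⟩ := IsAlgClosed.exists_pow_nat_eq (algebraMap K Ω H₂.d) zero_lt_two
  obtain ⟨r, hr⟩ := (key δ₂ h₂).2
  refine ⟨r * algebraMap K Ω F₂.κ, fun i => ?_⟩
  rw [← zi_mul F₂ h₂, hr i, s_e (s := s) F₂ i]
  ring

end

end Pool.Agent.GSQ.JM
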